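import Pool.Agent.H238.SR.Expo

/-! Block version of the exponential inequality and the truncated random set. -/

set_option autoImplicit false

noncomputable section

namespace Pool.Agent.H238.SR

open MeasureTheory Finset

lemma sum_class (K n : ℕ) (hK : 1 ≤ K) (F : ℕ → ℝ) :
    ∑ i ∈ Ico K n, F i =
      ∑ r ∈ range K, ∑ q ∈ range n, (if K * (q + 1) + r < n then F (K * (q + 1) + r) else 0) := by
  have h1 : ∑ i ∈ Ico K n, F i = ∑ i ∈ Ico K (K + n * K), (if i < n then F i else 0) := by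
    rw [← Finset.sum_filter]
    apply Finset.sum_congr _ (fun _ _ => rfl)
    ext i
    simp only [Finset.mem_Ico, Finset.mem_filter]
    have : n ≤ K + n * K := by nlinarith
    omega
  rw [h1, Finset.sum_Ico_eq_sum_range, Nat.add_sub_cancel_left, Finset.sum_comm]
  rw [← sum_divMod n K hK (fun q r => if K * (q + 1) + r < n then F (K * (q + 1) + r) else 0)]
  refine Finset.sum_congr rfl fun t _ => ?_
  have : K * (t / K + 1) + t % K = K + t := by
    have := Nat.div_add_mod t K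
    rw [mul_add]; omega
  rw [this]

theorem block (p : ℕ) (hp : 0 < p) (K R : ℕ) (hK : 1 ≤ K) (h : ℕ → ℕ → ℝ) (W : ℕ → ℝ → ℝ)
    (v : ℕ → ℝ) (l : ℝ) (hl0 : 0 ≤ l) (hl1 : l ≤ 1)
    (hh : ∀ i, ∀ m < p ^ K, |h i m| ≤ 1)
    (h0 : ∀ i, ∑ m ∈ range (p ^ K), h i m = 0)
    (hv : ∀ i, (∑ m ∈ range (p ^ K), (h i m) ^ 2) / ((p ^ K : ℕ) : ℝ) ≤ v i)
    (hW : ∀ i, K ≤ i → Dep p (i + R - K) (W i)) (hW1 : ∀ i y, |W i y| ≤ 1) (n : ℕ) (B V : ℝ) :
    lam {y | K * B < ∑ i ∈ Ico K n, h i (nu p (i + R) y % p ^ K) * W i y ∧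
      ∑ i ∈ Ico K n, v i * (W i y) ^ 2 ≤ V} ≤
        K * ENNReal.ofReal (Real.exp (l ^ 2 * V - l * B)) := by
  have hv0 : ∀ i, 0 ≤ v i := fun i => le_trans (by positivity) (hv i)
  set W' : ℕ → ℝ → ℝ := fun i y => if i < n then W i y else 0 with hW'
  set S : ℕ → Set ℝ := fun r => {y | B ≤ ∑ q ∈ range n,
      h (K * (q + 1) + r) (nu p ((R + r) + K * (q + 1)) y % p ^ K) * W' (K * (q + 1) + r) y ∧
      ∑ q ∈ range n, v (K * (q + 1) + r) * (W' (K * (q + 1) + r) y) ^ 2 ≤ V} with hS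
  have hsub : {y | K * B < ∑ i ∈ Ico K n, h i (nu p (i + R) y % p ^ K) * W i y ∧
      ∑ i ∈ Ico K n, v i * (W i y) ^ 2 ≤ V} ⊆ ⋃ r ∈ range K, S r := by
    rintro y ⟨h1, h2⟩
    rw [sum_class K n hK] at h1 h2
    simp only [Set.mem_iUnion, exists_prop]
    by_contra hcon
    push Not at hcon
    have h3 : ∀ r ∈ range K, ∑ q ∈ range n, (if K * (q + 1) + r < n then
        h (K * (q + 1) + r) (nu p (K * (q + 1) + r + R) y % p ^ K) * W (K * (q + 1) + r) y
        else 0) ≤ B := by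
      intro r hr
      have h4 := hcon r hr
      simp only [hS, Set.mem_ofPred_eq, not_and, not_le] at h4
      by_contra h5
      push Not at h5
      have h6 : ∑ q ∈ range n, h (K * (q + 1) + r) (nu p ((R + r) + K * (q + 1)) y % p ^ K) *
          W' (K * (q + 1) + r) y = ∑ q ∈ range n, (if K * (q + 1) + r < n then
        h (K * (q + 1) + r) (nu p (K * (q + 1) + r + R) y % p ^ K) * W (K * (q + 1) + r) y
        else 0) := by
        refine Finset.sum_congr rfl fun q _ => ?_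
        simp only [hW']
        rw [show (R + r) + K * (q + 1) = K * (q + 1) + r + R by ring]
        split_ifs <;> simp
      have h7 := h4 (by rw [h6]; exact h5.le)
      have h8 : ∑ q ∈ range n, v (K * (q + 1) + r) * (W' (K * (q + 1) + r) y) ^ 2 ≤ V := by
        refine le_trans ?_ h2
        have h9 : ∀ r ∈ range K, 0 ≤ ∑ q ∈ range n, (if K * (q + 1) + r < n then
            v (K * (q + 1) + r) * W (K * (q + 1) + r) y ^ 2 else 0) := by
          intro r _
          refine Finset.sum_nonneg fun q _ => ?_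
          split_ifs
          · exact mul_nonneg (hv0 _) (sq_nonneg _)
          · exact le_rfl
        refine le_trans (le_of_eq ?_) (Finset.single_le_sum h9 hr)
        refine Finset.sum_congr rfl fun q _ => ?_
        simp only [hW']
        split_ifs <;> simp
      exact absurd h8 (not_le.2 h7)
    have h10 := Finset.sum_le_sum h3
    rw [Finset.sum_const, Finset.card_range, nsmul_eq_mul] at h10
    exact absurd h1 (not_lt.2 h10)
  refine (measure_mono hsub).trans ((measure_biUnion_finset_le _ _).trans ?_)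
  have hr : ∀ r ∈ range K, lam (S r) ≤ ENNReal.ofReal (Real.exp (l ^ 2 * V - l * B)) := by
    intro r _
    apply expo_prob p hp K (R + r) (fun q => h (K * (q + 1) + r)) (fun q => W' (K * (q + 1) + r))
      (fun q => v (K * (q + 1) + r)) l hl0 hl1 (fun q => hh _) (fun q => h0 _) (fun q => hv _)
    · intro q
      simp only [hW']
      by_cases hc : K * (q + 1) + r < n
      · simp only [hc, if_true]
        have h1 := hW (K * (q + 1) + r) (by nlinarith)
        have h2 : K * (q + 1) + r + R - K = R + r + K * q := by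
          rw [mul_add, mul_one]; omega
        rw [h2] at h1
        exact h1
      · simp only [hc, if_false]
        intro _ _ _ _ _; rfl
    · intro q y
      simp only [hW']
      split_ifs
      · exact hW1 _ _
      · simp
  calc ∑ r ∈ range K, lam (S r) ≤ ∑ r ∈ range K, ENNReal.ofReal (Real.exp (l ^ 2 * V - l * B)) :=
        Finset.sum_le_sum hr
    _ = _ := by rw [Finset.sum_const, Finset.card_range, nsmul_eq_mul]

/-! ### centred indicators -/

lemma ctr (P : ℕ) (hP : 0 < P) (e : ℕ → ℝ) (he : ∀ m, e m = 0 ∨ e m = 1) (s : ℝ)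
    (hs : s = (∑ m ∈ range P, e m) / (P : ℝ)) :
    (∀ m, |e m - s| ≤ 1) ∧ ∑ m ∈ range P, (e m - s) = 0 ∧
      (∑ m ∈ range P, (e m - s) ^ 2) / (P : ℝ) ≤ s ∧ 0 ≤ s ∧ s ≤ 1 := by
  have hP' : (0 : ℝ) < P := by exact_mod_cast hP
  have h0 : ∀ m, 0 ≤ e m := fun m => by rcases he m with h | h <;> rw [h] <;> norm_num
  have h1 : ∀ m, e m ≤ 1 := fun m => by rcases he m with h | h <;> rw [h] <;> norm_num
  have hs0 : 0 ≤ s := by
    rw [hs]; exact div_nonneg (Finset.sum_nonneg fun m _ => h0 m) hP'.le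
  have hs1 : s ≤ 1 := by
    rw [hs, div_le_one hP']
    calc ∑ m ∈ range P, e m ≤ ∑ m ∈ range P, (1 : ℝ) := Finset.sum_le_sum fun m _ => h1 m
      _ = P := by simp
  have hsP : s * P = ∑ m ∈ range P, e m := by rw [hs]; field_simp
  refine ⟨fun m => ?_, ?_, ?_, hs0, hs1⟩
  · rw [abs_le]; constructor <;> linarith [h0 m, h1 m]
  · rw [Finset.sum_sub_distrib, Finset.sum_const, Finset.card_range, nsmul_eq_mul, ← hsP]; ring
  · rw [div_le_iff₀ hP', hsP]
    have h2 : ∀ m, (e m - s) ^ 2 = (1 - 2 * s) * e m + s ^ 2 := fun m => by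
      rcases he m with h | h <;> rw [h] <;> ring
    simp_rw [h2]
    rw [Finset.sum_add_distrib, ← Finset.mul_sum, Finset.sum_const, Finset.card_range,
      nsmul_eq_mul, ← hsP]
    nlinarith [mul_nonneg hs0 hs0, mul_nonneg (mul_nonneg hs0 hs0) hP'.le]

/-! ### the sets -/

open Classical in
/-- indicator -/
def ind (E : Set ℕ) (i : ℕ) : ℕ := if i ∈ E then 1 else 0

/-- number of elements of `E` in `[A, B)` -/
def cnt (E : Set ℕ) (A B : ℕ) : ℕ := ∑ i ∈ Ico A B, ind E i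

open Classical in
/-- `i` is in `E` and the window of length `R` before `i` contains `c` elements of `E` -/
def pat (E : Set ℕ) (R c i : ℕ) : ℝ := if i ∈ E ∧ cnt E (i - R) i = c then 1 else 0

/-- the truncated return time set of `y` -/
def EE (p R : ℕ) (t : ℕ → ℕ) (y : ℝ) : Set ℕ := {i | nu p (i + R) y % p ^ R < t i}

/-- the same, seen from a block of digits -/
def EM (p R : ℕ) (t : ℕ → ℕ) (i m : ℕ) : Set ℕ := {j | (m / p ^ (i - j)) % p ^ R < t j}

/-- the probability of a pattern -/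
def sgm (p R : ℕ) (t : ℕ → ℕ) (c i : ℕ) : ℝ :=
  (∑ m ∈ range (p ^ (2 * R)), pat (EM p R t i m) R c i) / ((p ^ (2 * R) : ℕ) : ℝ)

lemma ind_congr {E F : Set ℕ} {i : ℕ} (h : i ∈ E ↔ i ∈ F) : ind E i = ind F i := by
  unfold ind
  by_cases hi : i ∈ E
  · rw [if_pos hi, if_pos (h.1 hi)]
  · rw [if_neg hi, if_neg (fun h' => hi (h.2 h'))]

lemma ind_le_one (E : Set ℕ) (i : ℕ) : ind E i ≤ 1 := by unfold ind; split_ifs <;> simp

lemma cnt_congr {E F : Set ℕ} {A B : ℕ} (h : ∀ i, A ≤ i → i < B → (i ∈ E ↔ i ∈ F)) :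
    cnt E A B = cnt F A B := by
  unfold cnt
  refine Finset.sum_congr rfl fun i hi => ?_
  rw [Finset.mem_Ico] at hi
  exact ind_congr (h i hi.1 hi.2)

lemma pat_congr {E F : Set ℕ} {R c i : ℕ} (h : ∀ j, i - R ≤ j → j ≤ i → (j ∈ E ↔ j ∈ F)) :
    pat E R c i = pat F R c i := by
  unfold pat
  rw [cnt_congr (fun j h1 h2 => h j h1 h2.le), h i (Nat.sub_le _ _) le_rfl]

lemma pat_01 (E : Set ℕ) (R c i : ℕ) : pat E R c i = 0 ∨ pat E R c i = 1 := by
  unfold pat; split_ifs <;> simp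

lemma cnt_le (E : Set ℕ) (A B : ℕ) : cnt E A B ≤ B - A := by
  unfold cnt
  calc _ ≤ ∑ i ∈ Ico A B, 1 := Finset.sum_le_sum fun i _ => ind_le_one E i
    _ = B - A := by simp

lemma sum_pat (E : Set ℕ) (R i : ℕ) : ∑ c ∈ range (R + 1), pat E R c i = ind E i := by
  classical
  unfold pat ind
  by_cases hi : i ∈ E
  · simp only [hi, true_and, if_true, Nat.cast_one]
    rw [Finset.sum_ite_eq, if_pos]
    rw [Finset.mem_range]
    have := cnt_le E (i - R) i
    omega
  · simp [hi]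

lemma EM_eq (p R : ℕ) (hp : 0 < p) (t : ℕ → ℕ) (i j : ℕ) (hj : i - R ≤ j) (hji : j ≤ i) (y : ℝ) :
    j ∈ EE p R t y ↔ j ∈ EM p R t i (nu p (i + R) y % p ^ (2 * R)) := by
  unfold EE EM
  simp only [Set.mem_ofPred_eq]
  rw [nu_div p (j + R) (i - j) hp y, show j + R + (i - j) = i + R by omega]
  have h1 : 2 * R = (i - j) + (2 * R - (i - j)) := by omega
  rw [h1, pow_add, Nat.mod_mul_right_div_self, Nat.mod_mod_of_dvd]
  apply pow_dvd_pow
  omega

lemma pat_eq (p R : ℕ) (hp : 0 < p) (t : ℕ → ℕ) (c i : ℕ) (y : ℝ) :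
    pat (EE p R t y) R c i = pat (EM p R t i (nu p (i + R) y % p ^ (2 * R))) R c i :=
  pat_congr fun j h1 h2 => EM_eq p R hp t i j h1 h2 y

/-! ### dependence -/

lemma EE_dep {p R : ℕ} (hp : 0 < p) (t : ℕ → ℕ) {i n : ℕ} (h : i + R ≤ n) {y y' : ℝ}
    (hy : nu p n y = nu p n y') : i ∈ EE p R t y ↔ i ∈ EE p R t y' := by
  unfold EE
  simp only [Set.mem_ofPred_eq]
  obtain ⟨k, rfl⟩ := Nat.exists_eq_add_of_le h
  rw [nu_div p (i + R) k hp y, nu_div p (i + R) k hp y', hy]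

lemma ind_dep {p R : ℕ} (hp : 0 < p) (t : ℕ → ℕ) {i n : ℕ} (h : i + R ≤ n) :
    Dep p n (fun y => ind (EE p R t y) i) :=
  fun _ _ _ _ he => ind_congr (EE_dep hp t h he)

lemma cnt_dep {p R : ℕ} (hp : 0 < p) (t : ℕ → ℕ) {A B n : ℕ} (h : B + R ≤ n) :
    Dep p n (fun y => cnt (EE p R t y) A B) :=
  fun _ _ _ _ he => cnt_congr fun i _ h2 => EE_dep hp t (by omega) he

lemma pat_dep {p R : ℕ} (hp : 0 < p) (t : ℕ → ℕ) {c i n : ℕ} (h : i + R ≤ n) :
    Dep p n (fun y => pat (EE p R t y) R c i) :=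
  fun _ _ _ _ he => pat_congr fun j _ h2 => EE_dep hp t (by omega) he

/-! ### the two block inequalities -/

theorem block1 (p : ℕ) (hp : 0 < p) (R : ℕ) (hR : 1 ≤ R) (t : ℕ → ℕ) (ht : ∀ i, t i ≤ p ^ R)
    (W : ℕ → ℝ → ℝ) (l : ℝ) (hl0 : 0 ≤ l) (hl1 : l ≤ 1)
    (hW : ∀ i, R ≤ i → Dep p i (W i)) (hW1 : ∀ i y, |W i y| ≤ 1) (n : ℕ) (B V : ℝ) :
    lam {y | R * B < ∑ i ∈ Ico R n, ((ind (EE p R t y) i : ℝ) - (t i : ℝ) / ((p ^ R : ℕ) : ℝ)) *
        W i y ∧ ∑ i ∈ Ico R n, ((t i : ℝ) / ((p ^ R : ℕ) : ℝ)) * (W i y) ^ 2 ≤ V} ≤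
        R * ENNReal.ofReal (Real.exp (l ^ 2 * V - l * B)) := by
  have hP : 0 < p ^ R := pow_pos hp R
  have hs : ∀ i, (t i : ℝ) / ((p ^ R : ℕ) : ℝ) =
      (∑ m ∈ range (p ^ R), (if m < t i then (1 : ℝ) else 0)) / ((p ^ R : ℕ) : ℝ) := by
    intro i
    congr 1
    rw [← Finset.sum_filter, Finset.sum_const, nsmul_eq_mul, mul_one]
    norm_cast
    rw [show (range (p ^ R)).filter (fun m => m < t i) = range (t i) by
      ext m; simp only [Finset.mem_filter, Finset.mem_range]; have := ht i; omega]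
    simp
  have he : ∀ i m, (if m < t i then (1 : ℝ) else 0) = 0 ∨ (if m < t i then (1 : ℝ) else 0) = 1 := by
    intro i m; split_ifs <;> simp
  have hc := fun i => ctr (p ^ R) hP (fun m => if m < t i then (1 : ℝ) else 0) (he i) _ (hs i)
  have key := block p hp R R hR (fun i m => (if m < t i then (1 : ℝ) else 0) -
    (t i : ℝ) / ((p ^ R : ℕ) : ℝ)) W (fun i => (t i : ℝ) / ((p ^ R : ℕ) : ℝ)) l hl0 hl1
    (fun i m _ => (hc i).1 m) (fun i => (hc i).2.1) (fun i => (hc i).2.2.1)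
    (fun i hi => by rw [Nat.add_sub_cancel]; exact hW i hi) hW1 n B V
  convert key using 6 with y
  refine Finset.sum_congr rfl fun i _ => ?_
  unfold ind EE
  simp only [Set.mem_ofPred_eq]
  push_cast
  rfl

theorem block2 (p : ℕ) (hp : 0 < p) (R : ℕ) (hR : 1 ≤ R) (t : ℕ → ℕ) (c : ℕ)
    (W : ℕ → ℝ → ℝ) (l : ℝ) (hl0 : 0 ≤ l) (hl1 : l ≤ 1)
    (hW : ∀ i, 2 * R ≤ i → Dep p (i - R) (W i)) (hW1 : ∀ i y, |W i y| ≤ 1) (n : ℕ) (B V : ℝ) :
    lam {y | 2 * R * B < ∑ i ∈ Ico (2 * R) n, (pat (EE p R t y) R c i - sgm p R t c i) *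
        W i y ∧ ∑ i ∈ Ico (2 * R) n, sgm p R t c i * (W i y) ^ 2 ≤ V} ≤
        2 * R * ENNReal.ofReal (Real.exp (l ^ 2 * V - l * B)) := by
  have hP : 0 < p ^ (2 * R) := pow_pos hp _
  have hc := fun i => ctr (p ^ (2 * R)) hP (fun m => pat (EM p R t i m) R c i)
    (fun m => pat_01 _ _ _ _) (sgm p R t c i) rfl
  have key := block p hp (2 * R) R (by omega) (fun i m => pat (EM p R t i m) R c i -
    sgm p R t c i) W (fun i => sgm p R t c i) l hl0 hl1
    (fun i m _ => (hc i).1 m) (fun i => (hc i).2.1) (fun i => (hc i).2.2.1)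
    (fun i hi => by rw [show i + R - 2 * R = i - R by omega]; exact hW i hi) hW1 n B V
  push_cast at key
  convert key using 6 with y
  refine Finset.sum_congr rfl fun i _ => ?_
  rw [pat_eq p R hp t c i y]

end Pool.Agent.H238.SR
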