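import Pool.Agent.H238.SR.Trans
import Pool.Graph.R_seed8.H505RS.VDC

/-! The second moment of a centred sum. -/

set_option autoImplicit false

noncomputable section

namespace Pool.Agent.H238.SR

open MeasureTheory Finset Pool.Agent.H505RS

universe u

/-- weights of pairs -/
def wt (η : ℕ → ℝ) (κ : ℕ → ℕ) (m u i : ℕ) : ℝ :=
  if κ (i + u) = κ i + m then η i * η (i + u) else 0

lemma pair_sum (L R m : ℕ) (hm : 1 ≤ m) (κ : ℕ → ℕ) (hmono : ∀ i j, i ≤ j → κ i ≤ κ j)
    (a : ℕ → ℕ → ℝ) :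
    ∑ i ∈ Ico (2 * R) (L + 1), ∑ j ∈ Ico (2 * R) (L + 1), (if κ j = κ i + m then a i j else 0) =
      ∑ u ∈ Ico 1 (L + 1), ∑ i ∈ Ico (2 * R) (L + 1 - u),
        (if κ (i + u) = κ i + m then a i (i + u) else 0) := by
  rw [Finset.sum_sigma', Finset.sum_sigma', ← Finset.sum_filter, ← Finset.sum_filter]
  refine Finset.sum_bij' (fun q _ => ⟨q.2 - q.1, q.1⟩) (fun q _ => ⟨q.2, q.2 + q.1⟩)
    ?_ ?_ ?_ ?_ ?_
  · rintro ⟨i, j⟩ h
    simp only [Finset.mem_filter, Finset.mem_sigma, Finset.mem_Ico] at h ⊢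
    obtain ⟨⟨⟨h1, h2⟩, h3, h4⟩, h5⟩ := h
    have hij : i < j := by
      by_contra hc
      have := hmono j i (by omega)
      omega
    refine ⟨⟨⟨by omega, by omega⟩, by omega, by omega⟩, ?_⟩
    rw [show i + (j - i) = j by omega]; exact h5
  · rintro ⟨u, i⟩ h
    simp only [Finset.mem_filter, Finset.mem_sigma, Finset.mem_Ico] at h ⊢
    obtain ⟨⟨⟨h1, h2⟩, h3, h4⟩, h5⟩ := h
    exact ⟨⟨⟨by omega, by omega⟩, by omega, by omega⟩, h5⟩
  · rintro ⟨i, j⟩ h
    simp only [Finset.mem_filter, Finset.mem_sigma, Finset.mem_Ico] at h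
    obtain ⟨⟨⟨h1, h2⟩, h3, h4⟩, h5⟩ := h
    have hij : i < j := by
      by_contra hc
      have := hmono j i (by omega)
      omega
    simp only [Sigma.mk.injEq, heq_eq_eq, true_and]
    omega
  · rintro ⟨u, i⟩ h
    simp only [Sigma.mk.injEq, heq_eq_eq, and_true]
    omega
  · rintro ⟨i, j⟩ h
    simp only [Finset.mem_filter, Finset.mem_sigma, Finset.mem_Ico] at h
    obtain ⟨⟨⟨h1, h2⟩, h3, h4⟩, h5⟩ := h
    have hij : i < j := by
      by_contra hc
      have := hmono j i (by omega)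
      omega
    simp only
    rw [show i + (j - i) = j by omega]

theorem second_moment (L R M U N : ℕ) (D S Bv : ℝ) (η : ℕ → ℝ) (κ : ℕ → ℕ) (c : ℕ)
    (hL : 1 ≤ L) (hM : 1 ≤ M) (hBv : 0 ≤ Bv) (hUL : U ≤ L + 1) (hRU : 2 * R ≤ U) (hR : 1 ≤ R)
    (hη : ∀ i, |η i| ≤ 1) (hS : ∑ i ∈ Ico (2 * R) (L + 1), |η i| ≤ S)
    (hD : ∀ k, ∑ i ∈ (Ico (2 * R) (L + 1)).filter (fun i => κ i = k), |η i| ≤ D)
    (hmono : ∀ i j, i ≤ j → κ i ≤ κ j) (hκ : ∀ i, κ i ≤ i)
    (hN : ∀ i ∈ Ico (2 * R) (L + 1), κ i + 1 ≤ N)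
    (hU : ∀ i u, 2 * R ≤ i → i + u ≤ L → κ (i + u) < κ i + M → u < U)
    (hV : ∀ m u k1 k2 : ℕ, 1 ≤ m → m < M → 2 * R ≤ u → u < U → k1 < 3 * L → k2 < 3 * L →
      ‖∑ i ∈ Ico (2 * R) (L + 1 - u), ((wt η κ m u i : ℝ) : ℂ) *
        (ee ((k1 : ℝ) * (κ i : ℕ) / (3 * L)) * ee ((k2 : ℝ) * i / (3 * L)))‖ ≤ Bv)
    {X : Type u} [MeasurableSpace X] (μ : Measure X) (T S' : X → X) (hsy : Sy μ T S')
    (f g : X → ℝ) (hf : Bd f) (hg : Bd g) :
    ∫ x, (∑ i ∈ Ico (2 * R) (L + 1), η i * (f (T^[κ i + c + 1] x) * g (S'^[i] x))) ^ 2 ∂μ ≤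
      ((N + M : ℝ) / (M : ℝ) ^ 2) *
        (M * (D * S) + 2 * (M * (2 * R * S + M * (U * (3 * Bv))))) := by
  classical
  have := hsy.prob
  have hTm := hsy.mT.measurable
  have hSm := hsy.mS.measurable
  set φ : ℕ → X → ℝ := fun i x => f (T^[κ i + c + 1] x) * g (S'^[i] x) with hφ
  have hφm : ∀ i, Measurable (φ i) := fun i =>
    (hf.1.comp (hTm.iterate _)).mul (hg.1.comp (hSm.iterate _))
  have hφb : ∀ i x, |φ i x| ≤ 1 := fun i x => by
    simp only [hφ]; rw [abs_mul]
    calc _ ≤ (1 : ℝ) * 1 := by gcongr; exacts [hf.2 _, hg.2 _]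
      _ = 1 := by ring
  set I := Ico (2 * R) (L + 1) with hI
  set z : X → ℕ → ℝ := fun x k => ∑ i ∈ I.filter (fun i => κ i + 1 = k), η i * φ i x with hz
  set A : ℕ → ℕ → X → ℝ := fun m u x => ∑ i ∈ Ico (2 * R) (L + 1 - u),
    wt η κ m u i * (φ i x * φ (i + u) x) with hA
  have hM' : (0 : ℝ) < M := by exact_mod_cast hM
  have hS0 : 0 ≤ S := le_trans (Finset.sum_nonneg fun i _ => abs_nonneg _) hS
  have hwt : ∀ m u i, |wt η κ m u i| ≤ if κ (i + u) = κ i + m then |η i| else 0 := by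
    intro m u i
    unfold wt
    split_ifs
    · rw [abs_mul]
      calc |η i| * |η (i + u)| ≤ |η i| * 1 := by gcongr; exact hη _
        _ = |η i| := mul_one _
    · simp
  -- sum over fibres
  have hsumz : ∀ x, ∑ i ∈ I, η i * φ i x = ∑ k ∈ Ioc 0 N, z x k := by
    intro x
    simp only [hz]
    rw [Finset.sum_fiberwise_of_maps_to]
    intro i hi
    rw [Finset.mem_Ioc]
    exact ⟨Nat.succ_pos _, hN i hi⟩
  -- the diagonal
  have hdiag : ∀ x, ∑ k ∈ Ioc 0 N, z x k ^ 2 ≤ D * S := by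
    intro x
    have h1 : ∀ k ∈ Ioc 0 N, z x k ^ 2 ≤ D * ∑ i ∈ I.filter (fun i => κ i + 1 = k), |η i| := by
      intro k hk
      rw [Finset.mem_Ioc] at hk
      have h2 : |z x k| ≤ ∑ i ∈ I.filter (fun i => κ i + 1 = k), |η i| := by
        refine (Finset.abs_sum_le_sum_abs _ _).trans (Finset.sum_le_sum fun i _ => ?_)
        rw [abs_mul]
        calc |η i| * |φ i x| ≤ |η i| * 1 := by gcongr; exact hφb _ _
          _ = |η i| := mul_one _
      have h3 : ∑ i ∈ I.filter (fun i => κ i + 1 = k), |η i| ≤ D := by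
        have h5 := hD (k - 1)
        rw [Finset.filter_congr (q := fun i => κ i = k - 1)]
        · exact h5
        · intro i _
          constructor <;> intro h <;> omega
      have h4 : 0 ≤ ∑ i ∈ I.filter (fun i => κ i + 1 = k), |η i| :=
        Finset.sum_nonneg fun i _ => abs_nonneg _
      calc z x k ^ 2 = |z x k| * |z x k| := by rw [← sq, sq_abs]
        _ ≤ D * ∑ i ∈ I.filter (fun i => κ i + 1 = k), |η i| := by
          apply mul_le_mul (h2.trans h3) h2 (abs_nonneg _) (h4.trans h3)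
    have hD0 : 0 ≤ D := le_trans (Finset.sum_nonneg fun i _ => abs_nonneg _) (hD 0)
    calc ∑ k ∈ Ioc 0 N, z x k ^ 2
        ≤ ∑ k ∈ Ioc 0 N, D * ∑ i ∈ I.filter (fun i => κ i + 1 = k), |η i| :=
          Finset.sum_le_sum h1
      _ = D * ∑ i ∈ I, |η i| := by
          rw [← Finset.mul_sum, Finset.sum_fiberwise_of_maps_to]
          intro i hi
          rw [Finset.mem_Ioc]
          exact ⟨Nat.succ_pos _, hN i hi⟩
      _ ≤ D * S := by gcongr
  -- pairs
  have hpair : ∀ x m, 1 ≤ m → ∑ k ∈ Ioc 0 (N - m), z x k * z x (k + m) =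
      ∑ u ∈ Ico 1 (L + 1), A m u x := by
    intro x m hm
    have h1 : ∑ k ∈ Ioc 0 (N - m), z x k * z x (k + m) =
        ∑ i ∈ I, ∑ j ∈ I, (if κ j = κ i + m then (η i * φ i x) * (η j * φ j x) else 0) := by
      have h2 : ∀ k ∈ Ioc 0 (N - m), z x k * z x (k + m) =
          ∑ i ∈ I.filter (fun i => κ i + 1 = k), ∑ j ∈ I,
            (if κ j = κ i + m then (η i * φ i x) * (η j * φ j x) else 0) := by
        intro k _
        simp only [hz]
        rw [Finset.sum_mul]
        refine Finset.sum_congr rfl fun i hi => ?_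
        rw [Finset.mem_filter] at hi
        rw [Finset.mul_sum, Finset.sum_filter]
        refine Finset.sum_congr rfl fun j _ => ?_
        by_cases h : κ j + 1 = k + m
        · rw [if_pos h, if_pos (by omega)]
        · rw [if_neg h, if_neg (by omega)]
      rw [Finset.sum_congr rfl h2]
      have h3 : ∀ i ∈ I, κ i + 1 ∉ Ioc 0 (N - m) → ∑ j ∈ I,
          (if κ j = κ i + m then (η i * φ i x) * (η j * φ j x) else 0) = 0 := by
        intro i hi hn
        refine Finset.sum_eq_zero fun j hj => ?_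
        rw [if_neg]
        intro h
        apply hn
        rw [Finset.mem_Ioc]
        have := hN j hj
        omega
      rw [← Finset.sum_filter_add_sum_filter_not I (fun i => κ i + 1 ∈ Ioc 0 (N - m))
        (fun i => ∑ j ∈ I, (if κ j = κ i + m then (η i * φ i x) * (η j * φ j x) else 0))]
      rw [Finset.sum_eq_zero (s := I.filter (fun i => ¬ κ i + 1 ∈ Ioc 0 (N - m)))
        (fun i hi => by rw [Finset.mem_filter] at hi; exact h3 i hi.1 hi.2), add_zero]
      rw [← Finset.sum_fiberwise_of_maps_to (s := I.filter (fun i => κ i + 1 ∈ Ioc 0 (N - m)))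
        (t := Ioc 0 (N - m)) (g := fun i => κ i + 1)
        (fun i hi => (Finset.mem_filter.1 hi).2)]
      refine Finset.sum_congr rfl fun k hk => ?_
      refine Finset.sum_congr ?_ fun _ _ => rfl
      ext i
      simp only [Finset.mem_filter]
      constructor
      · rintro ⟨h5, rfl⟩; exact ⟨⟨h5, hk⟩, rfl⟩
      · rintro ⟨⟨h5, _⟩, h6⟩; exact ⟨h5, h6⟩
    rw [h1, pair_sum L R m hm κ hmono (fun i j => (η i * φ i x) * (η j * φ j x))]
    refine Finset.sum_congr rfl fun u _ => ?_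
    simp only [hA]
    refine Finset.sum_congr rfl fun i _ => ?_
    unfold wt
    split_ifs
    · ring
    · ring
  -- far terms vanish for u ≥ U
  have hzero : ∀ m u x, m < M → U ≤ u → u < L + 1 → A m u x = 0 := by
    intro m u x hm hu hu2
    simp only [hA]
    refine Finset.sum_eq_zero fun i hi => ?_
    rw [Finset.mem_Ico] at hi
    unfold wt
    rw [if_neg, zero_mul]
    intro h
    have := hU i u hi.1 (by omega) (by omega)
    omega
  -- near terms
  set nr : ℕ → ℝ := fun m => ∑ u ∈ Ico 1 (2 * R), ∑ i ∈ Ico (2 * R) (L + 1 - u),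
    (if κ (i + u) = κ i + m then |η i| else 0) with hnr
  have hnear : ∀ m x, ∑ u ∈ Ico 1 (2 * R), A m u x ≤ nr m := by
    intro m x
    simp only [hnr, hA]
    refine Finset.sum_le_sum fun u _ => Finset.sum_le_sum fun i _ => ?_
    refine (le_abs_self _).trans ?_
    rw [abs_mul, abs_mul]
    calc |wt η κ m u i| * (|φ i x| * |φ (i + u) x|) ≤ |wt η κ m u i| * (1 * 1) := by
          gcongr; exacts [hφb _ _, hφb _ _]
      _ ≤ _ := by rw [one_mul, mul_one]; exact hwt m u i
  have hnr0 : ∀ m, 0 ≤ nr m := fun m => Finset.sum_nonneg fun u _ => Finset.sum_nonneg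
    fun i _ => by split_ifs <;> simp
  have hnrs : ∑ m ∈ Ico 1 M, nr m ≤ 2 * R * S := by
    simp only [hnr]
    rw [Finset.sum_comm]
    have h1 : ∀ u ∈ Ico 1 (2 * R), ∑ m ∈ Ico 1 M, ∑ i ∈ Ico (2 * R) (L + 1 - u),
        (if κ (i + u) = κ i + m then |η i| else 0) ≤ S := by
      intro u _
      rw [Finset.sum_comm]
      have h2 : ∀ i ∈ Ico (2 * R) (L + 1 - u), ∑ m ∈ Ico 1 M,
          (if κ (i + u) = κ i + m then |η i| else 0) ≤ |η i| := by
        intro i _
        by_cases h : ∃ m ∈ Ico 1 M, κ (i + u) = κ i + m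
        · obtain ⟨m, hm, he⟩ := h
          rw [Finset.sum_eq_single m]
          · rw [if_pos he]
          · intro m' _ hm'
            rw [if_neg]; omega
          · intro h; exact absurd hm h
        · rw [Finset.sum_eq_zero]
          · exact abs_nonneg _
          · intro m hm
            rw [if_neg fun he => h ⟨m, hm, he⟩]
      refine (Finset.sum_le_sum h2).trans (le_trans ?_ hS)
      apply Finset.sum_le_sum_of_subset_of_nonneg
      · intro i hi
        rw [hI, Finset.mem_Ico] at *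
        omega
      · intro i _ _; exact abs_nonneg _
    calc _ ≤ ∑ u ∈ Ico 1 (2 * R), S := Finset.sum_le_sum h1
      _ = ((2 * R - 1 : ℕ) : ℝ) * S := by rw [Finset.sum_const, Nat.card_Ico, nsmul_eq_mul]
      _ ≤ 2 * R * S := by
        have : ((2 * R - 1 : ℕ) : ℝ) ≤ 2 * R := by
          exact_mod_cast (by omega : 2 * R - 1 ≤ 2 * R)
        gcongr
  -- far integrals
  have hAm : ∀ m u, Measurable (A m u) := fun m u => Finset.measurable_sum _ fun i _ =>
    measurable_const.mul ((hφm _).mul (hφm _))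
  have hAb : ∀ m u x, |A m u x| ≤ ∑ i ∈ Ico (2 * R) (L + 1 - u), |wt η κ m u i| := by
    intro m u x
    refine (Finset.abs_sum_le_sum_abs _ _).trans (Finset.sum_le_sum fun i _ => ?_)
    rw [abs_mul, abs_mul]
    calc |wt η κ m u i| * (|φ i x| * |φ (i + u) x|) ≤ |wt η κ m u i| * (1 * 1) := by
          gcongr; exacts [hφb _ _, hφb _ _]
      _ = _ := by ring
  have hAi : ∀ m u, Integrable (A m u) μ := fun m u =>
    Integrable.of_bound (hAm m u).aestronglyMeasurable _
      (Filter.Eventually.of_forall fun x => by rw [Real.norm_eq_abs]; exact hAb m u x)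
  have hfar : ∀ m u, 1 ≤ m → m < M → 2 * R ≤ u → u < U → ∫ x, A m u x ∂μ ≤ 3 * Bv := by
    intro m u hm hmM hu huU
    have h1 : (∫ x, A m u x ∂μ) = ∫ x, ∑ i ∈ Ico (2 * R) (L + 1 - u), wt η κ m u i *
        ((fun x => f (T^[c + 1] x) * f (T^[m + (c + 1)] x)) (T^[κ i] x) *
          (fun x => g x * g (S'^[u] x)) (S'^[i] x)) ∂μ := by
      congr 1
      funext x
      simp only [hA]
      refine Finset.sum_congr rfl fun i _ => ?_
      unfold wt
      split_ifs with h
      · congr 1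
        simp only [hφ]
        rw [h, ← Function.iterate_add_apply, ← Function.iterate_add_apply,
          ← Function.iterate_add_apply]
        rw [show c + 1 + κ i = κ i + c + 1 by ring, show m + (c + 1) + κ i = κ i + m + c + 1 by ring,
          show u + i = i + u by ring]
        ring
      · simp
    rw [h1]
    refine (le_abs_self _).trans ?_
    refine trans_le L hL (Ico (2 * R) (L + 1 - u)) (wt η κ m u) κ Bv hBv ?_ ?_ ?_ μ T S' hsy
      (fun x => f (T^[c + 1] x) * f (T^[m + (c + 1)] x)) (fun x => g x * g (S'^[u] x)) ?_ ?_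
    · intro i hi; rw [Finset.mem_Ico] at hi; omega
    · intro i hi; rw [Finset.mem_Ico] at hi; exact (hκ i).trans (by omega)
    · intro k1 k2 h1 h2
      exact hV m u k1 k2 hm hmM hu huU h1 h2
    · refine ⟨(hf.1.comp (hTm.iterate _)).mul (hf.1.comp (hTm.iterate _)), fun x => ?_⟩
      rw [abs_mul]
      calc _ ≤ (1 : ℝ) * 1 := by gcongr; exacts [hf.2 _, hf.2 _]
        _ = 1 := by ring
    · refine ⟨hg.1.mul (hg.1.comp (hSm.iterate _)), fun x => ?_⟩
      rw [abs_mul]
      calc _ ≤ (1 : ℝ) * 1 := by gcongr; exacts [hg.2 _, hg.2 _]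
        _ = 1 := by ring
  -- pointwise bound
  have hpt : ∀ x, (∑ i ∈ I, η i * φ i x) ^ 2 ≤ ((N + M : ℝ) / (M : ℝ) ^ 2) *
      (M * (D * S) + 2 * ∑ m ∈ Ico 1 M, ((M : ℝ) - m) *
        (nr m + ∑ u ∈ Ico (2 * R) U, A m u x)) := by
    intro x
    rw [hsumz x]
    refine (t_VDC N M (z x) hM).trans ?_
    have h1 : ∀ m ∈ Ico 1 M, ((M : ℝ) - m) * ∑ k ∈ Ioc 0 (N - m), z x k * z x (k + m) ≤
        ((M : ℝ) - m) * (nr m + ∑ u ∈ Ico (2 * R) U, A m u x) := by
      intro m hm
      rw [Finset.mem_Ico] at hm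
      have h2 : (0 : ℝ) ≤ (M : ℝ) - m := by
        have : (m : ℝ) ≤ M := by exact_mod_cast hm.2.le
        linarith
      apply mul_le_mul_of_nonneg_left _ h2
      rw [hpair x m hm.1]
      have h3 : ∑ u ∈ Ico 1 (L + 1), A m u x = ∑ u ∈ Ico 1 (2 * R), A m u x +
          (∑ u ∈ Ico (2 * R) U, A m u x + ∑ u ∈ Ico U (L + 1), A m u x) := by
        rw [Finset.sum_Ico_consecutive _ hRU hUL, Finset.sum_Ico_consecutive _ (by omega) (by omega)]
      rw [h3, Finset.sum_eq_zero (s := Ico U (L + 1)) (fun u hu => by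
        rw [Finset.mem_Ico] at hu; exact hzero m u x hm.2 hu.1 hu.2), add_zero]
      exact add_le_add (hnear m x) le_rfl
    refine mul_le_mul_of_nonneg_left ?_ (by positivity)
    exact add_le_add (mul_le_mul_of_nonneg_left (hdiag x) hM'.le)
      (mul_le_mul_of_nonneg_left (Finset.sum_le_sum h1) (by norm_num))
  have hint1 : ∀ m, Integrable (fun x => nr m + ∑ u ∈ Ico (2 * R) U, A m u x) μ := fun m =>
    (integrable_const _).add (integrable_finsetSum _ fun u _ => hAi m u)
  have hint : Integrable (fun x => ((N + M : ℝ) / (M : ℝ) ^ 2) *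
      (M * (D * S) + 2 * ∑ m ∈ Ico 1 M, ((M : ℝ) - m) *
        (nr m + ∑ u ∈ Ico (2 * R) U, A m u x))) μ := by
    apply Integrable.const_mul
    apply (integrable_const _).add
    apply Integrable.const_mul
    exact integrable_finsetSum _ fun m _ => (hint1 m).const_mul _
  have hLHSm : Measurable (fun x => ∑ i ∈ I, η i * φ i x) :=
    Finset.measurable_sum _ fun i _ => measurable_const.mul (hφm i)
  calc ∫ x, (∑ i ∈ I, η i * φ i x) ^ 2 ∂μ
      ≤ ∫ x, ((N + M : ℝ) / (M : ℝ) ^ 2) *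
        (M * (D * S) + 2 * ∑ m ∈ Ico 1 M, ((M : ℝ) - m) *
        (nr m + ∑ u ∈ Ico (2 * R) U, A m u x)) ∂μ := by
        apply integral_mono_of_nonneg (Filter.Eventually.of_forall fun x => sq_nonneg _) hint
          (Filter.Eventually.of_forall hpt)
    _ = ((N + M : ℝ) / (M : ℝ) ^ 2) *
        (M * (D * S) + 2 * ∑ m ∈ Ico 1 M, ((M : ℝ) - m) *
        (nr m + ∑ u ∈ Ico (2 * R) U, ∫ x, A m u x ∂μ)) := by
        have hc : ∫ _x : X, (M * (D * S) : ℝ) ∂μ = M * (D * S) := by simp
        rw [integral_const_mul, integral_add (integrable_const _)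
          ((integrable_finsetSum _ fun m _ => (hint1 m).const_mul _).const_mul _), hc,
          integral_const_mul, integral_finsetSum _ (fun m _ => (hint1 m).const_mul _)]
        congr 3
        refine Finset.sum_congr rfl fun m _ => ?_
        rw [integral_const_mul, integral_add (integrable_const _)
          (integrable_finsetSum _ fun u _ => hAi m u), integral_finsetSum _ (fun u _ => hAi m u)]
        simp only [integral_const, probReal_univ, smul_eq_mul, one_mul]
    _ ≤ ((N + M : ℝ) / (M : ℝ) ^ 2) *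
        (M * (D * S) + 2 * (M * (2 * R * S + M * (U * (3 * Bv))))) := by
        have h5 : ∑ m ∈ Ico 1 M, ((M : ℝ) - m) *
            (nr m + ∑ u ∈ Ico (2 * R) U, ∫ x, A m u x ∂μ) ≤
            ∑ m ∈ Ico 1 M, (M : ℝ) * (nr m + U * (3 * Bv)) := by
          refine Finset.sum_le_sum fun m hm => ?_
          rw [Finset.mem_Ico] at hm
          have h6 : (m : ℝ) ≤ M := by exact_mod_cast hm.2.le
          have h7 : ∑ u ∈ Ico (2 * R) U, ∫ x, A m u x ∂μ ≤ U * (3 * Bv) := by
            calc _ ≤ ∑ u ∈ Ico (2 * R) U, 3 * Bv := Finset.sum_le_sum fun u hu => by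
                  rw [Finset.mem_Ico] at hu; exact hfar m u hm.1 hm.2 hu.1 hu.2
              _ = ((U - 2 * R : ℕ) : ℝ) * (3 * Bv) := by
                  rw [Finset.sum_const, Nat.card_Ico, nsmul_eq_mul]
              _ ≤ U * (3 * Bv) := by
                  have : ((U - 2 * R : ℕ) : ℝ) ≤ U := by exact_mod_cast Nat.sub_le _ _
                  gcongr
          calc ((M : ℝ) - m) * (nr m + ∑ u ∈ Ico (2 * R) U, ∫ x, A m u x ∂μ)
              ≤ ((M : ℝ) - m) * (nr m + U * (3 * Bv)) := by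
                apply mul_le_mul_of_nonneg_left _ (by linarith)
                linarith
            _ ≤ (M : ℝ) * (nr m + U * (3 * Bv)) := by
                have : (0 : ℝ) ≤ nr m + U * (3 * Bv) := by
                  have := hnr0 m; positivity
                have hm0 : (0 : ℝ) ≤ m := Nat.cast_nonneg _
                nlinarith
        have h8 : ∑ m ∈ Ico 1 M, (M : ℝ) * (nr m + U * (3 * Bv)) ≤
            M * (2 * R * S + M * (U * (3 * Bv))) := by
          rw [← Finset.mul_sum, Finset.sum_add_distrib, Finset.sum_const, Nat.card_Ico, nsmul_eq_mul]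
          have : ((M - 1 : ℕ) : ℝ) ≤ M := by exact_mod_cast Nat.sub_le _ _
          gcongr
        gcongr
        exact h5.trans h8

end Pool.Agent.H238.SR
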