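import Pool.Agent.H238.SR.Num
import Pool.Agent.H238.SR.SM

/-! Deterministic consequences of the discrepancy event. -/

set_option autoImplicit false

noncomputable section

namespace Pool.Agent.H238.SR

open MeasureTheory Finset Filter Topology
open Pool.Agent.H505RS (pw ee)

/-- the discrepancy event -/
def EvD (p : ℕ) (a b : ℝ) (L : ℕ) (E : Set ℕ) : Prop :=
  ∀ A B : ℕ, A ≤ B → B ≤ L + 1 → |(cnt E A B : ℝ) - ∑ i ∈ Ico A B, tau p a L i| ≤
    (L : ℝ) ^ b * Real.sqrt (1 + ∑ i ∈ Ico A B, tau p a L i)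

/-- pairs at distance between `R` and `2R` -/
def EvP (a b : ℝ) (L : ℕ) (E : Set ℕ) : Prop :=
  ∀ u : ℕ, RR L < u → u ≤ 2 * RR L →
    ∑ i ∈ Ico (2 * RR L) (L + 1), (ind E i : ℝ) * ind E (i - u) ≤ (L : ℝ) ^ (1 - 2 * a + 3 * b)

/-- centred pattern indicator -/
def et (p : ℕ) (a : ℝ) (L c : ℕ) (E : Set ℕ) (i : ℕ) : ℝ :=
  pat E (RR L) c i - sgm p (RR L) (tq p a L) c i

/-- delayed counting function -/
def kap (L : ℕ) (E : Set ℕ) (i : ℕ) : ℕ := cnt E 0 (i - 2 * RR L)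

/-- the exponential sums -/
def EvV (p : ℕ) (a b : ℝ) (L : ℕ) (E : Set ℕ) : Prop :=
  ∀ c m u k1 k2 : ℕ, c ≤ RR L → m < L → 2 * RR L ≤ u → u < L → k1 < 3 * L → k2 < 3 * L →
    ‖∑ i ∈ Ico (2 * RR L) (L + 1 - u), ((wt (et p a L c E) (kap L E) m u i : ℝ) : ℂ) *
        (ee ((k1 : ℝ) * (kap L E i : ℕ) / (3 * L)) * ee ((k2 : ℝ) * i / (3 * L)))‖ ≤
      (L : ℝ) ^ ((1 - 2 * a) / 2 + 3 * b)

lemma cnt_split (E : Set ℕ) (A B C : ℕ) (h1 : A ≤ B) (h2 : B ≤ C) :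
    cnt E A C = cnt E A B + cnt E B C := by
  unfold cnt; rw [Finset.sum_Ico_consecutive _ h1 h2]

lemma cnt_mono (E : Set ℕ) {A B A' B' : ℕ} (h1 : A' ≤ A) (h2 : B ≤ B') :
    cnt E A B ≤ cnt E A' B' := by
  unfold cnt
  apply Finset.sum_le_sum_of_subset
  intro i hi; rw [Finset.mem_Ico] at *; omega

lemma sqrt_am (x K : ℝ) (hx : 0 ≤ x) :
    K * Real.sqrt (1 + x) ≤ (K ^ 2 + 1 + x) / 2 := by
  have h1 := Real.sq_sqrt (by linarith : 0 ≤ 1 + x)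
  nlinarith [sq_nonneg (K - Real.sqrt (1 + x))]

lemma Lsq (L : ℕ) (b : ℝ) : ((L : ℝ) ^ b) ^ 2 = (L : ℝ) ^ (2 * b) := by
  rw [← Real.rpow_natCast, ← Real.rpow_mul (Nat.cast_nonneg _)]
  congr 1; push_cast; ring

lemma EvD.up {p : ℕ} {a b : ℝ} {L : ℕ} {E : Set ℕ} (h : EvD p a b L E) {A B : ℕ} (h1 : A ≤ B)
    (h2 : B ≤ L + 1) :
    (cnt E A B : ℝ) ≤ 2 * ∑ i ∈ Ico A B, tau p a L i + ((L : ℝ) ^ (2 * b) + 1) := by
  have hx : 0 ≤ ∑ i ∈ Ico A B, tau p a L i := Finset.sum_nonneg fun i _ => tau_nonneg p a L i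
  have h3 := (abs_le.1 (h A B h1 h2)).2
  have h4 := sqrt_am _ ((L : ℝ) ^ b) hx
  rw [Lsq] at h4
  have : 0 ≤ (L : ℝ) ^ (2 * b) := by positivity
  linarith

lemma EvD.dn {p : ℕ} {a b : ℝ} {L : ℕ} {E : Set ℕ} (h : EvD p a b L E) {A B : ℕ} (h1 : A ≤ B)
    (h2 : B ≤ L + 1) :
    ∑ i ∈ Ico A B, tau p a L i ≤ 2 * (cnt E A B : ℝ) + ((L : ℝ) ^ (2 * b) + 1) := by
  have hx : 0 ≤ ∑ i ∈ Ico A B, tau p a L i := Finset.sum_nonneg fun i _ => tau_nonneg p a L i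
  have h3 := (abs_le.1 (h A B h1 h2)).1
  have h4 := sqrt_am _ ((L : ℝ) ^ b) hx
  rw [Lsq] at h4
  linarith

/-- summation by parts inequality -/
lemma abel (u x z : ℕ → ℝ) (K : ℝ) (hu0 : ∀ i, 0 ≤ u i)
    (hu : ∀ i, 1 ≤ i → u (i + 1) ≤ u i) (L : ℕ)
    (h : ∀ n, n ≤ L → ∑ j ∈ Ico 1 (n + 1), x j ≤ ∑ j ∈ Ico 1 (n + 1), z j + K) :
    ∑ j ∈ Ico 1 (L + 1), u j * x j ≤ ∑ j ∈ Ico 1 (L + 1), u j * z j + K * u 1 := by
  rcases Nat.eq_zero_or_pos L with hL | hL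
  · subst hL
    have hK := h 0 le_rfl
    simp only [zero_add, Finset.Ico_self, Finset.sum_empty] at hK ⊢
    have := hu0 1
    positivity
  have key : ∀ n, 1 ≤ n → n ≤ L → u n * (∑ j ∈ Ico 1 (n + 1), (z j - x j) + K) - K * u 1 ≤
      ∑ j ∈ Ico 1 (n + 1), u j * (z j - x j) := by
    intro n hn
    induction n, hn using Nat.le_induction with
    | base => intro _; simp; linarith
    | succ n hn ih =>
      intro hnL
      have h1 := ih (by omega)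
      rw [Finset.sum_Ico_succ_top (by omega), Finset.sum_Ico_succ_top (by omega : 1 ≤ n + 1)]
      have h2 := h n (by omega)
      rw [← sub_nonneg] at h2
      have h3 : 0 ≤ ∑ j ∈ Ico 1 (n + 1), (z j - x j) + K := by
        rw [Finset.sum_sub_distrib]; linarith
      have h4 := mul_le_mul_of_nonneg_right (hu n hn) h3
      nlinarith
  have h1 := key L hL le_rfl
  have h2 := h L le_rfl
  have h3 : 0 ≤ ∑ j ∈ Ico 1 (L + 1), (z j - x j) + K := by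
    rw [Finset.sum_sub_distrib]; linarith
  have h4 := mul_nonneg (hu0 L) h3
  have h5 : ∑ j ∈ Ico 1 (L + 1), u j * (z j - x j) =
      ∑ j ∈ Ico 1 (L + 1), u j * z j - ∑ j ∈ Ico 1 (L + 1), u j * x j := by
    rw [← Finset.sum_sub_distrib]
    exact Finset.sum_congr rfl fun j _ => by ring
  linarith

/-- the variance bound -/
lemma var_bd (p : ℕ) (hp : 2 ≤ p) (a b : ℝ) (ha : 0 < a) (ha1 : a < 1 / 2) (L : ℕ) (hL : 1 ≤ L)
    (E : Set ℕ) (h0 : 0 ∉ E) (h : EvD p a b L E) :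
    ∑ j ∈ Ico 1 (L + 1), tau p a L j * ((ind E j : ℝ) + tau p a L j) ≤
      3 * ((L : ℝ) ^ (1 - 2 * a) / (1 - 2 * a) + 2) + ((L : ℝ) ^ (2 * b) + 1) := by
  have hK : (0 : ℝ) ≤ (L : ℝ) ^ (2 * b) + 1 := by positivity
  have h1 := abel (tau p a L) (fun j => (ind E j : ℝ)) (fun j => 2 * tau p a L j)
    ((L : ℝ) ^ (2 * b) + 1) (tau_nonneg p a L)
    (fun i hi => tau_anti p a ha L i (i + 1) hi (by omega)) L
    (by
      intro n hn
      have h2 := h.up (A := 1) (B := n + 1) (by omega) (by omega)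
      rw [← Finset.mul_sum]
      unfold cnt at h2
      push_cast at h2
      exact h2)
  have h3 : ∑ j ∈ Ico 1 (L + 1), tau p a L j ^ 2 ≤
      (L : ℝ) ^ (1 - 2 * a) / (1 - 2 * a) + 2 := by
    refine le_trans ?_ (sum_tau_sq p hp a ha ha1 L hL)
    apply Finset.sum_le_sum_of_subset_of_nonneg
    · intro i hi; rw [Finset.mem_Ico] at *; omega
    · intro i _ _; positivity
  have h4 : ∑ j ∈ Ico 1 (L + 1), tau p a L j * ((ind E j : ℝ) + tau p a L j) =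
      ∑ j ∈ Ico 1 (L + 1), tau p a L j * (ind E j : ℝ) + ∑ j ∈ Ico 1 (L + 1), tau p a L j ^ 2 := by
    rw [← Finset.sum_add_distrib]
    exact Finset.sum_congr rfl fun j _ => by ring
  have h5 : ∑ j ∈ Ico 1 (L + 1), tau p a L j * (2 * tau p a L j) =
      2 * ∑ j ∈ Ico 1 (L + 1), tau p a L j ^ 2 := by
    rw [Finset.mul_sum]
    exact Finset.sum_congr rfl fun j _ => by ring
  have h6 := tau_le_one p hp a ha L 1
  have h7 : ((L : ℝ) ^ (2 * b) + 1) * tau p a L 1 ≤ (L : ℝ) ^ (2 * b) + 1 := by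
    nlinarith
  rw [h4]
  rw [h5] at h1
  linarith

/-! ### bounds on the centred patterns -/

lemma et_abs_le_one (p : ℕ) (hp : 2 ≤ p) (a : ℝ) (L c : ℕ) (E : Set ℕ) (i : ℕ) :
    |et p a L c E i| ≤ 1 := by
  unfold et
  have h1 := sgm_ctr p (RR L) (by omega) (tq p a L) c i
  rcases pat_01 E (RR L) c i with h | h <;> rw [h, abs_le] <;> constructor <;> linarith [h1.1, h1.2]

lemma pat_le_ind (E : Set ℕ) (R c i : ℕ) : pat E R c i ≤ ind E i := by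
  unfold pat ind
  by_cases h : i ∈ E
  · rw [if_pos h]; split_ifs <;> simp
  · rw [if_neg h, if_neg (fun h' => h h'.1)]; simp

lemma et_abs_le (p : ℕ) (hp : 2 ≤ p) (a : ℝ) (ha : 0 < a) (L c : ℕ) (hc : c ≤ RR L) (E : Set ℕ)
    (i : ℕ) : |et p a L c E i| ≤ ind E i + tau p a L i := by
  have h1 := sgm_ctr p (RR L) (by omega) (tq p a L) c i
  have h2 := sgm_le p (RR L) (by omega) (tq p a L) c i (tq_le p a ha L i) hc
  have h3 := pat_le_ind E (RR L) c i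
  have h4 : 0 ≤ pat E (RR L) c i := by rcases pat_01 E (RR L) c i with h | h <;> rw [h] <;> norm_num
  unfold et tau
  rw [abs_le]
  constructor
  · have : (0 : ℝ) ≤ ind E i := Nat.cast_nonneg _
    linarith [h1.1]
  · have : (0 : ℝ) ≤ (tq p a L i : ℝ) / ((p ^ RR L : ℕ) : ℝ) := by positivity
    linarith [h1.1]

lemma et_sq_le (p : ℕ) (hp : 2 ≤ p) (a : ℝ) (ha : 0 < a) (L c : ℕ) (hc : c ≤ RR L) (E : Set ℕ)
    (i : ℕ) : et p a L c E i ^ 2 ≤ ind E i + tau p a L i := by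
  have h1 := et_abs_le_one p hp a L c E i
  have h2 := et_abs_le p hp a ha L c hc E i
  calc et p a L c E i ^ 2 = |et p a L c E i| * |et p a L c E i| := by rw [← sq, sq_abs]
    _ ≤ |et p a L c E i| * 1 := by gcongr
    _ ≤ _ := by rw [mul_one]; exact h2

end Pool.Agent.H238.SR
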