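import Pool.Agent.H238.SR.Mom

/-! Deterministic decomposition of the ergodic sums. -/

set_option autoImplicit false

noncomputable section

namespace Pool.Agent.H238.SR

open MeasureTheory Finset Filter Topology
open Pool.Agent.H505RS (pw ee Sy Bd)

universe u

lemma sum_pat_F (E : Set ℕ) (R i : ℕ) (G : ℕ → ℝ) :
    ∑ c ∈ range (R + 1), pat E R c i * G c = ind E i * G (cnt E (i - R) i) := by
  classical
  by_cases hi : i ∈ E
  · rw [Finset.sum_eq_single (cnt E (i - R) i)]
    · unfold pat ind; rw [if_pos ⟨hi, rfl⟩, if_pos hi]; simp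
    · intro c _ hc
      unfold pat; rw [if_neg (fun h => hc h.2.symm), zero_mul]
    · intro h
      exfalso; apply h
      rw [Finset.mem_range]
      have := cnt_le E (i - R) i
      omega
  · rw [Finset.sum_eq_zero]
    · unfold ind; rw [if_neg hi]; simp
    · intro c _
      unfold pat; rw [if_neg (fun h => hi h.1), zero_mul]

lemma one_term (E : Set ℕ) (R i : ℕ) (hi : 2 * R ≤ i) (G : ℕ → ℝ) (hG : ∀ k, |G k| ≤ 1) :
    |ind E i * G (cnt E 0 (i + 1)) -
      ∑ c ∈ range (R + 1), pat E R c i * G (cnt E 0 (i - 2 * R) + c + 1)| ≤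
      2 * ((ind E i : ℝ) * cnt E (i - 2 * R) (i - R)) := by
  rw [sum_pat_F E R i (fun c => G (cnt E 0 (i - 2 * R) + c + 1))]
  by_cases hE : i ∈ E
  · have hind : ind E i = 1 := by unfold ind; rw [if_pos hE]
    have h1 : cnt E 0 (i + 1) = cnt E 0 (i - 2 * R) + cnt E (i - 2 * R) (i - R) +
        cnt E (i - R) i + 1 := by
      rw [cnt_split E 0 (i - 2 * R) (i + 1) (by omega) (by omega),
        cnt_split E (i - 2 * R) (i - R) (i + 1) (by omega) (by omega),
        cnt_split E (i - R) i (i + 1) (by omega) (by omega)]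
      have : cnt E i (i + 1) = 1 := by unfold cnt; simp [hind]
      rw [this]; ring
    rw [hind, Nat.cast_one, one_mul, one_mul, one_mul]
    rcases Nat.eq_zero_or_pos (cnt E (i - 2 * R) (i - R)) with h0 | h0
    · rw [h1, h0, add_zero, sub_self, abs_zero]; simp
    · have h2 : (1 : ℝ) ≤ cnt E (i - 2 * R) (i - R) := by exact_mod_cast h0
      calc _ ≤ |G (cnt E 0 (i + 1))| + |G (cnt E 0 (i - 2 * R) + cnt E (i - R) i + 1)| :=
            abs_sub _ _
        _ ≤ 1 + 1 := add_le_add (hG _) (hG _)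
        _ ≤ _ := by linarith
  · have hind : ind E i = 0 := by unfold ind; rw [if_neg hE]
    rw [hind]; simp

lemma cnt_window (E : Set ℕ) (R i : ℕ) (hi : 2 * R ≤ i) :
    cnt E (i - 2 * R) (i - R) = ∑ u ∈ Ioc R (2 * R), ind E (i - u) := by
  unfold cnt
  refine Finset.sum_bij' (fun j _ => i - j) (fun u _ => i - u) ?_ ?_ ?_ ?_ ?_
  · intro j hj; simp only [Finset.mem_Ico, Finset.mem_Ioc] at *; omega
  · intro u hu; simp only [Finset.mem_Ico, Finset.mem_Ioc] at *; omega
  · intro j hj; simp only [Finset.mem_Ico] at *; omega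
  · intro u hu; simp only [Finset.mem_Ioc] at *; omega
  · intro j hj
    simp only [Finset.mem_Ico] at *
    rw [show i - (i - j) = j by omega]

/-- the ergodic sum up to `L` -/
def AS (E : Set ℕ) (L : ℕ) {X : Type u} (T S : X → X) (f g : X → ℝ) (x : X) : ℝ :=
  ∑ i ∈ Ico 1 (L + 1), (ind E i : ℝ) * (f (T^[cnt E 0 (i + 1)] x) * g (S^[i] x))

/-- the compensator sum -/
def compS (p : ℕ) (a : ℝ) (L c : ℕ) (E : Set ℕ) {X : Type u} (T S : X → X) (f g : X → ℝ)
    (x : X) : ℝ :=
  ∑ i ∈ Ico (2 * RR L) (L + 1), sgm p (RR L) (tq p a L) c i *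
    (f (T^[kap L E i + c + 1] x) * g (S^[i] x))

lemma dec (p : ℕ) (a : ℝ) (L : ℕ) (E : Set ℕ) (hL : 2 * RR L ≤ L + 1) {X : Type u}
    [MeasurableSpace X] (T S : X → X) (f g : X → ℝ) (hf : Bd f) (hg : Bd g) (x : X) :
    |AS E L T S f g x - (∑ c ∈ range (RR L + 1), mainS p a L c E T S f g x +
      ∑ c ∈ range (RR L + 1), compS p a L c E T S f g x)| ≤
      2 * RR L + 2 * ∑ u ∈ Ioc (RR L) (2 * RR L), ∑ i ∈ Ico (2 * RR L) (L + 1),
        (ind E i : ℝ) * ind E (i - u) := by
  have hRp := RR_pos L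
  set R := RR L with hR
  have hb : ∀ k i, |f (T^[k] x) * g (S^[i] x)| ≤ 1 := fun k i => by
    rw [abs_mul]
    calc _ ≤ (1 : ℝ) * 1 := by gcongr; exacts [hf.2 _, hg.2 _]
      _ = 1 := by ring
  have h1 : ∑ c ∈ range (R + 1), mainS p a L c E T S f g x +
      ∑ c ∈ range (R + 1), compS p a L c E T S f g x =
      ∑ i ∈ Ico (2 * R) (L + 1), ∑ c ∈ range (R + 1), pat E R c i *
        (f (T^[cnt E 0 (i - 2 * R) + c + 1] x) * g (S^[i] x)) := by
    rw [← Finset.sum_add_distrib, Finset.sum_comm]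
    refine Finset.sum_congr rfl fun c _ => ?_
    unfold mainS compS
    rw [← Finset.sum_add_distrib]
    refine Finset.sum_congr rfl fun i _ => ?_
    unfold et kap
    rw [← hR]
    ring
  have h2 : AS E L T S f g x = ∑ i ∈ Ico 1 (2 * R), (ind E i : ℝ) *
      (f (T^[cnt E 0 (i + 1)] x) * g (S^[i] x)) + ∑ i ∈ Ico (2 * R) (L + 1), (ind E i : ℝ) *
      (f (T^[cnt E 0 (i + 1)] x) * g (S^[i] x)) := by
    unfold AS
    rw [Finset.sum_Ico_consecutive _ (by omega) hL]
  have h3 : |∑ i ∈ Ico 1 (2 * R), (ind E i : ℝ) *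
      (f (T^[cnt E 0 (i + 1)] x) * g (S^[i] x))| ≤ 2 * R := by
    refine (Finset.abs_sum_le_sum_abs _ _).trans ?_
    calc _ ≤ ∑ i ∈ Ico 1 (2 * R), (1 : ℝ) := Finset.sum_le_sum fun i _ => by
          rw [abs_mul]
          have : |(ind E i : ℝ)| ≤ 1 := by
            rw [abs_of_nonneg (Nat.cast_nonneg _)]; exact_mod_cast ind_le_one E i
          calc _ ≤ (1 : ℝ) * 1 := by gcongr; exact hb _ _
            _ = 1 := by ring
      _ ≤ 2 * R := by
          rw [Finset.sum_const, Nat.card_Ico, nsmul_eq_mul, mul_one]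
          exact_mod_cast (by omega : 2 * R - 1 ≤ 2 * R)
  have h4 : |∑ i ∈ Ico (2 * R) (L + 1), (ind E i : ℝ) *
      (f (T^[cnt E 0 (i + 1)] x) * g (S^[i] x)) - ∑ i ∈ Ico (2 * R) (L + 1),
      ∑ c ∈ range (R + 1), pat E R c i *
        (f (T^[cnt E 0 (i - 2 * R) + c + 1] x) * g (S^[i] x))| ≤
      2 * ∑ u ∈ Ioc R (2 * R), ∑ i ∈ Ico (2 * R) (L + 1), (ind E i : ℝ) * ind E (i - u) := by
    rw [← Finset.sum_sub_distrib]
    refine (Finset.abs_sum_le_sum_abs _ _).trans ?_
    rw [Finset.sum_comm, Finset.mul_sum]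
    refine Finset.sum_le_sum fun i hi => ?_
    rw [Finset.mem_Ico] at hi
    refine (one_term E R i hi.1 (fun k => f (T^[k] x) * g (S^[i] x)) (fun k => hb k i)).trans ?_
    rw [cnt_window E R i hi.1, ← Finset.mul_sum]
    push_cast
    exact le_rfl
  rw [h1, h2]
  calc _ = |∑ i ∈ Ico 1 (2 * R), (ind E i : ℝ) * (f (T^[cnt E 0 (i + 1)] x) * g (S^[i] x)) +
        (∑ i ∈ Ico (2 * R) (L + 1), (ind E i : ℝ) *
      (f (T^[cnt E 0 (i + 1)] x) * g (S^[i] x)) - ∑ i ∈ Ico (2 * R) (L + 1),
      ∑ c ∈ range (R + 1), pat E R c i *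
        (f (T^[cnt E 0 (i - 2 * R) + c + 1] x) * g (S^[i] x)))| := by congr 1; ring
    _ ≤ _ := (abs_add_le _ _).trans (add_le_add h3 h4)

/-- summation by parts -/
lemma abel2 (s φ h : ℕ → ℝ) (C : ℝ) (hs : ∀ i, 0 ≤ s i) (hφ : ∀ i, |φ i| ≤ 1)
    (hh : ∀ i, |h i| ≤ C) (A L : ℕ) (hAL : A ≤ L) :
    |∑ i ∈ Ico A (L + 1), s i * (φ i * (h i - h (i + 1)))| ≤
      C * (s A + s L) + C * ∑ i ∈ Ico A L, (|s (i + 1) - s i| + s (i + 1) * |φ (i + 1) - φ i|) := by
  have hC : 0 ≤ C := (abs_nonneg _).trans (hh 0)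
  have key : ∑ i ∈ Ico A (L + 1), s i * (φ i * (h i - h (i + 1))) =
      s A * φ A * h A - s L * φ L * h (L + 1) +
        ∑ i ∈ Ico A L, (s (i + 1) * φ (i + 1) - s i * φ i) * h (i + 1) := by
    induction L, hAL using Nat.le_induction with
    | base => simp; ring
    | succ n hn ih =>
      rw [Finset.sum_Ico_succ_top (by omega), ih, Finset.sum_Ico_succ_top (by omega)]
      ring
  rw [key]
  have h1 : |s A * φ A * h A| ≤ C * s A := by
    rw [abs_mul, abs_mul, abs_of_nonneg (hs A)]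
    calc s A * |φ A| * |h A| ≤ s A * 1 * C := by
          gcongr
          · exact mul_nonneg (hs A) (by norm_num)
          · exact hs A
          · exact hφ A
          · exact hh A
      _ = C * s A := by ring
  have h2 : |s L * φ L * h (L + 1)| ≤ C * s L := by
    rw [abs_mul, abs_mul, abs_of_nonneg (hs L)]
    calc s L * |φ L| * |h (L + 1)| ≤ s L * 1 * C := by
          gcongr
          · exact mul_nonneg (hs L) (by norm_num)
          · exact hs L
          · exact hφ L
          · exact hh _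
      _ = C * s L := by ring
  have h3 : |∑ i ∈ Ico A L, (s (i + 1) * φ (i + 1) - s i * φ i) * h (i + 1)| ≤
      C * ∑ i ∈ Ico A L, (|s (i + 1) - s i| + s (i + 1) * |φ (i + 1) - φ i|) := by
    refine (Finset.abs_sum_le_sum_abs _ _).trans ?_
    rw [Finset.mul_sum]
    refine Finset.sum_le_sum fun i _ => ?_
    rw [abs_mul, mul_comm]
    apply mul_le_mul (hh _) _ (abs_nonneg _) hC
    have e : s (i + 1) * φ (i + 1) - s i * φ i =
        (s (i + 1) - s i) * φ i + s (i + 1) * (φ (i + 1) - φ i) := by ring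
    rw [e]
    refine (abs_add_le _ _).trans ?_
    rw [abs_mul, abs_mul, abs_of_nonneg (hs (i + 1))]
    gcongr
    calc |s (i + 1) - s i| * |φ i| ≤ |s (i + 1) - s i| * 1 := by gcongr; exact hφ i
      _ = _ := mul_one _
  calc _ ≤ |s A * φ A * h A| + |s L * φ L * h (L + 1)| + _ :=
        (abs_add_le _ _).trans (add_le_add (abs_sub _ _) h3)
    _ ≤ C * s A + C * s L + _ := by gcongr
    _ = _ := by ring

/-- bound of the compensator sums -/
lemma comp_bd (p : ℕ) (hp : 2 ≤ p) (a b : ℝ) (ha : 0 < a) (L : ℕ) (E : Set ℕ) (h0 : 0 ∉ E)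
    (hL : 2 * RR L ≤ L)
    (hv : ∑ j ∈ Ico 1 (L + 1), tau p a L j * ((ind E j : ℝ) + tau p a L j) ≤
        (L : ℝ) ^ (1 - 2 * a + 2 * b))
    {X : Type u} [MeasurableSpace X] (T S : X → X) (f g h r : X → ℝ) (C : ℝ)
    (hf : Bd f) (hh : ∀ x, |h x| ≤ C) (hgh : ∀ x, g x = h x - h (S x) + r x) (x : X) :
    |∑ c ∈ range (RR L + 1), compS p a L c E T S f g x| ≤
      C * (2 + ((RR L : ℝ) + 1) ^ 2 + 2 * (L : ℝ) ^ (1 - 2 * a + 2 * b)) +
        ∑ i ∈ Ico (2 * RR L) (L + 1), tau p a L i * |r (S^[i] x)| := by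
  have hRp := RR_pos L
  have hC : 0 ≤ C := (abs_nonneg _).trans (hh x)
  set R := RR L with hR
  set s : ℕ → ℕ → ℝ := fun c i => sgm p R (tq p a L) c i with hs
  set φ : ℕ → ℕ → ℝ := fun c i => f (T^[kap L E i + c + 1] x) with hφ
  set η : ℕ → ℝ := fun i => h (S^[i] x) with hη
  have hs0 : ∀ c i, 0 ≤ s c i := fun c i => (sgm_ctr p R (by omega) (tq p a L) c i).1
  have hsum : ∀ i, ∑ c ∈ range (R + 1), s c i = tau p a L i := fun i =>
    sum_sgm p R (by omega) (tq p a L) i (tq_le p a ha L i)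
  have hφ1 : ∀ c i, |φ c i| ≤ 1 := fun c i => hf.2 _
  have hη1 : ∀ i, |η i| ≤ C := fun i => hh _
  have hsplit : ∀ c, compS p a L c E T S f g x =
      ∑ i ∈ Ico (2 * R) (L + 1), s c i * (φ c i * (η i - η (i + 1))) +
        ∑ i ∈ Ico (2 * R) (L + 1), s c i * (φ c i * r (S^[i] x)) := by
    intro c
    unfold compS
    rw [← Finset.sum_add_distrib]
    refine Finset.sum_congr rfl fun i _ => ?_
    simp only [hs, hφ, hη]
    rw [hgh (S^[i] x), Function.iterate_succ_apply' S i x]
    ring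
  have h1 : |∑ c ∈ range (R + 1), ∑ i ∈ Ico (2 * R) (L + 1), s c i * (φ c i * (η i - η (i + 1)))| ≤
      C * (2 + ((R : ℝ) + 1) ^ 2 + 2 * (L : ℝ) ^ (1 - 2 * a + 2 * b)) := by
    refine (Finset.abs_sum_le_sum_abs _ _).trans ?_
    refine (Finset.sum_le_sum fun c _ => abel2 (s c) (φ c) η C (hs0 c) (hφ1 c) hη1 (2 * R) L
      hL).trans ?_
    rw [Finset.sum_add_distrib, ← Finset.mul_sum, ← Finset.mul_sum, ← mul_add]
    apply mul_le_mul_of_nonneg_left _ hC
    have e1 : ∑ c ∈ range (R + 1), (s c (2 * R) + s c L) ≤ 2 := by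
      rw [Finset.sum_add_distrib, hsum, hsum]
      have := tau_le_one p hp a ha L (2 * R)
      have := tau_le_one p hp a ha L L
      linarith
    have e2 : ∑ c ∈ range (R + 1), ∑ i ∈ Ico (2 * R) L, |s c (i + 1) - s c i| ≤
        ((R : ℝ) + 1) ^ 2 := by
      calc _ ≤ ∑ c ∈ range (R + 1), ((R : ℝ) + 1) := Finset.sum_le_sum fun c _ =>
            tv p R (by omega) hRp (tq p a L) c L (fun j hj => tq_mono p a ha L j hj)
              (tq_le p a ha L)
        _ = _ := by
            rw [Finset.sum_const, Finset.card_range, nsmul_eq_mul]; push_cast; ring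
    have e3 : ∑ c ∈ range (R + 1), ∑ i ∈ Ico (2 * R) L, s c (i + 1) * |φ c (i + 1) - φ c i| ≤
        2 * (L : ℝ) ^ (1 - 2 * a + 2 * b) := by
      have e4 : ∀ c, ∀ i ∈ Ico (2 * R) L, s c (i + 1) * |φ c (i + 1) - φ c i| ≤
          s c (i + 1) * (2 * (ind E (i - 2 * R) : ℝ)) := by
        intro c i hi
        rw [Finset.mem_Ico] at hi
        apply mul_le_mul_of_nonneg_left _ (hs0 c (i + 1))
        have e5 : kap L E (i + 1) = kap L E i + ind E (i - 2 * R) := by
          unfold kap cnt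
          rw [← hR, show i + 1 - 2 * R = (i - 2 * R) + 1 by omega,
            Finset.sum_Ico_succ_top (by omega)]
        by_cases hm : i - 2 * R ∈ E
        · have e6 : ind E (i - 2 * R) = 1 := by unfold ind; rw [if_pos hm]
          rw [e6]
          calc _ ≤ |φ c (i + 1)| + |φ c i| := abs_sub _ _
            _ ≤ 1 + 1 := add_le_add (hφ1 _ _) (hφ1 _ _)
            _ = _ := by norm_num
        · have e6 : ind E (i - 2 * R) = 0 := by unfold ind; rw [if_neg hm]
          simp only [hφ]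
          rw [e5, e6]; simp
      calc _ ≤ ∑ c ∈ range (R + 1), ∑ i ∈ Ico (2 * R) L, s c (i + 1) *
            (2 * (ind E (i - 2 * R) : ℝ)) :=
            Finset.sum_le_sum fun c _ => Finset.sum_le_sum (e4 c)
        _ = 2 * ∑ i ∈ Ico (2 * R) L, tau p a L (i + 1) * (ind E (i - 2 * R) : ℝ) := by
            rw [Finset.sum_comm, Finset.mul_sum]
            refine Finset.sum_congr rfl fun i _ => ?_
            rw [← Finset.sum_mul, hsum]; ring
        _ ≤ 2 * ∑ i ∈ Ico (2 * R) (L + 1), tau p a L (i - 2 * R) *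
              ((ind E (i - 2 * R) : ℝ) + tau p a L (i - 2 * R)) := by
            gcongr
            have e7 : ∀ i, 0 ≤ tau p a L (i - 2 * R) *
              ((ind E (i - 2 * R) : ℝ) + tau p a L (i - 2 * R)) := by
              intro i
              have := tau_nonneg p a L (i - 2 * R)
              positivity
            calc _ ≤ ∑ i ∈ Ico (2 * R) L, tau p a L (i - 2 * R) *
                  ((ind E (i - 2 * R) : ℝ) + tau p a L (i - 2 * R)) := by
                  refine Finset.sum_le_sum fun i hi => ?_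
                  rw [Finset.mem_Ico] at hi
                  have t1 := tau_nonneg p a L (i - 2 * R)
                  by_cases hz : i - 2 * R = 0
                  · have e8 : ind E (i - 2 * R) = 0 := by
                      unfold ind; rw [hz, if_neg h0]
                    rw [e8, Nat.cast_zero, mul_zero, zero_add]
                    positivity
                  · have t2 := tau_anti p a ha L (i - 2 * R) (i + 1) (by omega) (by omega)
                    have t3 : (0 : ℝ) ≤ ind E (i - 2 * R) := Nat.cast_nonneg _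
                    nlinarith [mul_le_mul_of_nonneg_right t2 t3]
              _ ≤ _ := by
                  apply Finset.sum_le_sum_of_subset_of_nonneg
                  · intro i hi; rw [Finset.mem_Ico] at *; omega
                  · intro i _ _; exact e7 i
        _ ≤ 2 * (L : ℝ) ^ (1 - 2 * a + 2 * b) := by
            gcongr
            refine le_trans ?_ hv
            apply shift_sum (fun j => tau p a L j * ((ind E j : ℝ) + tau p a L j)) _ _ (2 * R)
              (2 * R) L le_rfl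
            · intro i
              have := tau_nonneg p a L i
              positivity
            · simp [tau_zero p a ha]
    rw [show ∑ c ∈ range (R + 1), ∑ i ∈ Ico (2 * R) L, (|s c (i + 1) - s c i| +
        s c (i + 1) * |φ c (i + 1) - φ c i|) =
        ∑ c ∈ range (R + 1), ∑ i ∈ Ico (2 * R) L, |s c (i + 1) - s c i| +
        ∑ c ∈ range (R + 1), ∑ i ∈ Ico (2 * R) L, s c (i + 1) * |φ c (i + 1) - φ c i| by
      rw [← Finset.sum_add_distrib]
      exact Finset.sum_congr rfl fun c _ => Finset.sum_add_distrib]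
    linarith
  have h2 : |∑ c ∈ range (R + 1), ∑ i ∈ Ico (2 * R) (L + 1), s c i * (φ c i * r (S^[i] x))| ≤
      ∑ i ∈ Ico (2 * R) (L + 1), tau p a L i * |r (S^[i] x)| := by
    rw [Finset.sum_comm]
    refine (Finset.abs_sum_le_sum_abs _ _).trans (Finset.sum_le_sum fun i _ => ?_)
    refine (Finset.abs_sum_le_sum_abs _ _).trans ?_
    rw [← hsum, Finset.sum_mul]
    refine Finset.sum_le_sum fun c _ => ?_
    rw [abs_mul, abs_mul, abs_of_nonneg (hs0 c i)]
    calc s c i * (|φ c i| * |r (S^[i] x)|) ≤ s c i * (1 * |r (S^[i] x)|) := by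
          gcongr
          · exact hs0 c i
          · exact hφ1 c i
      _ = _ := by ring
  rw [Finset.sum_congr rfl fun c _ => hsplit c, Finset.sum_add_distrib]
  exact (abs_add_le _ _).trans (add_le_add h1 h2)

end Pool.Agent.H238.SR
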