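import Pool.Agent.H238.SR.Er1
import Pool.Graph.R_seed8.H505RS.BC
import Pool.Graph.R_seed8.H505RS.BPE
import Pool.Graph.R_seed8.H505RS.WM
import Pool.Graph.R_seed8.H505RS.DEC

/-! Almost everywhere convergence of the ergodic sums along lacunary sequences. -/

set_option autoImplicit false

noncomputable section

namespace Pool.Agent.H238.SR

open MeasureTheory Finset Filter Topology
open Pool.Agent.H505RS (pw ee Sy Bd)

universe u

theorem comp_ae (p : ℕ) (hp : 2 ≤ p) (a b : ℝ) (ha : 0 < a) (ha1 : a < 1 / 2) (hb : 0 < b)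
    (hb2 : 20 * b ≤ a) (E : Set ℕ) (hE : GoodE p a b E) (X : Type u) [MeasurableSpace X]
    (μ : Measure X) (T S : X → X) (f g : X → ℝ) (hsy : Sy μ T S) (hf : Bd f) (hg : Bd g)
    (hg0 : ∀ᵐ x ∂μ, (μ[g | MeasurableSpace.invariants S]) x = 0) :
    ∀ᵐ x ∂μ, Tendsto (fun L : ℕ => (∑ c ∈ range (RR L + 1), compS p a L c E T S f g x) /
      (L : ℝ) ^ (1 - a)) atTop (𝓝 0) := by
  have hμ := hsy.prob
  have hDEC := Pool.Agent.H505RS.t_DEC.{u} Pool.Agent.H505RS.t_BPE.{u}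
  choose h r hh hr hC hfe hri using fun n : ℕ =>
    hDEC X μ S g hμ hsy.mS hg hg0 ((1 / 4 : ℝ) ^ n) (by positivity)
  choose C hC using hC
  let l : ℕ → X → ℝ := fun n => μ[fun x => |r n x| | MeasurableSpace.invariants S]
  have hint : ∀ n, Integrable (fun x => |r n x|) μ := fun n => by
    refine Integrable.of_bound (C := 1) ?_ ?_
    · exact ((hr n).1.norm).aestronglyMeasurable
    · exact ae_of_all _ fun x => by rw [Real.norm_eq_abs, abs_abs]; exact (hr n).2 x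
  have hA : ∀ᵐ x ∂μ, ∀ n, Tendsto (fun L : ℕ =>
      (∑ i ∈ Ioc 0 L, pw a i * |r n (S^[i] x)|) / (∑ i ∈ Ioc 0 L, pw a i)) atTop
      (𝓝 (l n x)) := by
    rw [ae_all_iff]
    intro n
    have hb := Pool.Agent.H505RS.t_BPE.{u} X μ S (fun x => |r n x|) hμ hsy.mS (hr n).1.norm
      ⟨1, fun x => by rw [abs_abs]; exact (hr n).2 x⟩
    filter_upwards [hb] with x hx
    exact Pool.Agent.H505RS.t_WM a (fun i => |r n (S^[i] x)|) 1 (l n x) ha (by linarith)
      (fun k => by rw [abs_abs]; exact (hr n).2 _) hx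
  have hl0 : ∀ n, 0 ≤ᵐ[μ] l n := fun n =>
    condExp_nonneg (ae_of_all _ fun x => abs_nonneg _)
  have hlint : ∀ n, ∫ x, l n x ∂μ ≤ (1 / 4 : ℝ) ^ n := fun n => by
    have h1 : ∫ x, l n x ∂μ = ∫ x, |r n x| ∂μ := integral_condExp (MeasurableSpace.invariants_le S)
    rw [h1]
    exact hri n
  have hB : ∀ᵐ x ∂μ, ∀ j : ℕ, ∃ n, l n x < 1 / ((j : ℝ) + 1) := by
    rw [ae_all_iff]
    intro j
    rw [ae_iff]
    set δ : ℝ := 1 / ((j : ℝ) + 1) with hδ
    have hδ0 : 0 < δ := by positivity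
    have h1 : ∀ n : ℕ, μ.real {x | ¬ ∃ n, l n x < δ} ≤ (1 / 4 : ℝ) ^ n / δ := by
      intro n
      have h2 := mul_meas_ge_le_integral_of_nonneg (hl0 n) integrable_condExp δ
      have h3 : μ.real {x | ¬ ∃ n, l n x < δ} ≤ μ.real {x | δ ≤ l n x} := by
        refine measureReal_mono ?_ (measure_ne_top μ _)
        intro x hx
        have hx' : ¬ ∃ n, l n x < δ := hx
        push Not at hx'
        exact hx' n
      rw [le_div_iff₀ hδ0]
      have h4 := hlint n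
      nlinarith
    have h5 : Tendsto (fun n : ℕ => (1 / 4 : ℝ) ^ n / δ) atTop (𝓝 0) := by
      have := (tendsto_pow_atTop_nhds_zero_of_lt_one (by norm_num : (0 : ℝ) ≤ 1 / 4)
        (by norm_num)).div_const δ
      rwa [zero_div] at this
    have h6 : μ.real {x | ¬ ∃ n, l n x < δ} ≤ 0 := ge_of_tendsto' h5 h1
    have h7 : μ.real {x | ¬ ∃ n, l n x < δ} = 0 := le_antisymm h6 measureReal_nonneg
    exact (measureReal_eq_zero_iff).1 h7
  filter_upwards [hA, hB] with x hAx hBx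
  rw [Metric.tendsto_atTop]
  intro ε hε
  obtain ⟨j, hj⟩ := exists_nat_one_div_lt (show 0 < ε / 16 by linarith)
  obtain ⟨n, hn⟩ := hBx j
  have hln : l n x < ε / 16 := by linarith
  have hWM := (hAx n).eventually_lt_const hln
  have hev : ∀ᶠ L : ℕ in atTop, |∑ c ∈ range (RR L + 1), compS p a L c E T S f g x| ≤
      ε / 2 * (L : ℝ) ^ (1 - a) := by
    have hCn : 0 ≤ C n := (abs_nonneg _).trans (hC n x)
    filter_upwards [hWM, hE.2, var_ev p hp a b ha ha1 hb, eventually_ge_atTop 1, ev_R 2 b hb,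
      ev_R 2 1 one_pos, ev_le (5 * C n * (8 / ε)) (1 - 2 * a + 2 * b) (1 - a) (by linarith),
      ev_const (8 / ε) (1 - a) (by linarith)] with L h1 h2 h3 h4 h5 h6 h7 h8
    have hL1 : (1 : ℝ) ≤ L := by exact_mod_cast h4
    rw [Real.rpow_one] at h6
    have hRL : 2 * RR L ≤ L := by exact_mod_cast h6
    have hRp : (1 : ℝ) ≤ RR L := by exact_mod_cast RR_pos L
    refine (comp_bd p hp a b ha L E hE.1 hRL (h3 E hE.1 h2.1) T S f g (h n) (r n) (C n) hf
      (hC n) (hfe n) x).trans ?_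
    have e1 : 2 + ((RR L : ℝ) + 1) ^ 2 + 2 * (L : ℝ) ^ (1 - 2 * a + 2 * b) ≤
        5 * (L : ℝ) ^ (1 - 2 * a + 2 * b) := by
      have e2 : ((RR L : ℝ) + 1) ^ 2 ≤ (L : ℝ) ^ (1 - 2 * a + 2 * b) := by
        calc ((RR L : ℝ) + 1) ^ 2 ≤ (2 * (RR L : ℝ)) ^ 2 := by gcongr; linarith
          _ ≤ ((L : ℝ) ^ b) ^ 2 := by gcongr
          _ = (L : ℝ) ^ (2 * b) := Lsq L b
          _ ≤ _ := Real.rpow_le_rpow_of_exponent_le hL1 (by linarith)
      have e3 : 1 ≤ (L : ℝ) ^ (1 - 2 * a + 2 * b) := Real.one_le_rpow hL1 (by linarith)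
      linarith
    have e4 : C n * (2 + ((RR L : ℝ) + 1) ^ 2 + 2 * (L : ℝ) ^ (1 - 2 * a + 2 * b)) ≤
        ε / 8 * (L : ℝ) ^ (1 - a) := by
      calc _ ≤ C n * (5 * (L : ℝ) ^ (1 - 2 * a + 2 * b)) := by gcongr
        _ = ε / 8 * (5 * C n * (8 / ε) * (L : ℝ) ^ (1 - 2 * a + 2 * b)) := by field_simp
        _ ≤ _ := by gcongr
    have e5 : 1 ≤ ε / 8 * (L : ℝ) ^ (1 - a) := by
      rw [div_le_iff₀ hε] at h8
      linarith
    have hpw : ∑ i ∈ Ioc 0 L, pw a i ≤ 2 * (L : ℝ) ^ (1 - a) := by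
      have := Pool.Agent.H505RS.SUM.upper a ha (by linarith) L
      have e6 : (L : ℝ) ^ (1 - a) / (1 - a) ≤ 2 * (L : ℝ) ^ (1 - a) := by
        rw [div_le_iff₀ (by linarith)]
        have : 0 ≤ (L : ℝ) ^ (1 - a) := by positivity
        nlinarith
      exact this.trans e6
    have hpw0 : 0 ≤ ∑ i ∈ Ioc 0 L, pw a i := Finset.sum_nonneg fun i _ => pw_nonneg a i
    have hpwpos : 0 < ∑ i ∈ Ioc 0 L, pw a i := by
      refine lt_of_lt_of_le ?_ (Finset.single_le_sum (f := fun i => pw a i)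
        (fun i _ => pw_nonneg a i) (Finset.mem_Ioc.2 ⟨Nat.zero_lt_one, h4⟩))
      unfold pw; simp
    have e7 : ∑ i ∈ Ioc 0 L, pw a i * |r n (S^[i] x)| ≤ ε / 8 * (L : ℝ) ^ (1 - a) := by
      rw [div_lt_iff₀ hpwpos] at h1
      refine h1.le.trans ?_
      calc ε / 16 * ∑ i ∈ Ioc 0 L, pw a i ≤ ε / 16 * (2 * (L : ℝ) ^ (1 - a)) := by gcongr
        _ = _ := by ring
    have e8 : ∑ i ∈ Ico (2 * RR L) (L + 1), tau p a L i * |r n (S^[i] x)| ≤
        ∑ i ∈ Ioc 0 L, pw a i * |r n (S^[i] x)| + 1 := by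
      have e9 : ∀ i, tau p a L i * |r n (S^[i] x)| ≤
          pw a i * |r n (S^[i] x)| + 1 / (L : ℝ) ^ 4 := by
        intro i
        have := tau_le p hp a L i h4
        have e10 := (hr n).2 (S^[i] x)
        have e11 := abs_nonneg (r n (S^[i] x))
        have e12 : (0 : ℝ) ≤ 1 / (L : ℝ) ^ 4 := by positivity
        nlinarith
      calc _ ≤ ∑ i ∈ Ioc 0 L, tau p a L i * |r n (S^[i] x)| := by
            apply Finset.sum_le_sum_of_subset_of_nonneg
            · intro i hi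
              have := RR_pos L
              rw [Finset.mem_Ico] at hi; rw [Finset.mem_Ioc]; omega
            · intro i _ _
              exact mul_nonneg (tau_nonneg _ _ _ _) (abs_nonneg _)
        _ ≤ ∑ i ∈ Ioc 0 L, (pw a i * |r n (S^[i] x)| + 1 / (L : ℝ) ^ 4) :=
            Finset.sum_le_sum fun i _ => e9 i
        _ = ∑ i ∈ Ioc 0 L, pw a i * |r n (S^[i] x)| + L * (1 / (L : ℝ) ^ 4) := by
            rw [Finset.sum_add_distrib, Finset.sum_const, Nat.card_Ioc, nsmul_eq_mul, Nat.sub_zero]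
        _ ≤ _ := by
            gcongr
            rw [mul_one_div, div_le_one (by positivity)]
            calc (L : ℝ) = (L : ℝ) ^ 1 := (pow_one _).symm
              _ ≤ (L : ℝ) ^ 4 := pow_le_pow_right₀ hL1 (by norm_num)
    linarith
  obtain ⟨L0, hL0⟩ := eventually_atTop.1 hev
  refine ⟨max L0 1, fun L hL => ?_⟩
  have h1 := hL0 L ((le_max_left _ _).trans hL)
  have hL1 : (0 : ℝ) < L := by
    exact_mod_cast lt_of_lt_of_le Nat.zero_lt_one ((le_max_right _ _).trans hL)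
  have hpos : (0 : ℝ) < (L : ℝ) ^ (1 - a) := by positivity
  rw [Real.dist_eq, sub_zero, abs_div, abs_of_pos hpos, div_lt_iff₀ hpos]
  have : ε / 2 * (L : ℝ) ^ (1 - a) < ε * (L : ℝ) ^ (1 - a) := by
    apply mul_lt_mul_of_pos_right _ hpos
    linarith
  linarith

theorem main_ae (p : ℕ) (hp : 2 ≤ p) (a b : ℝ) (ha : 0 < a) (ha1 : a < 1 / 2) (hb : 0 < b)
    (hb1 : 20 * b ≤ 1 / 2 - a) (E : Set ℕ) (hE : GoodE p a b E) (X : Type u) [MeasurableSpace X]
    (μ : Measure X) (T S : X → X) (f g : X → ℝ) (hsy : Sy μ T S) (hf : Bd f) (hg : Bd g)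
    (ρ : ℝ) (hρ : 1 < ρ) :
    ∀ᵐ x ∂μ, Tendsto (fun j : ℕ => (∑ c ∈ range (RR ⌈ρ ^ j⌉₊ + 1),
      mainS p a ⌈ρ ^ j⌉₊ c E T S f g x) / (⌈ρ ^ j⌉₊ : ℝ) ^ (1 - a)) atTop (𝓝 0) := by
  have hμ := hsy.prob
  have hTm : ∀ n : ℕ, Measurable (T^[n]) := fun n => (hsy.mT.iterate n).measurable
  have hSm : ∀ n : ℕ, Measurable (S^[n]) := fun n => (hsy.mS.iterate n).measurable
  set F : ℕ → X → ℝ := fun L x => (L : ℝ) ^ a * ∑ c ∈ range (RR L + 1),
    mainS p a L c E T S f g x with hF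
  have hmm : ∀ L c, Measurable (fun x => mainS p a L c E T S f g x) := fun L c => by
    unfold mainS
    exact Finset.measurable_sum _ fun i _ => measurable_const.mul
      ((hf.1.comp (hTm _)).mul (hg.1.comp (hSm _)))
  have hmb : ∀ L c x, |mainS p a L c E T S f g x| ≤ (L : ℝ) + 1 := fun L c x => by
    unfold mainS
    refine (Finset.abs_sum_le_sum_abs _ _).trans ?_
    calc _ ≤ ∑ i ∈ Ico (2 * RR L) (L + 1), (1 : ℝ) := Finset.sum_le_sum fun i _ => by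
          rw [abs_mul, abs_mul]
          calc _ ≤ (1 : ℝ) * (1 * 1) := by
                gcongr
                exacts [et_abs_le_one p hp a L c E i, hf.2 _, hg.2 _]
            _ = 1 := by ring
      _ ≤ (L : ℝ) + 1 := by
          rw [Finset.sum_const, Nat.card_Ico, nsmul_eq_mul, mul_one]
          exact_mod_cast Nat.sub_le _ _
  have hFm : ∀ L, Measurable (F L) := fun L =>
    measurable_const.mul (Finset.measurable_sum _ fun c _ => hmm L c)
  have hsb : ∀ L x, |∑ c ∈ range (RR L + 1), mainS p a L c E T S f g x| ≤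
      ((RR L : ℝ) + 1) * ((L : ℝ) + 1) := fun L x => by
    refine (Finset.abs_sum_le_sum_abs _ _).trans ?_
    calc _ ≤ ∑ c ∈ range (RR L + 1), ((L : ℝ) + 1) := Finset.sum_le_sum fun c _ => hmb L c x
      _ = _ := by rw [Finset.sum_const, Finset.card_range, nsmul_eq_mul]; push_cast; ring
  have hFb : ∀ L, ∃ K, ∀ x, |F L x| ≤ K := fun L =>
    ⟨(L : ℝ) ^ a * (((RR L : ℝ) + 1) * ((L : ℝ) + 1)), fun x => by
      simp only [hF]
      rw [abs_mul, abs_of_nonneg (by positivity)]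
      gcongr
      exact hsb L x⟩
  have hmom : ∀ᶠ L : ℕ in atTop, ∫ x, F L x ^ 2 ∂μ ≤ (L : ℝ) ^ (2 - b) := by
    filter_upwards [main_moment.{u} p hp a b ha ha1 hb hb1 E hE, eventually_ge_atTop 1,
      ev_R 100 (b / 2) (by linarith)] with L h1 h2 h3
    have hL0 : (0 : ℝ) < L := by exact_mod_cast h2
    have hRp : (1 : ℝ) ≤ RR L := by exact_mod_cast RR_pos L
    have hi : ∀ c, Integrable (fun x => mainS p a L c E T S f g x ^ 2) μ := fun c =>
      Integrable.of_bound ((hmm L c).pow_const 2).aestronglyMeasurable (((L : ℝ) + 1) ^ 2)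
        (ae_of_all _ fun x => by
          rw [norm_pow, Real.norm_eq_abs]
          have := hmb L c x
          gcongr)
    have e1 : ∫ x, F L x ^ 2 ∂μ ≤ ((L : ℝ) ^ a) ^ 2 * (((RR L : ℝ) + 1) *
        ∑ c ∈ range (RR L + 1), ∫ x, mainS p a L c E T S f g x ^ 2 ∂μ) := by
      have e2 : ∀ x, F L x ^ 2 ≤ ((L : ℝ) ^ a) ^ 2 * (((RR L : ℝ) + 1) *
          ∑ c ∈ range (RR L + 1), mainS p a L c E T S f g x ^ 2) := by
        intro x
        simp only [hF]
        rw [mul_pow]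
        gcongr
        have := sq_sum_le_card_mul_sum_sq (s := range (RR L + 1))
          (f := fun c => mainS p a L c E T S f g x)
        rw [Finset.card_range] at this
        push_cast at this
        exact this
      calc ∫ x, F L x ^ 2 ∂μ ≤ ∫ x, ((L : ℝ) ^ a) ^ 2 * (((RR L : ℝ) + 1) *
          ∑ c ∈ range (RR L + 1), mainS p a L c E T S f g x ^ 2) ∂μ := by
            apply integral_mono_of_nonneg (Eventually.of_forall fun x => sq_nonneg _) _
              (Eventually.of_forall e2)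
            exact ((integrable_finsetSum _ fun c _ => hi c).const_mul _).const_mul _
        _ = _ := by
            rw [integral_const_mul, integral_const_mul, integral_finsetSum _ fun c _ => hi c]
    refine e1.trans ?_
    have e3 : ∑ c ∈ range (RR L + 1), ∫ x, mainS p a L c E T S f g x ^ 2 ∂μ ≤
        ((RR L : ℝ) + 1) * (2100 * (L : ℝ) ^ (2 - 2 * a - 2 * b)) := by
      calc _ ≤ ∑ c ∈ range (RR L + 1), 2100 * (L : ℝ) ^ (2 - 2 * a - 2 * b) :=
            Finset.sum_le_sum fun c hc => h1 c (by rw [Finset.mem_range] at hc; omega) X μ T S f g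
              hsy hf hg
        _ = _ := by rw [Finset.sum_const, Finset.card_range, nsmul_eq_mul]; push_cast; ring
    have e4 : ((RR L : ℝ) + 1) ^ 2 * 2100 ≤ (L : ℝ) ^ b := by
      calc ((RR L : ℝ) + 1) ^ 2 * 2100 ≤ (2 * (RR L : ℝ)) ^ 2 * 2500 := by gcongr; linarith; norm_num
        _ = (100 * (RR L : ℝ)) ^ 2 := by ring
        _ ≤ ((L : ℝ) ^ (b / 2)) ^ 2 := by gcongr
        _ = (L : ℝ) ^ b := by rw [Lsq]; congr 1; ring
    calc _ ≤ ((L : ℝ) ^ a) ^ 2 * (((RR L : ℝ) + 1) *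
          (((RR L : ℝ) + 1) * (2100 * (L : ℝ) ^ (2 - 2 * a - 2 * b)))) := by gcongr
      _ = (((RR L : ℝ) + 1) ^ 2 * 2100) * (((L : ℝ) ^ a) ^ 2 * (L : ℝ) ^ (2 - 2 * a - 2 * b)) := by
          ring
      _ = (((RR L : ℝ) + 1) ^ 2 * 2100) * (L : ℝ) ^ (2 - 2 * b) := by
          rw [Lsq, ← Real.rpow_add hL0]; congr 2; ring
      _ ≤ (L : ℝ) ^ b * (L : ℝ) ^ (2 - 2 * b) := by gcongr
      _ = _ := by rw [← Real.rpow_add hL0]; congr 1; ring
  have hBC := Pool.Agent.H505RS.t_BC.{u} X μ F b hμ hb hFm hFb hmom ρ hρ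
  filter_upwards [hBC] with x hx
  refine hx.congr fun j => ?_
  have hpos : (0 : ℝ) < (⌈ρ ^ j⌉₊ : ℝ) := by
    have : 0 < ⌈ρ ^ j⌉₊ := Nat.ceil_pos.2 (by positivity)
    exact_mod_cast this
  simp only [hF]
  rw [Real.rpow_sub hpos, Real.rpow_one]
  have : (0 : ℝ) < (⌈ρ ^ j⌉₊ : ℝ) ^ a := by positivity
  field_simp

theorem AS_ae (p : ℕ) (hp : 2 ≤ p) (a b : ℝ) (ha : 0 < a) (ha1 : a < 1 / 2) (hb : 0 < b)
    (hb1 : 20 * b ≤ 1 / 2 - a) (hb2 : 20 * b ≤ a) (E : Set ℕ) (hE : GoodE p a b E)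
    (X : Type u) [MeasurableSpace X]
    (μ : Measure X) (T S : X → X) (f g : X → ℝ) (hsy : Sy μ T S) (hf : Bd f) (hg : Bd g)
    (hg0 : ∀ᵐ x ∂μ, (μ[g | MeasurableSpace.invariants S]) x = 0) :
    ∀ᵐ x ∂μ, ∀ n : ℕ, Tendsto (fun j : ℕ => AS E ⌈(1 + 1 / ((n : ℝ) + 1)) ^ j⌉₊ T S f g x /
      (⌈(1 + 1 / ((n : ℝ) + 1)) ^ j⌉₊ : ℝ) ^ (1 - a)) atTop (𝓝 0) := by
  have hrho : ∀ n : ℕ, (1 : ℝ) < 1 + 1 / ((n : ℝ) + 1) := fun n => by
    have : 0 < 1 / ((n : ℝ) + 1) := by positivity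
    linarith
  have h1 : ∀ᵐ x ∂μ, ∀ n : ℕ, Tendsto (fun j : ℕ => (∑ c ∈
      range (RR ⌈(1 + 1 / ((n : ℝ) + 1)) ^ j⌉₊ + 1),
      mainS p a ⌈(1 + 1 / ((n : ℝ) + 1)) ^ j⌉₊ c E T S f g x) /
      (⌈(1 + 1 / ((n : ℝ) + 1)) ^ j⌉₊ : ℝ) ^ (1 - a)) atTop (𝓝 0) := by
    rw [ae_all_iff]
    intro n
    exact main_ae p hp a b ha ha1 hb hb1 E hE X μ T S f g hsy hf hg _ (hrho n)
  have h2 := comp_ae p hp a b ha ha1 hb hb2 E hE X μ T S f g hsy hf hg hg0
  filter_upwards [h1, h2] with x hx1 hx2 n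
  -- the error
  have herr : Tendsto (fun L : ℕ => (AS E L T S f g x - (∑ c ∈ range (RR L + 1),
      mainS p a L c E T S f g x + ∑ c ∈ range (RR L + 1), compS p a L c E T S f g x)) /
      (L : ℝ) ^ (1 - a)) atTop (𝓝 0) := by
    have hlim : Tendsto (fun L : ℕ => (L : ℝ) ^ (-b)) atTop (𝓝 0) :=
      (tendsto_rpow_neg_atTop hb).comp tendsto_natCast_atTop_atTop
    refine squeeze_zero_norm' ?_ hlim
    filter_upwards [hE.2, eventually_ge_atTop 1, ev_R 2 b hb, ev_R 2 1 one_pos,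
      ev_le 2 (1 - 2 * a + 4 * b) (1 - a - b) (by linarith)] with L h3 h4 h5 h6 h7
    have hL1 : (1 : ℝ) ≤ L := by exact_mod_cast h4
    have hL0 : (0 : ℝ) < L := lt_of_lt_of_le one_pos hL1
    rw [Real.rpow_one] at h6
    have hRL : 2 * RR L ≤ L := by exact_mod_cast h6
    have hpos : (0 : ℝ) < (L : ℝ) ^ (1 - a) := by positivity
    have e1 := dec p a L E (by omega) T S f g hf hg x
    have e2 : ∑ u ∈ Ioc (RR L) (2 * RR L), ∑ i ∈ Ico (2 * RR L) (L + 1),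
        (ind E i : ℝ) * ind E (i - u) ≤ RR L * (L : ℝ) ^ (1 - 2 * a + 3 * b) := by
      calc _ ≤ ∑ u ∈ Ioc (RR L) (2 * RR L), (L : ℝ) ^ (1 - 2 * a + 3 * b) :=
            Finset.sum_le_sum fun u hu => by
              rw [Finset.mem_Ioc] at hu
              exact h3.2.1 u hu.1 hu.2
        _ = _ := by
            rw [Finset.sum_const, Nat.card_Ioc, nsmul_eq_mul]
            congr 2; omega
    rw [Real.norm_eq_abs, abs_div, abs_of_pos hpos, div_le_iff₀ hpos, ← Real.rpow_add hL0]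
    rw [show -b + (1 - a) = 1 - a - b by ring]
    refine (e1.trans ?_).trans h7
    have e3 : (L : ℝ) ^ b * (L : ℝ) ^ (1 - 2 * a + 3 * b) = (L : ℝ) ^ (1 - 2 * a + 4 * b) := by
      rw [← Real.rpow_add hL0]; congr 1; ring
    have e4 : (L : ℝ) ^ b ≤ (L : ℝ) ^ (1 - 2 * a + 4 * b) :=
      Real.rpow_le_rpow_of_exponent_le hL1 (by linarith)
    calc 2 * (RR L : ℝ) + 2 * _ ≤ (L : ℝ) ^ b + 2 * (RR L * (L : ℝ) ^ (1 - 2 * a + 3 * b)) := by
          gcongr
      _ = (L : ℝ) ^ b + (2 * RR L) * (L : ℝ) ^ (1 - 2 * a + 3 * b) := by ring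
      _ ≤ (L : ℝ) ^ b + (L : ℝ) ^ b * (L : ℝ) ^ (1 - 2 * a + 3 * b) := by gcongr
      _ ≤ 2 * (L : ℝ) ^ (1 - 2 * a + 4 * b) := by rw [e3]; linarith
  have hN : Tendsto (fun j : ℕ => ⌈(1 + 1 / ((n : ℝ) + 1)) ^ j⌉₊) atTop atTop :=
    tendsto_nat_ceil_atTop.comp (tendsto_pow_atTop_atTop_of_one_lt (hrho n))
  have h3 := ((hx1 n).add (hx2.comp hN)).add (herr.comp hN)
  simp only [add_zero] at h3
  refine h3.congr fun j => ?_
  simp only [Function.comp]
  rw [← add_div, ← add_div]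
  congr 1
  ring

end Pool.Agent.H238.SR
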