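import Pool.Agent.H238.SR.Er2

/-! From sums over the integers to sums along the enumeration. -/

set_option autoImplicit false

noncomputable section

namespace Pool.Agent.H238.SR

open MeasureTheory Finset Filter Topology
open Pool.Agent.H505RS (pw ee Sy Bd en)

universe u

lemma blk (M : ℕ → ℕ) (hM : Tendsto M atTop atTop) (J N : ℕ) (h : M J ≤ N) :
    ∃ j, J ≤ j ∧ M j ≤ N ∧ N < M (j + 1) := by
  by_contra hcon
  push Not at hcon
  have h1 : ∀ j, J ≤ j → M j ≤ N := by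
    intro j hj
    induction j, hj using Nat.le_induction with
    | base => exact h
    | succ n hn ih => exact hcon n hn ih
  obtain ⟨j, hj1, hj2⟩ := ((hM.eventually_gt_atTop N).and (eventually_ge_atTop J)).exists
  exact absurd (h1 j hj2) (by omega)

lemma interp (z : ℕ → ℝ) (C : ℝ) (hz : ∀ k, |z k| ≤ C) (M : ℕ → ℕ → ℕ) (q : ℕ → ℝ)
    (hq : Tendsto q atTop (𝓝 1)) (hMt : ∀ n, Tendsto (M n) atTop atTop)
    (hr : ∀ n, Tendsto (fun j => (M n (j + 1) : ℝ) / M n j) atTop (𝓝 (q n)))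
    (h : ∀ n, Tendsto (fun j => (∑ k ∈ Ioc 0 (M n j), z k) / (M n j : ℝ)) atTop (𝓝 0)) :
    Tendsto (fun N : ℕ => (∑ k ∈ Ioc 0 N, z k) / (N : ℝ)) atTop (𝓝 0) := by
  have hC : 0 ≤ C := (abs_nonneg _).trans (hz 0)
  rw [Metric.tendsto_atTop]
  intro ε hε
  have hδ : 0 < ε / (2 * (C + 1)) := by positivity
  obtain ⟨n, hn⟩ := (hq.eventually_lt_const (show (1 : ℝ) < 1 + ε / (2 * (C + 1)) by
    linarith)).exists
  have e1 := (hr n).eventually_lt_const hn
  have e2 := (Metric.tendsto_atTop.1 (h n)) (ε / 2) (by linarith)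
  obtain ⟨J1, hJ1⟩ := e2
  obtain ⟨J, hJ⟩ := eventually_atTop.1 (e1.and ((hMt n).eventually_gt_atTop 0))
  refine ⟨M n (max J J1), fun N hN => ?_⟩
  obtain ⟨j, hj, hj1, hj2⟩ := blk (M n) (hMt n) _ N hN
  obtain ⟨f1, f2⟩ := hJ j ((le_max_left _ _).trans hj)
  have f3 := hJ1 j ((le_max_right _ _).trans hj)
  rw [Real.dist_eq, sub_zero] at f3 ⊢
  have hM0 : (0 : ℝ) < M n j := by exact_mod_cast f2
  have hMN : (M n j : ℝ) ≤ N := by exact_mod_cast hj1
  have hN0 : (0 : ℝ) < N := lt_of_lt_of_le hM0 hMN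
  have hNM : (N : ℝ) ≤ M n (j + 1) := by exact_mod_cast hj2.le
  rw [abs_div, abs_of_pos hM0, div_lt_iff₀ hM0] at f3
  rw [div_lt_iff₀ hM0] at f1
  rw [abs_div, abs_of_pos hN0, div_lt_iff₀ hN0]
  have g1 : ∑ k ∈ Ioc 0 N, z k = ∑ k ∈ Ioc 0 (M n j), z k + ∑ k ∈ Ioc (M n j) N, z k :=
    (Finset.sum_Ioc_consecutive z (Nat.zero_le _) hj1).symm
  have g2 : |∑ k ∈ Ioc (M n j) N, z k| ≤ C * ((N : ℝ) - M n j) := by
    calc _ ≤ ∑ k ∈ Ioc (M n j) N, |z k| := Finset.abs_sum_le_sum_abs _ _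
      _ ≤ ∑ _k ∈ Ioc (M n j) N, C := Finset.sum_le_sum fun k _ => hz k
      _ = _ := by
        rw [Finset.sum_const, Nat.card_Ioc, nsmul_eq_mul, Nat.cast_sub hj1]; ring
  rw [g1]
  have g3 : (N : ℝ) - M n j ≤ ε / (2 * (C + 1)) * M n j := by linarith
  have g4 : C * ((N : ℝ) - M n j) ≤ ε / 2 * M n j := by
    calc C * ((N : ℝ) - M n j) ≤ (C + 1) * (ε / (2 * (C + 1)) * M n j) := by
          apply mul_le_mul (by linarith) g3 (by linarith) (by linarith)
      _ = _ := by field_simp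
  calc _ ≤ |∑ k ∈ Ioc 0 (M n j), z k| + |∑ k ∈ Ioc (M n j) N, z k| := abs_add_le _ _
    _ < ε / 2 * M n j + ε / 2 * M n j := by linarith
    _ = ε * M n j := by ring
    _ ≤ ε * N := by gcongr

/-! ### the counting function -/

lemma cnt_eq_count (E : Set ℕ) (h0 : 0 ∉ E) [DecidablePred (fun n => 1 ≤ n ∧ n ∈ E)] (n : ℕ) :
    cnt E 0 n = Nat.count (fun n => 1 ≤ n ∧ n ∈ E) n := by
  induction n with
  | zero => simp [cnt]
  | succ n ih =>
    rw [cnt_split E 0 n (n + 1) (by omega) (by omega), ih, Nat.count_succ]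
    congr 1
    unfold cnt ind
    rw [Nat.Ico_succ_singleton, Finset.sum_singleton]
    by_cases h : n ∈ E
    · have : 1 ≤ n := by
        rcases Nat.eq_zero_or_pos n with h' | h'
        · subst h'; exact absurd h h0
        · exact h'
      rw [if_pos h, if_pos ⟨this, h⟩]
    · rw [if_neg h, if_neg (fun h' => h h'.2)]

lemma en_cnt (E : Set ℕ) (h0 : 0 ∉ E) (i : ℕ) (hi : i ∈ E) : en E (cnt E 0 (i + 1)) = i := by
  classical
  have h1 : 1 ≤ i := by
    rcases Nat.eq_zero_or_pos i with h' | h'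
    · subst h'; exact absurd hi h0
    · exact h'
  have h2 : cnt E 0 (i + 1) = cnt E 0 i + 1 := by
    rw [cnt_split E 0 i (i + 1) (by omega) (by omega)]
    congr 1
    have h3 : ind E i = 1 := by unfold ind; rw [if_pos hi]
    unfold cnt
    simp [h3]
  rw [h2]
  show Nat.nth (fun n => 1 ≤ n ∧ n ∈ E) (cnt E 0 i) = i
  rw [cnt_eq_count E h0 i]
  exact Nat.nth_count ⟨h1, hi⟩

lemma AS_eq (E : Set ℕ) (h0 : 0 ∉ E) (L : ℕ) {X : Type u} (T S : X → X) (f g : X → ℝ) (x : X) :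
    AS E L T S f g x = ∑ k ∈ Ioc 0 (cnt E 0 (L + 1)), f (T^[k] x) * g (S^[en E k] x) := by
  classical
  induction L with
  | zero =>
    have : cnt E 0 (0 + 1) = 0 := by
      unfold cnt ind; simp [h0]
    rw [this]; simp [AS]
  | succ L ih =>
    unfold AS at ih ⊢
    rw [Finset.sum_Ico_succ_top (by omega), ih]
    by_cases h : L + 1 ∈ E
    · have h1 : ind E (L + 1) = 1 := by unfold ind; rw [if_pos h]
      have h2 : cnt E 0 (L + 1 + 1) = cnt E 0 (L + 1) + 1 := by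
        rw [cnt_split E 0 (L + 1) (L + 1 + 1) (by omega) (by omega)]
        congr 1
        unfold cnt; simp [h1]
      rw [h2, Finset.sum_Ioc_succ_top (Nat.zero_le _), h1, ← h2, en_cnt E h0 (L + 1) h]
      simp
    · have h1 : ind E (L + 1) = 0 := by unfold ind; rw [if_neg h]
      have h2 : cnt E 0 (L + 1 + 1) = cnt E 0 (L + 1) := by
        rw [cnt_split E 0 (L + 1) (L + 1 + 1) (by omega) (by omega)]
        have : cnt E (L + 1) (L + 1 + 1) = 0 := by unfold cnt; simp [h1]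
        rw [this, add_zero]
      rw [h2, h1]; simp

lemma cnt_asym (p : ℕ) (hp : 2 ≤ p) (a b : ℝ) (ha : 0 < a) (ha1 : a < 1 / 2) (hb : 0 < b)
    (hb1 : 20 * b ≤ 1 / 2 - a) (E : Set ℕ) (hE : GoodE p a b E) :
    Tendsto (fun L : ℕ => (cnt E 0 (L + 1) : ℝ) / (L : ℝ) ^ (1 - a)) atTop (𝓝 (1 / (1 - a))) := by
  have h1 := Pool.Agent.H505RS.t_SUM a ha (by linarith)
  have h2 : Tendsto (fun L : ℕ => (∑ n ∈ Icc 1 L, pw a n) / (L : ℝ) ^ (1 - a)) atTop
      (𝓝 (1 / (1 - a))) := by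
    have h3 := h1.div_const (1 - a)
    refine h3.congr fun L => ?_
    have : (1 - a) ≠ 0 := by linarith
    rcases Nat.eq_zero_or_pos L with hL | hL
    · subst hL; simp
    · have : (0 : ℝ) < (L : ℝ) ^ (1 - a) := by
        have : (0 : ℝ) < L := by exact_mod_cast hL
        positivity
      field_simp
  have h3 : Tendsto (fun L : ℕ => (cnt E 0 (L + 1) : ℝ) / (L : ℝ) ^ (1 - a) -
      (∑ n ∈ Icc 1 L, pw a n) / (L : ℝ) ^ (1 - a)) atTop (𝓝 0) := by
    have hlim : Tendsto (fun L : ℕ => 3 * (L : ℝ) ^ (-((1 - a) / 2 - b))) atTop (𝓝 0) := by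
      have := ((tendsto_rpow_neg_atTop (y := (1 - a) / 2 - b) (by linarith)).comp
        tendsto_natCast_atTop_atTop).const_mul 3
      simpa using this
    refine squeeze_zero_norm' ?_ hlim
    filter_upwards [hE.2, eventually_ge_atTop 1, ev_const 1 (1 - a) (by linarith)] with L h4 h5 h6
    have hL1 : (1 : ℝ) ≤ L := by exact_mod_cast h5
    have hL0 : (0 : ℝ) < L := lt_of_lt_of_le one_pos hL1
    have hpos : (0 : ℝ) < (L : ℝ) ^ (1 - a) := by positivity
    set X0 := ∑ i ∈ Ico 0 (L + 1), tau p a L i with hX0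
    have hX0nn : 0 ≤ X0 := Finset.sum_nonneg fun i _ => tau_nonneg p a L i
    have hX : X0 ≤ 3 * (L : ℝ) ^ (1 - a) := by
      have h1 := sum_tau p hp a ha (by linarith) L (by omega)
      have h2 : (L : ℝ) ^ (1 - a) / (1 - a) ≤ 2 * (L : ℝ) ^ (1 - a) := by
        rw [div_le_iff₀ (by linarith)]
        nlinarith
      linarith
    have h7 := h4.1 0 (L + 1) (by omega) le_rfl
    rw [← hX0] at h7
    have h8 : Real.sqrt (1 + X0) ≤ 2 * (L : ℝ) ^ ((1 - a) / 2) := by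
      rw [Real.sqrt_le_left (by positivity)]
      rw [mul_pow, Lsq, show 2 * ((1 - a) / 2) = 1 - a by ring]
      linarith
    have h9 : |X0 - ∑ n ∈ Icc 1 L, pw a n| ≤ 1 := by
      have e1 : X0 = ∑ i ∈ Icc 1 L, tau p a L i := by
        rw [hX0, Finset.sum_eq_sum_Ico_succ_bot (by omega), tau_zero p a ha, zero_add]
        rfl
      rw [e1, ← Finset.sum_sub_distrib]
      refine (Finset.abs_sum_le_sum_abs _ _).trans ?_
      calc _ ≤ ∑ i ∈ Icc 1 L, 1 / (L : ℝ) ^ 4 := Finset.sum_le_sum fun i _ => by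
            have e2 := tau_le p hp a L i h5
            have e3 := pw_le_tau p hp a L i
            rw [abs_of_nonneg (by linarith)]
            linarith
        _ = L * (1 / (L : ℝ) ^ 4) := by rw [Finset.sum_const, Nat.card_Icc, nsmul_eq_mul]; simp
        _ ≤ 1 := by
            rw [mul_one_div, div_le_one (by positivity)]
            calc (L : ℝ) = (L : ℝ) ^ 1 := (pow_one _).symm
              _ ≤ (L : ℝ) ^ 4 := pow_le_pow_right₀ hL1 (by norm_num)
    rw [← sub_div, Real.norm_eq_abs, abs_div, abs_of_pos hpos, div_le_iff₀ hpos]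
    have h10 : 3 * (L : ℝ) ^ (-((1 - a) / 2 - b)) * (L : ℝ) ^ (1 - a) =
        3 * (L : ℝ) ^ ((1 - a) / 2 + b) := by
      rw [mul_assoc, ← Real.rpow_add hL0]; congr 2; ring
    rw [h10]
    have h11 : (L : ℝ) ^ b * Real.sqrt (1 + X0) ≤ 2 * (L : ℝ) ^ ((1 - a) / 2 + b) := by
      calc _ ≤ (L : ℝ) ^ b * (2 * (L : ℝ) ^ ((1 - a) / 2)) := by gcongr
        _ = _ := by rw [mul_left_comm, ← Real.rpow_add hL0]; congr 2; ring
    have h12 : 1 ≤ (L : ℝ) ^ ((1 - a) / 2 + b) := Real.one_le_rpow hL1 (by linarith)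
    calc |(cnt E 0 (L + 1) : ℝ) - ∑ n ∈ Icc 1 L, pw a n|
        ≤ |(cnt E 0 (L + 1) : ℝ) - X0| + |X0 - ∑ n ∈ Icc 1 L, pw a n| := abs_sub_le _ _ _
      _ ≤ 2 * (L : ℝ) ^ ((1 - a) / 2 + b) + 1 := add_le_add (h7.trans h11) h9
      _ ≤ _ := by linarith
  have h4 := h3.add h2
  rw [zero_add] at h4
  refine h4.congr fun L => ?_
  ring

/-- the case of a function without invariant part -/
theorem zero_case (p : ℕ) (hp : 2 ≤ p) (a b : ℝ) (ha : 0 < a) (ha1 : a < 1 / 2) (hb : 0 < b)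
    (hb1 : 20 * b ≤ 1 / 2 - a) (hb2 : 20 * b ≤ a) (E : Set ℕ) (hE : GoodE p a b E)
    (X : Type u) [MeasurableSpace X]
    (μ : Measure X) (T S : X → X) (f g : X → ℝ) (hsy : Sy μ T S) (hf : Bd f) (hg : Bd g)
    (hg0 : ∀ᵐ x ∂μ, (μ[g | MeasurableSpace.invariants S]) x = 0) :
    ∀ᵐ x ∂μ, Tendsto (fun N : ℕ => (∑ k ∈ Ioc 0 N, f (T^[k] x) * g (S^[en E k] x)) / (N : ℝ))
      atTop (𝓝 0) := by
  filter_upwards [AS_ae p hp a b ha ha1 hb hb1 hb2 E hE X μ T S f g hsy hf hg hg0] with x hx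
  have has := cnt_asym p hp a b ha ha1 hb hb1 E hE
  have ha0 : (0 : ℝ) < 1 / (1 - a) := by
    apply one_div_pos.2; linarith
  have hrho : ∀ n : ℕ, (1 : ℝ) < 1 + 1 / ((n : ℝ) + 1) := fun n => by
    have : 0 < 1 / ((n : ℝ) + 1) := by positivity
    linarith
  set ρ : ℕ → ℝ := fun n => 1 + 1 / ((n : ℝ) + 1) with hρ
  have hceil : ∀ n, Tendsto (fun j : ℕ => (⌈ρ n ^ j⌉₊ : ℝ) / ρ n ^ j) atTop (𝓝 1) := by
    intro n
    have h1 : Tendsto (fun j : ℕ => ρ n ^ j) atTop atTop :=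
      tendsto_pow_atTop_atTop_of_one_lt (hrho n)
    exact (tendsto_nat_ceil_div_atTop (R := ℝ)).comp h1
  have hNt : ∀ n, Tendsto (fun j : ℕ => ⌈ρ n ^ j⌉₊) atTop atTop := fun n =>
    tendsto_nat_ceil_atTop.comp (tendsto_pow_atTop_atTop_of_one_lt (hrho n))
  -- ratio of consecutive terms
  have hratio : ∀ n, Tendsto (fun j : ℕ => (⌈ρ n ^ (j + 1)⌉₊ : ℝ) / ⌈ρ n ^ j⌉₊) atTop
      (𝓝 (ρ n)) := by
    intro n
    have h1 := (hceil n).comp (tendsto_add_atTop_nat 1)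
    have h2 := (h1.div (hceil n) one_ne_zero).mul_const (ρ n)
    rw [div_one, one_mul] at h2
    refine h2.congr fun j => ?_
    simp only [Function.comp, Pi.div_apply]
    have h3 : (0 : ℝ) < ρ n ^ j := by have := hrho n; positivity
    have h4 : (0 : ℝ) < (⌈ρ n ^ j⌉₊ : ℝ) := by exact_mod_cast Nat.ceil_pos.2 h3
    have h5 : (0 : ℝ) < ρ n := by have := hrho n; linarith
    rw [pow_succ]
    field_simp
  have hcntpos : ∀ n, ∀ᶠ j : ℕ in atTop, (0 : ℝ) < cnt E 0 (⌈ρ n ^ j⌉₊ + 1) := by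
    intro n
    have h1 := (has.comp (hNt n)).eventually_const_lt ha0
    filter_upwards [h1] with j h2
    simp only [Function.comp] at h2
    by_contra h3
    push Not at h3
    have h4 : (cnt E 0 (⌈ρ n ^ j⌉₊ + 1) : ℝ) = 0 := le_antisymm h3 (Nat.cast_nonneg _)
    rw [h4, zero_div] at h2
    exact lt_irrefl _ h2
  refine interp (fun k => f (T^[k] x) * g (S^[en E k] x)) 1 (fun k => ?_)
    (fun n j => cnt E 0 (⌈ρ n ^ j⌉₊ + 1)) (fun n => ρ n ^ (1 - a)) ?_ ?_ ?_ ?_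
  · rw [abs_mul]
    exact mul_le_one₀ (hf.2 _) (abs_nonneg _) (hg.2 _)
  · -- ρ n → 1
    have h1 : Tendsto ρ atTop (𝓝 1) := by
      have := tendsto_one_div_add_atTop_nhds_zero_nat (𝕜 := ℝ)
      have h2 := this.const_add 1
      simpa [hρ] using h2
    have h2 := h1.rpow_const (p := 1 - a) (Or.inl one_ne_zero)
    rwa [Real.one_rpow] at h2
  · intro n
    have h1 : Tendsto (fun L : ℕ => (cnt E 0 (L + 1) : ℝ)) atTop atTop := by
      have h2 : Tendsto (fun L : ℕ => (L : ℝ) ^ (1 - a)) atTop atTop :=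
        (tendsto_rpow_atTop (by linarith)).comp tendsto_natCast_atTop_atTop
      have h3 := h2.atTop_mul_pos ha0 has
      refine h3.congr' ?_
      filter_upwards [eventually_ge_atTop 1] with L hL
      have : (0 : ℝ) < L := by exact_mod_cast hL
      have : (0 : ℝ) < (L : ℝ) ^ (1 - a) := by positivity
      field_simp
    exact (tendsto_natCast_atTop_iff.1 h1).comp (hNt n)
  · intro n
    have h1 := has.comp ((hNt n).comp (tendsto_add_atTop_nat 1))
    have h2 := has.comp (hNt n)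
    have h3 := (hratio n).rpow_const (p := 1 - a) (Or.inl (by have := hrho n; simp only [hρ]; linarith))
    have h4 := (h1.div h2 ha0.ne').mul h3
    rw [div_self ha0.ne', one_mul] at h4
    refine h4.congr' ?_
    filter_upwards [hcntpos n] with j hj
    simp only [Function.comp, Pi.div_apply]
    have h5 : (0 : ℝ) < (⌈ρ n ^ j⌉₊ : ℝ) := by
      have : (0 : ℝ) < ρ n ^ j := by have := hrho n; positivity
      exact_mod_cast Nat.ceil_pos.2 this
    have h6 : (0 : ℝ) < (⌈ρ n ^ (j + 1)⌉₊ : ℝ) := by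
      have : (0 : ℝ) < ρ n ^ (j + 1) := by have := hrho n; positivity
      exact_mod_cast Nat.ceil_pos.2 this
    rw [Real.div_rpow h6.le h5.le]
    have h7 : (0 : ℝ) < (⌈ρ n ^ j⌉₊ : ℝ) ^ (1 - a) := by positivity
    have h8 : (0 : ℝ) < (⌈ρ n ^ (j + 1)⌉₊ : ℝ) ^ (1 - a) := by positivity
    field_simp
  · intro n
    have h1 := hx n
    have h2 := has.comp (hNt n)
    have h3 := h1.div h2 ha0.ne'
    rw [zero_div] at h3
    refine h3.congr' ?_
    filter_upwards [hcntpos n] with j hj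
    simp only [Function.comp, Pi.div_apply]
    rw [AS_eq E hE.1]
    have h5 : (0 : ℝ) < (⌈ρ n ^ j⌉₊ : ℝ) := by
      have : (0 : ℝ) < ρ n ^ j := by have := hrho n; positivity
      exact_mod_cast Nat.ceil_pos.2 this
    have h7 : (0 : ℝ) < (⌈ρ n ^ j⌉₊ : ℝ) ^ (1 - a) := by positivity
    rw [div_div_div_cancel_right₀ h7.ne']

end Pool.Agent.H238.SR
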