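import Pool.Agent.H238.SR.Det

/-! The almost sure events. -/

set_option autoImplicit false

noncomputable section

namespace Pool.Agent.H238.SR

open MeasureTheory Finset Filter Topology
open Pool.Agent.H505RS (pw ee)

lemma fin_union {ι : Type*} (I : ℕ → Finset ι) (S : ℕ → ι → Set ℝ) (k : ℕ) (g : ℝ) (hg : 0 < g)
    (K : ℕ → ℕ) (hcard : ∀ᶠ L : ℕ in atTop, ((I L).card : ℝ) * K L ≤ (L : ℝ) ^ k)
    (hS : ∀ᶠ L : ℕ in atTop, ∀ q ∈ I L, lam (S L q) ≤
      (K L : ENNReal) * ENNReal.ofReal (Real.exp (1 - (L : ℝ) ^ g))) :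
    ∀ᵐ y ∂lam, ∀ᶠ L in atTop, ∀ q ∈ I L, y ∉ S L q := by
  apply ae_ev
  filter_upwards [hcard, hS, ev_exp k g hg] with L h1 h2 h3
  calc ∑ q ∈ I L, lam (S L q)
      ≤ ∑ q ∈ I L, (K L : ENNReal) * ENNReal.ofReal (Real.exp (1 - (L : ℝ) ^ g)) :=
        Finset.sum_le_sum h2
    _ = ENNReal.ofReal ((((I L).card : ℝ) * K L) * Real.exp (1 - (L : ℝ) ^ g)) := by
        rw [Finset.sum_const, nsmul_eq_mul, ENNReal.ofReal_mul (by positivity),
          ENNReal.ofReal_mul (by positivity), ENNReal.ofReal_natCast, ENNReal.ofReal_natCast]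
        ring
    _ ≤ ENNReal.ofReal (1 / (L : ℝ) ^ 2) := by
        apply ENNReal.ofReal_le_ofReal
        exact le_trans (by gcongr) h3

theorem evD (p : ℕ) (hp : 2 ≤ p) (a b : ℝ) (ha : 0 < a) (ha1 : a < 1 / 2) (hb : 0 < b) :
    ∀ᵐ y ∂lam, ∀ᶠ L : ℕ in atTop, EvD p a b L (EE p (RR L) (tq p a L) y) := by
  set V : ℕ → ℕ → ℕ → ℝ := fun L A B => ∑ i ∈ Ico A B, tau p a L i with hV
  have hV0 : ∀ L A B, 0 ≤ V L A B := fun L A B => Finset.sum_nonneg fun i _ => tau_nonneg p a L i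
  set W : ℕ × ℕ × ℕ → ℕ → ℝ → ℝ := fun q i _ => if q.1 ≤ i ∧ i < q.2.1 then (-1) ^ q.2.2 else 0
    with hW
  set S : ℕ → ℕ × ℕ × ℕ → Set ℝ := fun L q =>
    {y | (RR L : ℝ) * (Real.sqrt (1 + V L q.1 q.2.1) * (L : ℝ) ^ (b / 2)) <
        ∑ i ∈ Ico (RR L) (L + 1), ((ind (EE p (RR L) (tq p a L) y) i : ℝ) -
          (tq p a L i : ℝ) / ((p ^ (RR L) : ℕ) : ℝ)) * W q i y ∧
      ∑ i ∈ Ico (RR L) (L + 1), ((tq p a L i : ℝ) / ((p ^ (RR L) : ℕ) : ℝ)) * (W q i y) ^ 2 ≤
        V L q.1 q.2.1} with hS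
  have hmain := fin_union (fun L => range (L + 2) ×ˢ range (L + 2) ×ˢ range 2) S 5 (b / 2)
    (by linarith) RR
    (by
      filter_upwards [ev_R 1 1 one_pos, eventually_ge_atTop 50] with L h1 h2
      rw [one_mul, Real.rpow_one] at h1
      have hL : (50 : ℝ) ≤ L := by exact_mod_cast h2
      simp only [Finset.card_product, Finset.card_range]
      push_cast
      have h3 : ((L : ℝ) + 2) ≤ 2 * L := by linarith
      calc ((L : ℝ) + 2) * (((L : ℝ) + 2) * 2) * (RR L : ℝ) ≤ (2 * L) * ((2 * L) * 2) * L := by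
            gcongr
        _ = 8 * (L : ℝ) ^ 3 := by ring
        _ ≤ (L : ℝ) ^ 2 * (L : ℝ) ^ 3 := by gcongr; nlinarith
        _ = _ := by ring)
    (by
      filter_upwards [eventually_ge_atTop 1] with L hL
      rintro ⟨A, B, s⟩ _
      have hV1 : 0 < Real.sqrt (1 + V L A B) := Real.sqrt_pos.2 (by linarith [hV0 L A B])
      have hV2 : 1 ≤ Real.sqrt (1 + V L A B) := by
        rw [Real.one_le_sqrt]; linarith [hV0 L A B]
      have key := block1 p (by omega) (RR L) (RR_pos L) (tq p a L) (tq_le p a ha L) (W (A, B, s))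
        (Real.sqrt (1 + V L A B))⁻¹ (by positivity) (inv_le_one_of_one_le₀ hV2)
        (fun i _ => by intro _ _ _ _ _; rfl)
        (fun i y => by
          simp only [hW]
          split_ifs
          · rw [abs_pow]; simp
          · simp) (L + 1)
        (Real.sqrt (1 + V L A B) * (L : ℝ) ^ (b / 2)) (V L A B)
      refine key.trans ?_
      gcongr
      · rw [inv_pow, Real.sq_sqrt (by linarith [hV0 L A B])]
        rw [inv_mul_le_iff₀ (by linarith [hV0 L A B])]
        linarith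
      · rw [← mul_assoc, inv_mul_cancel₀ hV1.ne', one_mul])
  filter_upwards [hmain] with y hy
  filter_upwards [hy, ev_R 2 (b / 2) (by linarith), ev_R 1 1 one_pos, eventually_ge_atTop 1] with
    L h1 h2 h3 h4 A B hAB hBL
  have hL : (1 : ℝ) ≤ L := by exact_mod_cast h4
  rw [one_mul, Real.rpow_one] at h3
  have hRL : RR L ≤ L := by exact_mod_cast h3
  set E := EE p (RR L) (tq p a L) y with hE
  have hX0 := hV0 L A B
  have hs1 : 1 ≤ Real.sqrt (1 + V L A B) := by rw [Real.one_le_sqrt]; linarith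
  have hLb : 1 ≤ (L : ℝ) ^ (b / 2) := Real.one_le_rpow hL (by linarith)
  -- the second condition always holds
  have h5 : ∀ s : ℕ, ∑ i ∈ Ico (RR L) (L + 1), ((tq p a L i : ℝ) / ((p ^ (RR L) : ℕ) : ℝ)) *
      (W (A, B, s) i y) ^ 2 ≤ V L A B := by
    intro s
    have h6 : ∀ i ∈ Ico (RR L) (L + 1), ((tq p a L i : ℝ) / ((p ^ (RR L) : ℕ) : ℝ)) *
        (W (A, B, s) i y) ^ 2 = if A ≤ i ∧ i < B then tau p a L i else 0 := by
      intro i _
      simp only [hW]
      split_ifs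
      · rw [← pow_mul, mul_comm s 2, pow_mul]; simp [tau]
      · simp
    rw [Finset.sum_congr rfl h6, ← Finset.sum_filter]
    apply Finset.sum_le_sum_of_subset_of_nonneg
    · intro i hi
      rw [Finset.mem_filter] at hi
      rw [Finset.mem_Ico]; exact hi.2
    · intro i _ _; exact tau_nonneg p a L i
  have h7 : ∀ s : ℕ, s < 2 → ∑ i ∈ Ico (RR L) (L + 1), ((ind E i : ℝ) -
      (tq p a L i : ℝ) / ((p ^ (RR L) : ℕ) : ℝ)) * W (A, B, s) i y ≤
        (RR L : ℝ) * (Real.sqrt (1 + V L A B) * (L : ℝ) ^ (b / 2)) := by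
    intro s hs
    have h8 := h1 (A, B, s) (by
      simp only [Finset.mem_product, Finset.mem_range]
      omega)
    simp only [hS, Set.mem_ofPred_eq, not_and] at h8
    by_contra h9
    push Not at h9
    exact h8 h9 (h5 s)
  set Y := ∑ i ∈ Ico (RR L) (L + 1), (if A ≤ i ∧ i < B then (ind E i : ℝ) - tau p a L i else 0)
    with hY
  have h10 : ∀ s : ℕ, ∑ i ∈ Ico (RR L) (L + 1), ((ind E i : ℝ) -
      (tq p a L i : ℝ) / ((p ^ (RR L) : ℕ) : ℝ)) * W (A, B, s) i y = (-1) ^ s * Y := by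
    intro s
    rw [hY, Finset.mul_sum]
    refine Finset.sum_congr rfl fun i _ => ?_
    simp only [hW]
    split_ifs
    · unfold tau; ring
    · simp
  have hYabs : |Y| ≤ (RR L : ℝ) * (Real.sqrt (1 + V L A B) * (L : ℝ) ^ (b / 2)) := by
    have h11 := h7 0 (by norm_num)
    have h12 := h7 1 (by norm_num)
    rw [h10] at h11 h12
    rw [abs_le]
    constructor
    · linarith
    · linarith
  have h13 : (cnt E A B : ℝ) - ∑ i ∈ Ico A B, tau p a L i =
      ∑ i ∈ Ico 0 (RR L), (if A ≤ i ∧ i < B then (ind E i : ℝ) - tau p a L i else 0) + Y := by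
    rw [hY, Finset.sum_Ico_consecutive _ (by omega) (by omega)]
    unfold cnt
    push_cast
    rw [← Finset.sum_sub_distrib, ← Finset.sum_filter]
    apply Finset.sum_congr _ (fun _ _ => rfl)
    ext i
    simp only [Finset.mem_filter, Finset.mem_Ico]
    omega
  have h14 : |∑ i ∈ Ico 0 (RR L), (if A ≤ i ∧ i < B then (ind E i : ℝ) - tau p a L i else 0)| ≤
      RR L := by
    refine (Finset.abs_sum_le_sum_abs _ _).trans ?_
    calc _ ≤ ∑ i ∈ Ico 0 (RR L), (1 : ℝ) := Finset.sum_le_sum fun i _ => by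
          have h15 := tau_nonneg p a L i
          have h16 := tau_le_one p hp a ha L i
          have h17 : (ind E i : ℝ) ≤ 1 := by exact_mod_cast ind_le_one E i
          have h18 : (0 : ℝ) ≤ ind E i := Nat.cast_nonneg _
          split_ifs
          · rw [abs_le]; constructor <;> linarith
          · simp
      _ = RR L := by simp
  rw [h13]
  calc |_ + Y| ≤ RR L + (RR L : ℝ) * (Real.sqrt (1 + V L A B) * (L : ℝ) ^ (b / 2)) :=
        (abs_add_le _ _).trans (add_le_add h14 hYabs)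
    _ ≤ (RR L : ℝ) * (Real.sqrt (1 + V L A B) * (L : ℝ) ^ (b / 2)) +
          (RR L : ℝ) * (Real.sqrt (1 + V L A B) * (L : ℝ) ^ (b / 2)) := by
        gcongr
        have : 1 ≤ Real.sqrt (1 + V L A B) * (L : ℝ) ^ (b / 2) := one_le_mul_of_one_le_of_one_le hs1 hLb
        have hR0 : (0 : ℝ) ≤ RR L := Nat.cast_nonneg _
        nlinarith
    _ = (2 * (RR L : ℝ)) * (L : ℝ) ^ (b / 2) * Real.sqrt (1 + V L A B) := by ring
    _ ≤ (L : ℝ) ^ (b / 2) * (L : ℝ) ^ (b / 2) * Real.sqrt (1 + V L A B) := by gcongr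
    _ = (L : ℝ) ^ b * Real.sqrt (1 + V L A B) := by
        rw [← Real.rpow_add (by linarith)]; congr 2; ring

end Pool.Agent.H238.SR
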