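import Pool.Agent.H238.SR.Ev

/-! The almost sure events, continued. -/

set_option autoImplicit false

noncomputable section

namespace Pool.Agent.H238.SR

open MeasureTheory Finset Filter Topology
open Pool.Agent.H505RS (pw ee)

lemma zero_notMem_EE (p : ℕ) (a : ℝ) (ha : 0 < a) (L : ℕ) (y : ℝ) :
    0 ∉ EE p (RR L) (tq p a L) y := by
  unfold EE
  simp only [Set.mem_ofPred_eq]
  rw [tq_zero p a ha]
  exact Nat.not_lt_zero _

lemma var_ev (p : ℕ) (hp : 2 ≤ p) (a b : ℝ) (ha : 0 < a) (ha1 : a < 1 / 2) (hb : 0 < b) :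
    ∀ᶠ L : ℕ in atTop, ∀ E : Set ℕ, 0 ∉ E → EvD p a b L E →
      ∑ j ∈ Ico 1 (L + 1), tau p a L j * ((ind E j : ℝ) + tau p a L j) ≤
        (L : ℝ) ^ (1 - 2 * a + 2 * b) := by
  filter_upwards [ev_le (9 / (1 - 2 * a)) (1 - 2 * a) (1 - 2 * a + 2 * b) (by linarith),
    ev_le 3 (2 * b) (1 - 2 * a + 2 * b) (by linarith),
    ev_const 21 (1 - 2 * a + 2 * b) (by linarith), eventually_ge_atTop 1] with L h1 h2 h3 h4 E h0 hE
  have h5 := var_bd p hp a b ha ha1 L h4 E h0 hE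
  have h6 : 3 * ((L : ℝ) ^ (1 - 2 * a) / (1 - 2 * a)) =
      (9 / (1 - 2 * a) * (L : ℝ) ^ (1 - 2 * a)) / 3 := by
    field_simp; ring
  linarith

lemma shift_sum (F : ℕ → ℝ) (hF : ∀ i, 0 ≤ F i) (hF0 : F 0 = 0) (u s L : ℕ) (hu : u ≤ s) :
    ∑ i ∈ Ico s (L + 1), F (i - u) ≤ ∑ j ∈ Ico 1 (L + 1), F j := by
  by_cases hs : L + 1 ≤ s
  · rw [Finset.Ico_eq_empty_of_le hs, Finset.sum_empty]
    exact Finset.sum_nonneg fun i _ => hF i
  push Not at hs
  have h1 : Ico s (L + 1) = Ico ((s - u) + u) ((L + 1 - u) + u) := by congr 1 <;> omega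
  rw [h1, ← Finset.sum_Ico_add' (fun i => F (i - u))]
  simp only [Nat.add_sub_cancel]
  have h2 : ∑ j ∈ Ico 1 (L + 1), F j = ∑ j ∈ Ico 0 (L + 1), F j := by
    rw [Finset.sum_eq_sum_Ico_succ_bot (by omega : 0 < L + 1), hF0, zero_add]
  rw [h2]
  apply Finset.sum_le_sum_of_subset_of_nonneg
  · intro i hi; rw [Finset.mem_Ico] at *; omega
  · intro i _ _; exact hF i

/-- parameters of the exponential inequality at variance `V0` -/
lemma par_exp (L : ℕ) (hL : 1 ≤ L) (a b : ℝ) (ha1 : a < 1 / 2) (hb : 0 < b) :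
    0 ≤ (L : ℝ) ^ (-((1 - 2 * a + 2 * b) / 2)) ∧ (L : ℝ) ^ (-((1 - 2 * a + 2 * b) / 2)) ≤ 1 ∧
    ((L : ℝ) ^ (-((1 - 2 * a + 2 * b) / 2))) ^ 2 * (L : ℝ) ^ (1 - 2 * a + 2 * b) -
      (L : ℝ) ^ (-((1 - 2 * a + 2 * b) / 2)) * (L : ℝ) ^ ((1 - 2 * a) / 2 + 3 / 2 * b) =
      1 - (L : ℝ) ^ (b / 2) := by
  have hL' : (0 : ℝ) < L := by exact_mod_cast hL
  refine ⟨by positivity, ?_, ?_⟩
  · apply Real.rpow_le_one_of_one_le_of_nonpos
    · exact_mod_cast hL
    · linarith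
  · rw [← Real.rpow_natCast, ← Real.rpow_mul hL'.le, ← Real.rpow_add hL', ← Real.rpow_add hL']
    congr 1
    · rw [show -((1 - 2 * a + 2 * b) / 2) * ((2 : ℕ) : ℝ) + (1 - 2 * a + 2 * b) = 0 by
        push_cast; ring, Real.rpow_zero]
    · congr 1; ring

theorem evP (p : ℕ) (hp : 2 ≤ p) (a b : ℝ) (ha : 0 < a) (ha1 : a < 1 / 2) (hb : 0 < b) :
    ∀ᵐ y ∂lam, ∀ᶠ L : ℕ in atTop, EvP a b L (EE p (RR L) (tq p a L) y) := by
  set W : ℕ → ℕ → ℕ → ℝ → ℝ := fun L u i y => if 2 * RR L ≤ i ∧ RR L ≤ u ∧ u ≤ 2 * RR L then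
    (ind (EE p (RR L) (tq p a L) y) (i - u) : ℝ) else 0 with hW
  set S : ℕ → ℕ → Set ℝ := fun L u =>
    {y | (RR L : ℝ) * (L : ℝ) ^ ((1 - 2 * a) / 2 + 3 / 2 * b) <
        ∑ i ∈ Ico (RR L) (L + 1), ((ind (EE p (RR L) (tq p a L) y) i : ℝ) -
          (tq p a L i : ℝ) / ((p ^ (RR L) : ℕ) : ℝ)) * W L u i y ∧
      ∑ i ∈ Ico (RR L) (L + 1), ((tq p a L i : ℝ) / ((p ^ (RR L) : ℕ) : ℝ)) * (W L u i y) ^ 2 ≤
        (L : ℝ) ^ (1 - 2 * a + 2 * b)} with hS
  have hmain := fin_union (fun L => range (2 * RR L + 1)) S 3 (b / 2) (by linarith) RR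
    (by
      filter_upwards [ev_R 1 1 one_pos, eventually_ge_atTop 50] with L h1 h2
      rw [one_mul, Real.rpow_one] at h1
      have hL : (50 : ℝ) ≤ L := by exact_mod_cast h2
      simp only [Finset.card_range]
      push_cast
      calc (2 * (RR L : ℝ) + 1) * (RR L : ℝ) ≤ (2 * L + L) * L := by gcongr; linarith
        _ = 3 * (L : ℝ) ^ 2 := by ring
        _ ≤ (L : ℝ) * (L : ℝ) ^ 2 := by gcongr; linarith
        _ = _ := by ring)
    (by
      filter_upwards [eventually_ge_atTop 1] with L hL u _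
      obtain ⟨hl0, hl1, hl2⟩ := par_exp L hL a b ha1 hb
      have key := block1 p (by omega) (RR L) (RR_pos L) (tq p a L) (tq_le p a ha L) (W L u)
        ((L : ℝ) ^ (-((1 - 2 * a + 2 * b) / 2))) hl0 hl1
        (fun i _ => by
          simp only [hW]
          by_cases hc : 2 * RR L ≤ i ∧ RR L ≤ u ∧ u ≤ 2 * RR L
          · simp only [hc, and_self, if_true]
            intro y y' h0 h0' he
            have := ind_dep (p := p) (R := RR L) (by omega) (tq p a L) (i := i - u) (n := i)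
              (by omega) y y' h0 h0' he
            simp only at this ⊢
            rw [this]
          · simp only [hc, if_false]
            intro _ _ _ _ _; rfl)
        (fun i y => by
          simp only [hW]
          split_ifs
          · rw [abs_of_nonneg (Nat.cast_nonneg _)]
            exact_mod_cast ind_le_one _ _
          · simp) (L + 1)
        ((L : ℝ) ^ ((1 - 2 * a) / 2 + 3 / 2 * b)) ((L : ℝ) ^ (1 - 2 * a + 2 * b))
      rw [hl2] at key
      exact key)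
  filter_upwards [hmain, evD p hp a b ha ha1 hb] with y hy hyD
  filter_upwards [hy, hyD, var_ev p hp a b ha ha1 hb, ev_R 1 (b / 2) (by linarith),
    ev_le 2 (1 - 2 * a + 2 * b) (1 - 2 * a + 3 * b) (by linarith), eventually_ge_atTop 1,
    ev_R 2 1 one_pos] with L h1 h2 h3 h4 h5 h6 h7 u hu1 hu2
  have hL : (1 : ℝ) ≤ L := by exact_mod_cast h6
  rw [Real.rpow_one] at h7
  have hRL : 2 * RR L ≤ L := by exact_mod_cast h7
  set E := EE p (RR L) (tq p a L) y with hE
  have h0E : 0 ∉ E := zero_notMem_EE p a ha L y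
  have hvar := h3 E h0E h2
  have hsq : ∀ i, (ind E i : ℝ) ^ 2 = ind E i := by
    intro i; unfold ind; split_ifs <;> simp
  have hind0 : (ind E 0 : ℝ) = 0 := by unfold ind; rw [if_neg h0E]; simp
  have htau : ∑ i ∈ Ico (2 * RR L) (L + 1), tau p a L i * (ind E (i - u) : ℝ) ≤
      (L : ℝ) ^ (1 - 2 * a + 2 * b) := by
    refine le_trans ?_ hvar
    calc ∑ i ∈ Ico (2 * RR L) (L + 1), tau p a L i * (ind E (i - u) : ℝ)
        ≤ ∑ i ∈ Ico (2 * RR L) (L + 1), tau p a L (i - u) *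
            ((ind E (i - u) : ℝ) + tau p a L (i - u)) := by
          refine Finset.sum_le_sum fun i hi => ?_
          rw [Finset.mem_Ico] at hi
          have ht := tau_nonneg p a L (i - u)
          by_cases hz : i - u = 0
          · rw [hz, hind0, mul_zero, zero_add]
            exact mul_nonneg (tau_nonneg _ _ _ _) (tau_nonneg _ _ _ _)
          · have h8 := tau_anti p a ha L (i - u) i (by omega) (by omega)
            have h9 : (0 : ℝ) ≤ ind E (i - u) := Nat.cast_nonneg _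
            nlinarith [mul_le_mul_of_nonneg_right h8 h9]
      _ ≤ _ := by
          apply shift_sum (fun j => tau p a L j * ((ind E j : ℝ) + tau p a L j)) _ _ u
            (2 * RR L) L hu2
          · intro i
            have := tau_nonneg p a L i
            positivity
          · simp [tau_zero p a ha]
  have hu : u ∈ range (2 * RR L + 1) := by rw [Finset.mem_range]; omega
  have h8 := h1 u hu
  simp only [hS, Set.mem_ofPred_eq, not_and] at h8
  have hsplit : ∀ G : ℕ → ℝ, ∑ i ∈ Ico (RR L) (L + 1), (if 2 * RR L ≤ i then G i else 0) =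
      ∑ i ∈ Ico (2 * RR L) (L + 1), G i := by
    intro G
    rw [← Finset.sum_filter]
    apply Finset.sum_congr _ (fun _ _ => rfl)
    ext i; simp only [Finset.mem_filter, Finset.mem_Ico]; omega
  have h9 : ∑ i ∈ Ico (RR L) (L + 1), ((tq p a L i : ℝ) / ((p ^ (RR L) : ℕ) : ℝ)) *
      (W L u i y) ^ 2 ≤ (L : ℝ) ^ (1 - 2 * a + 2 * b) := by
    refine le_trans (le_of_eq ?_) htau
    rw [← hsplit]
    refine Finset.sum_congr rfl fun i _ => ?_
    simp only [hW]
    by_cases hc : 2 * RR L ≤ i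
    · rw [if_pos ⟨hc, by omega, hu2⟩, if_pos hc, hsq]; rfl
    · rw [if_neg (fun h => hc h.1), if_neg hc]; simp
  have h10 : ∑ i ∈ Ico (RR L) (L + 1), ((ind E i : ℝ) -
      (tq p a L i : ℝ) / ((p ^ (RR L) : ℕ) : ℝ)) * W L u i y ≤
      (RR L : ℝ) * (L : ℝ) ^ ((1 - 2 * a) / 2 + 3 / 2 * b) := by
    by_contra h11
    push Not at h11
    exact h8 h11 h9
  have h12 : ∑ i ∈ Ico (RR L) (L + 1), ((ind E i : ℝ) -
      (tq p a L i : ℝ) / ((p ^ (RR L) : ℕ) : ℝ)) * W L u i y =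
      ∑ i ∈ Ico (2 * RR L) (L + 1), (ind E i : ℝ) * ind E (i - u) -
        ∑ i ∈ Ico (2 * RR L) (L + 1), tau p a L i * (ind E (i - u) : ℝ) := by
    rw [← Finset.sum_sub_distrib, ← hsplit]
    refine Finset.sum_congr rfl fun i _ => ?_
    simp only [hW]
    by_cases hc : 2 * RR L ≤ i
    · rw [if_pos ⟨hc, by omega, hu2⟩, if_pos hc]; unfold tau; ring
    · rw [if_neg (fun h => hc h.1), if_neg hc]; simp
  rw [h12] at h10
  rw [one_mul] at h4
  have h13 : (RR L : ℝ) * (L : ℝ) ^ ((1 - 2 * a) / 2 + 3 / 2 * b) ≤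
      (L : ℝ) ^ (1 - 2 * a + 2 * b) := by
    calc _ ≤ (L : ℝ) ^ (b / 2) * (L : ℝ) ^ ((1 - 2 * a) / 2 + 3 / 2 * b) := by gcongr
      _ = (L : ℝ) ^ ((1 - 2 * a) / 2 + 2 * b) := by
          rw [← Real.rpow_add (by linarith)]; congr 1; ring
      _ ≤ _ := by
          apply Real.rpow_le_rpow_of_exponent_le hL
          linarith
  linarith

end Pool.Agent.H238.SR
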