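import Pool.Agent.H238.SR.Ev2

/-! The exponential sums event. -/

set_option autoImplicit false

noncomputable section

namespace Pool.Agent.H238.SR

open MeasureTheory Finset Filter Topology
open Pool.Agent.H505RS (pw ee)

lemma norm_ee (x : ℝ) : ‖ee x‖ = 1 := by
  unfold ee
  rw [Complex.norm_exp]
  simp

lemma four_parts (Z : ℂ) (K : ℝ) (h : ∀ s : ℕ, s < 4 → (Z * Complex.I ^ s).re ≤ K) :
    ‖Z‖ ≤ 2 * K := by
  have h0 := h 0 (by norm_num)
  have h1 := h 1 (by norm_num)
  have h2 := h 2 (by norm_num)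
  have h3 := h 3 (by norm_num)
  have e3 : Complex.I ^ 3 = -Complex.I := by rw [pow_succ, Complex.I_sq]; ring
  rw [e3] at h3
  simp only [pow_zero, mul_one, pow_one, Complex.I_sq, Complex.mul_re, Complex.I_re, Complex.I_im,
    mul_zero, zero_sub, Complex.neg_re, Complex.neg_im, Complex.one_re,
    Complex.one_im, neg_zero, mul_neg] at h0 h1 h2 h3
  have hr : |Z.re| ≤ K := abs_le.2 ⟨by linarith, h0⟩
  have hi : |Z.im| ≤ K := abs_le.2 ⟨by linarith, by linarith⟩
  calc ‖Z‖ ≤ |Z.re| + |Z.im| := Complex.norm_le_abs_re_add_abs_im Z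
    _ ≤ 2 * K := by linarith

theorem evV (p : ℕ) (hp : 2 ≤ p) (a b : ℝ) (ha : 0 < a) (ha1 : a < 1 / 2) (hb : 0 < b) :
    ∀ᵐ y ∂lam, ∀ᶠ L : ℕ in atTop, EvV p a b L (EE p (RR L) (tq p a L) y) := by
  set zz : ℕ → ℕ → ℕ → ℕ → ℕ → ℂ := fun L k1 k2 κ i =>
    ee ((k1 : ℝ) * (κ : ℕ) / (3 * L)) * ee ((k2 : ℝ) * i / (3 * L)) with hzz
  have hzn : ∀ L k1 k2 κ i, ‖zz L k1 k2 κ i‖ = 1 := by
    intro L k1 k2 κ i; simp only [hzz]; rw [norm_mul, norm_ee, norm_ee, one_mul]
  set W : ℕ → ℕ × ℕ × ℕ × ℕ × ℕ × ℕ → ℕ → ℝ → ℝ := fun L q i y =>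
    if 2 * RR L ≤ q.2.2.1 ∧ 2 * RR L + q.2.2.1 ≤ i ∧
      kap L (EE p (RR L) (tq p a L) y) i =
        kap L (EE p (RR L) (tq p a L) y) (i - q.2.2.1) + q.2.1 then
      et p a L q.1 (EE p (RR L) (tq p a L) y) (i - q.2.2.1) *
        (zz L q.2.2.2.1 q.2.2.2.2.1 (kap L (EE p (RR L) (tq p a L) y) (i - q.2.2.1))
          (i - q.2.2.1) * Complex.I ^ q.2.2.2.2.2).re else 0 with hW
  set S : ℕ → ℕ × ℕ × ℕ × ℕ × ℕ × ℕ → Set ℝ := fun L q =>
    {y | 2 * (RR L : ℝ) * (L : ℝ) ^ ((1 - 2 * a) / 2 + 3 / 2 * b) <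
        ∑ i ∈ Ico (2 * RR L) (L + 1), (pat (EE p (RR L) (tq p a L) y) (RR L) q.1 i -
          sgm p (RR L) (tq p a L) q.1 i) * W L q i y ∧
      ∑ i ∈ Ico (2 * RR L) (L + 1), sgm p (RR L) (tq p a L) q.1 i * (W L q i y) ^ 2 ≤
        (L : ℝ) ^ (1 - 2 * a + 2 * b)} with hS
  have hmain := fin_union (fun L => range (RR L + 1) ×ˢ range L ×ˢ range L ×ˢ range (3 * L) ×ˢ
      range (3 * L) ×ˢ range 4) S 7 (b / 2) (by linarith) (fun L => 2 * RR L)
    (by
      filter_upwards [ev_R 12 1 one_pos, eventually_ge_atTop 50] with L h1 h2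
      rw [Real.rpow_one] at h1
      have hL : (50 : ℝ) ≤ L := by exact_mod_cast h2
      simp only [Finset.card_product, Finset.card_range]
      push_cast
      have h3 : (1 : ℝ) ≤ RR L := by exact_mod_cast RR_pos L
      calc ((RR L : ℝ) + 1) * ((L : ℝ) * ((L : ℝ) * (3 * (L : ℝ) * (3 * (L : ℝ) * 4)))) *
            (2 * (RR L : ℝ)) ≤ (2 * (RR L : ℝ)) * ((L : ℝ) * ((L : ℝ) * (3 * (L : ℝ) *
              (3 * (L : ℝ) * 4)))) * (2 * (RR L : ℝ)) := by gcongr; linarith
        _ = (12 * (RR L : ℝ)) ^ 2 * (L : ℝ) ^ 4 := by ring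
        _ ≤ (L : ℝ) ^ 2 * (L : ℝ) ^ 4 := by gcongr
        _ = 1 * (L : ℝ) ^ 6 := by ring
        _ ≤ (L : ℝ) * (L : ℝ) ^ 6 := by gcongr; linarith
        _ = _ := by ring)
    (by
      filter_upwards [eventually_ge_atTop 1] with L hL
      rintro ⟨c, m, u, k1, k2, s⟩ _
      obtain ⟨hl0, hl1, hl2⟩ := par_exp L hL a b ha1 hb
      have key := block2 p (by omega) (RR L) (RR_pos L) (tq p a L) c (W L (c, m, u, k1, k2, s))
        ((L : ℝ) ^ (-((1 - 2 * a + 2 * b) / 2))) hl0 hl1
        (fun i hi => by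
          intro y y' h0 h0' he
          simp only [hW]
          by_cases hc : 2 * RR L ≤ u ∧ 2 * RR L + u ≤ i
          · have e1 : kap L (EE p (RR L) (tq p a L) y) i = kap L (EE p (RR L) (tq p a L) y') i :=
              cnt_dep (p := p) (R := RR L) (by omega) (tq p a L) (A := 0) (B := i - 2 * RR L)
                (n := i - RR L) (by omega) y y' h0 h0' he
            have e2 : kap L (EE p (RR L) (tq p a L) y) (i - u) =
                kap L (EE p (RR L) (tq p a L) y') (i - u) :=
              cnt_dep (p := p) (R := RR L) (by omega) (tq p a L) (A := 0) (B := i - u - 2 * RR L)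
                (n := i - RR L) (by omega) y y' h0 h0' he
            have e3 : et p a L c (EE p (RR L) (tq p a L) y) (i - u) =
                et p a L c (EE p (RR L) (tq p a L) y') (i - u) := by
              unfold et
              have := pat_dep (p := p) (R := RR L) (by omega) (tq p a L) (c := c) (i := i - u)
                (n := i - RR L) (by omega) y y' h0 h0' he
              simp only at this
              rw [this]
            rw [e1, e2, e3]
          · rw [if_neg (fun h => hc ⟨h.1, h.2.1⟩), if_neg (fun h => hc ⟨h.1, h.2.1⟩)])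
        (fun i y => by
          simp only [hW]
          split_ifs
          · rw [abs_mul]
            have h1 := et_abs_le_one p hp a L c (EE p (RR L) (tq p a L) y) (i - u)
            have h2 : |(zz L k1 k2 (kap L (EE p (RR L) (tq p a L) y) (i - u)) (i - u) *
                Complex.I ^ s).re| ≤ 1 := by
              refine (Complex.abs_re_le_norm _).trans ?_
              rw [norm_mul, hzn, norm_pow, Complex.norm_I]; simp
            calc _ ≤ (1 : ℝ) * 1 := by gcongr
              _ = 1 := one_mul _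
          · simp) (L + 1)
        ((L : ℝ) ^ ((1 - 2 * a) / 2 + 3 / 2 * b)) ((L : ℝ) ^ (1 - 2 * a + 2 * b))
      rw [hl2] at key
      push_cast
      exact key)
  filter_upwards [hmain, evD p hp a b ha ha1 hb] with y hy hyD
  filter_upwards [hy, hyD, var_ev p hp a b ha ha1 hb, ev_R 4 (b / 2) (by linarith),
    eventually_ge_atTop 1, ev_R 2 1 one_pos] with
    L h1 h2 h3 h4 h6 h7 c m u k1 k2 hc hm hu1 hu2 hk1 hk2
  have hL : (1 : ℝ) ≤ L := by exact_mod_cast h6
  rw [Real.rpow_one] at h7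
  have hRL : 2 * RR L ≤ L := by exact_mod_cast h7
  set E := EE p (RR L) (tq p a L) y with hE
  have h0E : 0 ∉ E := zero_notMem_EE p a ha L y
  have hvar := h3 E h0E h2
  have hRp := RR_pos L
  -- the variance
  have hV : ∀ s, ∑ i ∈ Ico (2 * RR L) (L + 1), sgm p (RR L) (tq p a L) c i *
      (W L (c, m, u, k1, k2, s) i y) ^ 2 ≤ (L : ℝ) ^ (1 - 2 * a + 2 * b) := by
    intro s
    refine le_trans ?_ hvar
    have h8 : ∀ i ∈ Ico (2 * RR L) (L + 1), sgm p (RR L) (tq p a L) c i *
        (W L (c, m, u, k1, k2, s) i y) ^ 2 ≤ if 2 * RR L + u ≤ i then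
          tau p a L (i - u) * ((ind E (i - u) : ℝ) + tau p a L (i - u)) else 0 := by
      intro i hi
      rw [Finset.mem_Ico] at hi
      have h9 := sgm_ctr p (RR L) (by omega) (tq p a L) c i
      by_cases hci : 2 * RR L + u ≤ i
      · rw [if_pos hci]
        have h10 : sgm p (RR L) (tq p a L) c i ≤ tau p a L (i - u) :=
          (sgm_le p (RR L) (by omega) (tq p a L) c i (tq_le p a ha L i) hc).trans
            (tau_anti p a ha L (i - u) i (by omega) (by omega))
        have h11 : (W L (c, m, u, k1, k2, s) i y) ^ 2 ≤ (ind E (i - u) : ℝ) + tau p a L (i - u) := by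
          simp only [hW]
          split_ifs
          · rw [mul_pow]
            have h12 : (zz L k1 k2 (kap L E (i - u)) (i - u) * Complex.I ^ s).re ^ 2 ≤ 1 := by
              rw [sq_le_one_iff_abs_le_one]
              refine (Complex.abs_re_le_norm _).trans ?_
              rw [norm_mul, hzn, norm_pow, Complex.norm_I]; simp
            have h13 := et_sq_le p hp a ha L c hc E (i - u)
            calc _ ≤ et p a L c E (i - u) ^ 2 * 1 := by gcongr
              _ ≤ _ := by rw [mul_one]; exact h13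
          · rw [zero_pow two_ne_zero]
            have := tau_nonneg p a L (i - u)
            positivity
        exact mul_le_mul h10 h11 (sq_nonneg _) (tau_nonneg _ _ _ _)
      · rw [if_neg hci]
        simp only [hW]
        rw [if_neg (fun h => hci h.2.1)]
        simp
    refine (Finset.sum_le_sum h8).trans ?_
    rw [← Finset.sum_filter]
    have h14 : (Ico (2 * RR L) (L + 1)).filter (fun i => 2 * RR L + u ≤ i) =
        Ico (2 * RR L + u) (L + 1) := by
      ext i; simp only [Finset.mem_filter, Finset.mem_Ico]; omega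
    rw [h14]
    apply shift_sum (fun j => tau p a L j * ((ind E j : ℝ) + tau p a L j)) _ _ u
      (2 * RR L + u) L (by omega)
    · intro i
      have := tau_nonneg p a L i
      positivity
    · simp [tau_zero p a ha]
  have key := four_parts (∑ i ∈ Ico (2 * RR L) (L + 1 - u),
    ((wt (et p a L c E) (kap L E) m u i : ℝ) : ℂ) * (ee ((k1 : ℝ) * (kap L E i : ℕ) / (3 * L)) *
      ee ((k2 : ℝ) * i / (3 * L)))) (2 * (RR L : ℝ) * (L : ℝ) ^ ((1 - 2 * a) / 2 + 3 / 2 * b)) (by
    intro s hs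
    have hq : (c, m, u, k1, k2, s) ∈ range (RR L + 1) ×ˢ range L ×ˢ range L ×ˢ range (3 * L) ×ˢ
        range (3 * L) ×ˢ range 4 := by
      simp only [Finset.mem_product, Finset.mem_range]
      omega
    have h8 := h1 _ hq
    simp only [hS, Set.mem_ofPred_eq, not_and] at h8
    by_contra h9
    push Not at h9
    refine h8 (lt_of_lt_of_le h9 (le_of_eq ?_)) (hV s)
    rw [Finset.sum_mul, Complex.re_sum]
    have h10 : ∑ i ∈ Ico (2 * RR L) (L + 1), (pat E (RR L) c i - sgm p (RR L) (tq p a L) c i) *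
        W L (c, m, u, k1, k2, s) i y = ∑ i ∈ Ico (2 * RR L + u) (L + 1),
        (pat E (RR L) c i - sgm p (RR L) (tq p a L) c i) * W L (c, m, u, k1, k2, s) i y := by
      symm
      apply Finset.sum_subset
      · intro i hi; rw [Finset.mem_Ico] at *; omega
      · intro i hi hni
        rw [Finset.mem_Ico] at *
        simp only [hW]
        rw [if_neg (fun h => hni ⟨h.2.1, hi.2⟩), mul_zero]
    rw [h10]
    have h11 : Ico (2 * RR L + u) (L + 1) = Ico (2 * RR L + u) ((L + 1 - u) + u) := by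
      congr 1; omega
    rw [h11, ← Finset.sum_Ico_add']
    refine Finset.sum_congr rfl fun i hi => ?_
    rw [Finset.mem_Ico] at hi
    simp only [hW, Nat.add_sub_cancel]
    unfold wt
    by_cases hcc : kap L E (i + u) = kap L E i + m
    · rw [if_pos hcc, if_pos ⟨hu1, by omega, hcc⟩]
      rw [mul_assoc, Complex.re_ofReal_mul]
      simp only [hzz]
      unfold et
      ring
    · rw [if_neg hcc, if_neg (fun h => hcc h.2.2)]
      simp)
  refine key.trans ?_
  calc 2 * (2 * (RR L : ℝ) * (L : ℝ) ^ ((1 - 2 * a) / 2 + 3 / 2 * b))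
      = (4 * (RR L : ℝ)) * (L : ℝ) ^ ((1 - 2 * a) / 2 + 3 / 2 * b) := by ring
    _ ≤ (L : ℝ) ^ (b / 2) * (L : ℝ) ^ ((1 - 2 * a) / 2 + 3 / 2 * b) := by gcongr
    _ = (L : ℝ) ^ ((1 - 2 * a) / 2 + 2 * b) := by
        rw [← Real.rpow_add (by linarith)]; congr 1; ring
    _ ≤ _ := by
        apply Real.rpow_le_rpow_of_exponent_le hL
        linarith

end Pool.Agent.H238.SR
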