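import Pool.Agent.H238.SR.Nu

/-! The exponential martingale inequality along the digits. -/

set_option autoImplicit false

noncomputable section

namespace Pool.Agent.H238.SR

open MeasureTheory Finset

lemma exp_step (P : ℕ) (hP : 0 < P) (h : ℕ → ℝ) (w v l : ℝ) (hl : |l * w| ≤ 1)
    (hh : ∀ m < P, |h m| ≤ 1) (h0 : ∑ m ∈ range P, h m = 0)
    (hv : (∑ m ∈ range P, (h m) ^ 2) / P ≤ v) :
    (∑ m ∈ range P, ENNReal.ofReal (Real.exp (l * (h m * w) - l ^ 2 * (v * w ^ 2)))) / P ≤ 1 := by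
  have hP' : (0 : ℝ) < P := by exact_mod_cast hP
  have key : ∑ m ∈ range P, Real.exp (l * (h m * w) - l ^ 2 * (v * w ^ 2)) ≤ P := by
    have h1 : ∀ m ∈ range P, Real.exp (l * (h m * w) - l ^ 2 * (v * w ^ 2)) ≤
        Real.exp (-(l ^ 2 * (v * w ^ 2))) * (1 + (l * w) * h m + (l * w) ^ 2 * (h m) ^ 2) := by
      intro m hm
      rw [Finset.mem_range] at hm
      have hx : |l * w * h m| ≤ 1 := by
        rw [abs_mul]
        calc |l * w| * |h m| ≤ 1 * 1 := by gcongr; exact hh m hm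
          _ = 1 := by ring
      have := Real.abs_exp_sub_one_sub_id_le hx
      have h2 : Real.exp (l * w * h m) ≤ 1 + (l * w) * h m + (l * w) ^ 2 * (h m) ^ 2 := by
        have := (abs_le.1 this).2
        nlinarith
      rw [show l * (h m * w) - l ^ 2 * (v * w ^ 2) = -(l ^ 2 * (v * w ^ 2)) + l * w * h m by ring,
        Real.exp_add]
      gcongr
    calc ∑ m ∈ range P, Real.exp (l * (h m * w) - l ^ 2 * (v * w ^ 2))
        ≤ ∑ m ∈ range P, Real.exp (-(l ^ 2 * (v * w ^ 2))) *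
            (1 + (l * w) * h m + (l * w) ^ 2 * (h m) ^ 2) := Finset.sum_le_sum h1
      _ = Real.exp (-(l ^ 2 * (v * w ^ 2))) * (P + (l * w) ^ 2 * ∑ m ∈ range P, (h m) ^ 2) := by
          rw [← Finset.mul_sum, Finset.sum_add_distrib, Finset.sum_add_distrib, ← Finset.mul_sum,
            ← Finset.mul_sum, h0]
          simp
      _ ≤ Real.exp (-(l ^ 2 * (v * w ^ 2))) * (P * Real.exp (l ^ 2 * (v * w ^ 2))) := by
          gcongr
          have h3 : ∑ m ∈ range P, (h m) ^ 2 ≤ v * P := by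
            rwa [div_le_iff₀ hP'] at hv
          have h4 := Real.add_one_le_exp (l ^ 2 * (v * w ^ 2))
          nlinarith [mul_le_mul_of_nonneg_left h3 (sq_nonneg (l * w))]
      _ = P := by
          rw [mul_comm (P : ℝ), ← mul_assoc, ← Real.exp_add]; simp
  rw [← ENNReal.ofReal_sum_of_nonneg (fun _ _ => (Real.exp_pos _).le)]
  apply ENNReal.div_le_of_le_mul
  rw [one_mul]
  calc ENNReal.ofReal _ ≤ ENNReal.ofReal (P : ℝ) := ENNReal.ofReal_le_ofReal key
    _ = P := ENNReal.ofReal_natCast P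

theorem expo (p : ℕ) (hp : 0 < p) (K j0 : ℕ) (h : ℕ → ℕ → ℝ) (W : ℕ → ℝ → ℝ) (v : ℕ → ℝ)
    (l : ℝ) (hl0 : 0 ≤ l) (hl1 : l ≤ 1) (hh : ∀ q, ∀ m < p ^ K, |h q m| ≤ 1)
    (h0 : ∀ q, ∑ m ∈ range (p ^ K), h q m = 0)
    (hv : ∀ q, (∑ m ∈ range (p ^ K), (h q m) ^ 2) / ((p ^ K : ℕ) : ℝ) ≤ v q)
    (hW : ∀ q, Dep p (j0 + K * q) (W q)) (hW1 : ∀ q y, |W q y| ≤ 1) (Q : ℕ) :
    ∫⁻ y, ENNReal.ofReal (Real.exp
      (l * (∑ q ∈ range Q, h q (nu p (j0 + K * (q + 1)) y % p ^ K) * W q y) -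
        l ^ 2 * ∑ q ∈ range Q, v q * (W q y) ^ 2)) ∂lam ≤ 1 := by
  induction Q with
  | zero => simp
  | succ Q ih =>
    set A : ℝ → ℝ := fun y => l * (∑ q ∈ range Q, h q (nu p (j0 + K * (q + 1)) y % p ^ K) * W q y) -
        l ^ 2 * ∑ q ∈ range Q, v q * (W q y) ^ 2 with hA
    have hAd : Dep p (j0 + K * Q) (fun y => (A y, W Q y)) := by
      intro y y' hy hy' he
      have e1 : ∀ q ∈ range Q, W q y = W q y' := by
        intro q hq
        rw [Finset.mem_range] at hq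
        exact (hW q).mono hp (by nlinarith : j0 + K * q ≤ j0 + K * Q) y y' hy hy' he
      have e2 : ∀ q ∈ range Q, nu p (j0 + K * (q + 1)) y = nu p (j0 + K * (q + 1)) y' := by
        intro q hq
        rw [Finset.mem_range] at hq
        have : Dep p (j0 + K * (q + 1)) (fun y => nu p (j0 + K * (q + 1)) y) :=
          fun _ _ _ _ h => h
        exact this.mono hp (by nlinarith : j0 + K * (q + 1) ≤ j0 + K * Q) y y' hy hy' he
      simp only [hA, Prod.mk.injEq]
      refine ⟨?_, hW Q y y' hy hy' he⟩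
      rw [Finset.sum_congr rfl (fun q hq => by rw [e1 q hq, e2 q hq]),
        Finset.sum_congr rfl (fun q hq => by rw [e1 q hq] :
          ∀ q ∈ range Q, v q * (W q y) ^ 2 = v q * (W q y') ^ 2)]
    obtain ⟨φ, hφ⟩ := hAd.factor hp
    set ψ : ℕ → ℕ → ENNReal := fun s m => ENNReal.ofReal (Real.exp (φ s).1) *
      ENNReal.ofReal (Real.exp (l * (h Q m * (φ s).2) - l ^ 2 * (v Q * (φ s).2 ^ 2))) with hψ
    have hφ1 : ∀ y, 0 ≤ y → (φ (nu p (j0 + K * Q) y)).1 = A y := fun y hy => by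
      rw [← hφ y hy]
    have hφ2 : ∀ y, 0 ≤ y → (φ (nu p (j0 + K * Q) y)).2 = W Q y := fun y hy => by
      rw [← hφ y hy]
    calc ∫⁻ y, ENNReal.ofReal (Real.exp
          (l * (∑ q ∈ range (Q + 1), h q (nu p (j0 + K * (q + 1)) y % p ^ K) * W q y) -
            l ^ 2 * ∑ q ∈ range (Q + 1), v q * (W q y) ^ 2)) ∂lam
        = ∫⁻ y, ψ (nu p (j0 + K * Q) y) (nu p (j0 + K * Q + K) y % p ^ K) ∂lam := by
          apply lintegral_congr_ae
          filter_upwards [ae_nonneg] with y hy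
          simp only [hψ]
          rw [hφ1 y hy, hφ2 y hy, ← ENNReal.ofReal_mul (Real.exp_pos _).le, ← Real.exp_add,
            Finset.sum_range_succ, Finset.sum_range_succ]
          congr 2
          simp only [hA]
          rw [show j0 + K * (Q + 1) = j0 + K * Q + K by ring]
          ring
      _ = ∫⁻ y, (∑ m ∈ range (p ^ K), ψ (nu p (j0 + K * Q) y) m) / (p : ENNReal) ^ K ∂lam :=
          lint_next p (j0 + K * Q) K hp ψ
      _ ≤ ∫⁻ y, ENNReal.ofReal (Real.exp (A y)) ∂lam := by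
          apply lintegral_mono_ae
          filter_upwards [ae_nonneg] with y hy
          simp only [hψ]
          rw [← Finset.mul_sum, mul_div_assoc, hφ1 y hy, hφ2 y hy]
          calc ENNReal.ofReal (Real.exp (A y)) * _ ≤ ENNReal.ofReal (Real.exp (A y)) * 1 := by
                gcongr
                have := exp_step (p ^ K) (pow_pos hp K) (h Q) (W Q y) (v Q) l (by
                  rw [abs_mul, abs_of_nonneg hl0]
                  calc l * |W Q y| ≤ 1 * 1 := by gcongr; exact hW1 Q y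
                    _ = 1 := by ring) (hh Q) (h0 Q) (hv Q)
                rw [Nat.cast_pow] at this
                exact this
            _ = _ := by rw [mul_one]
      _ ≤ 1 := ih

/-- the probability bound -/
theorem expo_prob (p : ℕ) (hp : 0 < p) (K j0 : ℕ) (h : ℕ → ℕ → ℝ) (W : ℕ → ℝ → ℝ) (v : ℕ → ℝ)
    (l : ℝ) (hl0 : 0 ≤ l) (hl1 : l ≤ 1) (hh : ∀ q, ∀ m < p ^ K, |h q m| ≤ 1)
    (h0 : ∀ q, ∑ m ∈ range (p ^ K), h q m = 0)
    (hv : ∀ q, (∑ m ∈ range (p ^ K), (h q m) ^ 2) / ((p ^ K : ℕ) : ℝ) ≤ v q)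
    (hW : ∀ q, Dep p (j0 + K * q) (W q)) (hW1 : ∀ q y, |W q y| ≤ 1) (Q : ℕ) (B V : ℝ) :
    lam {y | B ≤ ∑ q ∈ range Q, h q (nu p (j0 + K * (q + 1)) y % p ^ K) * W q y ∧
      ∑ q ∈ range Q, v q * (W q y) ^ 2 ≤ V} ≤ ENNReal.ofReal (Real.exp (l ^ 2 * V - l * B)) := by
  set F : ℝ → ℝ := fun y => l * (∑ q ∈ range Q, h q (nu p (j0 + K * (q + 1)) y % p ^ K) * W q y) -
        l ^ 2 * ∑ q ∈ range Q, v q * (W q y) ^ 2 with hF
  have hFd : Dep p (j0 + K * Q) (fun y => ENNReal.ofReal (Real.exp (F y))) := by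
    intro y y' hy hy' he
    have e1 : ∀ q ∈ range Q, W q y = W q y' := by
      intro q hq
      rw [Finset.mem_range] at hq
      exact (hW q).mono hp (by nlinarith : j0 + K * q ≤ j0 + K * Q) y y' hy hy' he
    have e2 : ∀ q ∈ range Q, nu p (j0 + K * (q + 1)) y = nu p (j0 + K * (q + 1)) y' := by
      intro q hq
      rw [Finset.mem_range] at hq
      have : Dep p (j0 + K * (q + 1)) (fun y => nu p (j0 + K * (q + 1)) y) :=
        fun _ _ _ _ h => h
      exact this.mono hp (by nlinarith : j0 + K * (q + 1) ≤ j0 + K * Q) y y' hy hy' he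
    simp only [hF]
    rw [Finset.sum_congr rfl (fun q hq => by rw [e1 q hq, e2 q hq]),
      Finset.sum_congr rfl (fun q hq => by rw [e1 q hq] :
        ∀ q ∈ range Q, v q * (W q y) ^ 2 = v q * (W q y') ^ 2)]
  have hint := expo p hp K j0 h W v l hl0 hl1 hh h0 hv hW hW1 Q
  calc lam {y | B ≤ ∑ q ∈ range Q, h q (nu p (j0 + K * (q + 1)) y % p ^ K) * W q y ∧
      ∑ q ∈ range Q, v q * (W q y) ^ 2 ≤ V}
      ≤ lam {y | ENNReal.ofReal (Real.exp (l * B - l ^ 2 * V)) ≤
          ENNReal.ofReal (Real.exp (F y))} := by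
        apply measure_mono
        rintro y ⟨h1, h2⟩
        simp only [Set.mem_ofPred_eq]
        apply ENNReal.ofReal_le_ofReal
        apply Real.exp_le_exp.2
        simp only [hF]
        have := mul_le_mul_of_nonneg_left h1 hl0
        have := mul_le_mul_of_nonneg_left h2 (sq_nonneg l)
        linarith
    _ ≤ (∫⁻ y, ENNReal.ofReal (Real.exp (F y)) ∂lam) /
          ENNReal.ofReal (Real.exp (l * B - l ^ 2 * V)) :=
        meas_ge_le_lintegral_div (hFd.aemeas hp) (by positivity) ENNReal.ofReal_ne_top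
    _ ≤ 1 / ENNReal.ofReal (Real.exp (l * B - l ^ 2 * V)) := by gcongr
    _ = ENNReal.ofReal (Real.exp (l ^ 2 * V - l * B)) := by
        rw [one_div, ← ENNReal.ofReal_inv_of_pos (Real.exp_pos _), ← Real.exp_neg]
        congr 2; ring

end Pool.Agent.H238.SR
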