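import Pool.Agent.H238.SR.Er3

/-! The pointwise theorem for one good set of return times. -/

set_option autoImplicit false

noncomputable section

namespace Pool.Agent.H238.SR

open MeasureTheory Finset Filter Topology
open scoped ENNReal
open Pool.Agent.H505RS (pw ee Sy Bd en)

universe u

/-- good sets, with a fixed choice of the small parameter -/
def Good (p : ℕ) (a : ℝ) (E : Set ℕ) : Prop := GoodE p a (min a (1 / 2 - a) / 20) E

lemma bd_case (p : ℕ) (hp : 2 ≤ p) (a : ℝ) (ha : 0 < a) (ha1 : a < 1 / 2) (E : Set ℕ)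
    (hE : Good p a E) (X : Type u) [MeasurableSpace X]
    (μ : Measure X) (T S : X → X) (f g : X → ℝ) (hsy : Sy μ T S) (hf : Bd f) (hg : Bd g) :
    ∀ᵐ x ∂μ, Tendsto (fun N : ℕ => (∑ k ∈ Ioc 0 N, f (T^[k] x) * g (S^[en E k] x)) / (N : ℝ))
      atTop (𝓝 ((μ[f | MeasurableSpace.invariants T]) x *
        (μ[g | MeasurableSpace.invariants S]) x)) := by
  have hP := hsy.prob
  have hm : MeasurableSpace.invariants S ≤ (inferInstance : MeasurableSpace X) :=
    MeasurableSpace.invariants_le S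
  set e : X → ℝ := μ[g | MeasurableSpace.invariants S] with he
  have hesm : StronglyMeasurable[MeasurableSpace.invariants S] e := stronglyMeasurable_condExp
  have hem : Measurable[MeasurableSpace.invariants S] e := hesm.measurable
  let c : ℝ → ℝ := fun y => max (-1) (min 1 y)
  have hc : Measurable c := by fun_prop
  let g1 : X → ℝ := fun x => c (e x)
  have hg1m : Measurable[MeasurableSpace.invariants S] g1 := hc.comp hem
  have hg1m' : Measurable g1 := hg1m.mono hm le_rfl
  have hg1b : ∀ x, |g1 x| ≤ 1 := by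
    intro x
    simp only [g1, c]
    rw [abs_le]
    constructor
    · exact le_max_left _ _
    · exact max_le (by norm_num) (min_le_left _ _)
  have hinv : ∀ x, g1 (S x) = g1 x := by
    intro x
    have := MeasurableSpace.comp_eq_of_measurable_invariants hg1m
    exact congrFun this x
  have hinvk : ∀ (k : ℕ) x, g1 (S^[k] x) = g1 x := by
    intro k
    induction k with
    | zero => intro x; rfl
    | succ k ih => intro x; rw [Function.iterate_succ_apply, ih, hinv]
  have hgi : Integrable g μ := Integrable.of_bound hg.1.aestronglyMeasurable 1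
    (Eventually.of_forall (fun x => by rw [Real.norm_eq_abs]; exact hg.2 x))
  have hg1i : Integrable g1 μ := Integrable.of_bound hg1m'.aestronglyMeasurable 1
    (Eventually.of_forall (fun x => by rw [Real.norm_eq_abs]; exact hg1b x))
  have hebd : ∀ᵐ x ∂μ, |e x| ≤ 1 := by
    have := ae_bdd_condExp_of_ae_bdd (m := MeasurableSpace.invariants S) (R := 1) (μ := μ)
      (f := g) (Eventually.of_forall (fun x => by simpa using hg.2 x))
    simpa using this
  have hg1e : g1 =ᵐ[μ] e := by
    filter_upwards [hebd] with x hx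
    simp only [g1, c]
    rw [abs_le] at hx
    rw [min_eq_right hx.2, max_eq_right hx.1]
  let g0 : X → ℝ := fun x => (g x - g1 x) / 2
  have hg0 : Bd g0 := by
    refine ⟨(hg.1.sub hg1m').div_const 2, ?_⟩
    intro x
    simp only [g0]
    have h3 := hg.2 x
    have h4 := hg1b x
    rw [abs_le] at h3 h4 ⊢
    constructor <;> linarith
  have hce : μ[g0 | MeasurableSpace.invariants S] =ᵐ[μ] 0 := by
    have e1 : g0 = (1 / 2 : ℝ) • (g - g1) := by
      funext x
      simp only [g0, Pi.smul_apply, Pi.sub_apply, smul_eq_mul]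
      ring
    have e2 : μ[g0 | MeasurableSpace.invariants S] =ᵐ[μ]
        (1 / 2 : ℝ) • μ[g - g1 | MeasurableSpace.invariants S] := by
      rw [e1]
      exact condExp_smul _ _ _
    have e3 := condExp_sub hgi hg1i (MeasurableSpace.invariants S)
    have e4 : μ[g1 | MeasurableSpace.invariants S] = g1 :=
      condExp_of_stronglyMeasurable hm hg1m.stronglyMeasurable hg1i
    filter_upwards [e2, e3, hg1e] with x h5 h6 h7
    rw [h5, Pi.smul_apply, h6, Pi.sub_apply, e4, h7]
    simp [he]
  have hb : 0 < min a (1 / 2 - a) / 20 := by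
    have : 0 < min a (1 / 2 - a) := lt_min ha (by linarith)
    linarith
  have h1 := zero_case p hp a (min a (1 / 2 - a) / 20) ha ha1 hb
    (by have := min_le_right a (1 / 2 - a); linarith)
    (by have := min_le_left a (1 / 2 - a); linarith) E hE X μ T S f g0 hsy hf hg0 hce
  have h2 := Pool.Agent.H505RS.t_BPE.{u} X μ T f hP hsy.mT hf.1 ⟨1, hf.2⟩
  filter_upwards [h1, h2, hg1e] with x h3 h4 h5
  have h6 := (h3.const_mul 2).add (h4.mul_const (g1 x))
  rw [mul_zero, zero_add, h5] at h6
  refine h6.congr ?_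
  intro N
  rw [← mul_div_assoc, div_mul_eq_mul_div, ← add_div]
  congr 1
  rw [Finset.mul_sum, Finset.sum_mul, ← Finset.sum_add_distrib]
  apply Finset.sum_congr rfl
  intro k _
  have h7 := hinvk (en E k) x
  simp only [g0]
  rw [h7, ← h5]
  ring

lemma real_case (p : ℕ) (hp : 2 ≤ p) (a : ℝ) (ha : 0 < a) (ha1 : a < 1 / 2) (E : Set ℕ)
    (hE : Good p a E) (X : Type u) [MeasurableSpace X]
    (μ : Measure X) (T S : X → X) (f g : X → ℝ) (hsy : Sy μ T S) (hf : Measurable f)
    (hg : Measurable g) (hfb : ∃ C, ∀ x, |f x| ≤ C) (hgb : ∃ C, ∀ x, |g x| ≤ C) :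
    ∀ᵐ x ∂μ, Tendsto (fun N : ℕ => (∑ k ∈ Ioc 0 N, f (T^[k] x) * g (S^[en E k] x)) / (N : ℝ))
      atTop (𝓝 ((μ[f | MeasurableSpace.invariants T]) x *
        (μ[g | MeasurableSpace.invariants S]) x)) := by
  obtain ⟨C, hC⟩ := hfb
  obtain ⟨D, hD⟩ := hgb
  have hP := hsy.prob
  set C' : ℝ := |C| + 1 with hC'
  set D' : ℝ := |D| + 1 with hD'
  have hCp : 0 < C' := by positivity
  have hDp : 0 < D' := by positivity
  have hbf : Bd (C'⁻¹ • f) := by
    refine ⟨hf.const_smul _, ?_⟩
    intro x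
    rw [Pi.smul_apply, smul_eq_mul, abs_mul, abs_inv, abs_of_pos hCp, inv_mul_le_iff₀ hCp]
    have := hC x
    have := le_abs_self C
    linarith
  have hbg : Bd (D'⁻¹ • g) := by
    refine ⟨hg.const_smul _, ?_⟩
    intro x
    rw [Pi.smul_apply, smul_eq_mul, abs_mul, abs_inv, abs_of_pos hDp, inv_mul_le_iff₀ hDp]
    have := hD x
    have := le_abs_self D
    linarith
  have h := bd_case p hp a ha ha1 E hE X μ T S _ _ hsy hbf hbg
  have e1 := condExp_smul (μ := μ) C'⁻¹ f (MeasurableSpace.invariants T)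
  have e2 := condExp_smul (μ := μ) D'⁻¹ g (MeasurableSpace.invariants S)
  filter_upwards [h, e1, e2] with x h3 h4 h5
  rw [h4, h5] at h3
  have h6 := h3.const_mul (C' * D')
  have e3 : C' * D' * ((C'⁻¹ • μ[f | MeasurableSpace.invariants T]) x *
      (D'⁻¹ • μ[g | MeasurableSpace.invariants S]) x) =
      (μ[f | MeasurableSpace.invariants T]) x * (μ[g | MeasurableSpace.invariants S]) x := by
    simp only [Pi.smul_apply, smul_eq_mul]
    field_simp
  rw [e3] at h6
  refine h6.congr ?_
  intro N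
  rw [← mul_div_assoc]
  congr 1
  rw [Finset.mul_sum]
  apply Finset.sum_congr rfl
  intro k _
  simp only [Pi.smul_apply, smul_eq_mul]
  field_simp

/-- pointwise convergence for complex measurable bounded functions -/
lemma cpx (p : ℕ) (hp : 2 ≤ p) (a : ℝ) (ha : 0 < a) (ha1 : a < 1 / 2) (E : Set ℕ)
    (hE : Good p a E) (X : Type u) [MeasurableSpace X]
    (μ : Measure X) (T S : X → X) (f g : X → ℂ)
    (hS : Sy μ T S) (hf : Measurable f) (hg : Measurable g) (C : ℝ) (hfC : ∀ x, ‖f x‖ ≤ C)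
    (hgC : ∀ x, ‖g x‖ ≤ C) :
    ∀ᵐ x ∂μ, Tendsto (fun N : ℕ => (∑ k ∈ Ioc 0 N, f (T^[k] x) * g (S^[en E k] x)) / (N : ℂ))
      atTop (𝓝 ((μ[f | MeasurableSpace.invariants T]) x *
        (μ[g | MeasurableSpace.invariants S]) x)) := by
  have := hS.prob
  have hfi : Integrable f μ := Integrable.of_bound hf.aestronglyMeasurable C
    (Filter.Eventually.of_forall hfC)
  have hgi : Integrable g μ := Integrable.of_bound hg.aestronglyMeasurable C
    (Filter.Eventually.of_forall hgC)
  have hre : ∀ z : ℂ, |z.re| ≤ ‖z‖ := Complex.abs_re_le_norm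
  have him : ∀ z : ℂ, |z.im| ≤ ‖z‖ := Complex.abs_im_le_norm
  have hfr : Measurable (fun x => (f x).re) := Complex.measurable_re.comp hf
  have hfm : Measurable (fun x => (f x).im) := Complex.measurable_im.comp hf
  have hgr : Measurable (fun x => (g x).re) := Complex.measurable_re.comp hg
  have hgm : Measurable (fun x => (g x).im) := Complex.measurable_im.comp hg
  have bfr : ∃ C, ∀ x, |(f x).re| ≤ C := ⟨C, fun x => (hre _).trans (hfC x)⟩
  have bfm : ∃ C, ∀ x, |(f x).im| ≤ C := ⟨C, fun x => (him _).trans (hfC x)⟩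
  have bgr : ∃ C, ∀ x, |(g x).re| ≤ C := ⟨C, fun x => (hre _).trans (hgC x)⟩
  have bgm : ∃ C, ∀ x, |(g x).im| ≤ C := ⟨C, fun x => (him _).trans (hgC x)⟩
  have key := real_case p hp a ha ha1 E hE X μ T S
  have c1 := Complex.reCLM.comp_condExp_comm (m := MeasurableSpace.invariants T) hfi
  have c2 := Complex.imCLM.comp_condExp_comm (m := MeasurableSpace.invariants T) hfi
  have c3 := Complex.reCLM.comp_condExp_comm (m := MeasurableSpace.invariants S) hgi
  have c4 := Complex.imCLM.comp_condExp_comm (m := MeasurableSpace.invariants S) hgi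
  filter_upwards [key _ _ hS hfr hgr bfr bgr, key _ _ hS hfr hgm bfr bgm,
    key _ _ hS hfm hgr bfm bgr, key _ _ hS hfm hgm bfm bgm, c1, c2, c3, c4] with x h1 h2 h3 h4
      d1 d2 d3 d4
  have e1 : (μ[fun x => (f x).re | MeasurableSpace.invariants T]) x =
      ((μ[f | MeasurableSpace.invariants T]) x).re := d1.symm
  have e2 : (μ[fun x => (f x).im | MeasurableSpace.invariants T]) x =
      ((μ[f | MeasurableSpace.invariants T]) x).im := d2.symm
  have e3 : (μ[fun x => (g x).re | MeasurableSpace.invariants S]) x =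
      ((μ[g | MeasurableSpace.invariants S]) x).re := d3.symm
  have e4 : (μ[fun x => (g x).im | MeasurableSpace.invariants S]) x =
      ((μ[g | MeasurableSpace.invariants S]) x).im := d4.symm
  rw [e1, e3] at h1
  rw [e1, e4] at h2
  rw [e2, e3] at h3
  rw [e2, e4] at h4
  have hR := h1.sub h4
  have hI := h2.add h3
  have hz : ∀ N : ℕ, (∑ k ∈ Ioc 0 N, f (T^[k] x) * g (S^[en E k] x)) / (N : ℂ) =
      (((∑ k ∈ Ioc 0 N, (f (T^[k] x)).re * (g (S^[en E k] x)).re) / (N : ℝ) -
        (∑ k ∈ Ioc 0 N, (f (T^[k] x)).im * (g (S^[en E k] x)).im) / (N : ℝ) : ℝ) : ℂ) +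
      (((∑ k ∈ Ioc 0 N, (f (T^[k] x)).re * (g (S^[en E k] x)).im) / (N : ℝ) +
        (∑ k ∈ Ioc 0 N, (f (T^[k] x)).im * (g (S^[en E k] x)).re) / (N : ℝ) : ℝ) : ℂ) *
        Complex.I := by
    intro N
    rw [← sub_div, ← add_div, ← Finset.sum_sub_distrib, ← Finset.sum_add_distrib]
    push_cast
    rw [div_mul_eq_mul_div, ← add_div, Finset.sum_mul, ← Finset.sum_add_distrib]
    congr 1
    refine Finset.sum_congr rfl fun k _ => ?_
    apply Complex.ext <;> simp
  have hR' : Tendsto (fun N : ℕ => (((∑ k ∈ Ioc 0 N, (f (T^[k] x)).re *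
      (g (S^[en E k] x)).re) / (N : ℝ) -
        (∑ k ∈ Ioc 0 N, (f (T^[k] x)).im * (g (S^[en E k] x)).im) / (N : ℝ) : ℝ) : ℂ))
      atTop (𝓝 ((((μ[f | MeasurableSpace.invariants T]) x).re *
        ((μ[g | MeasurableSpace.invariants S]) x).re - ((μ[f | MeasurableSpace.invariants T]) x).im *
        ((μ[g | MeasurableSpace.invariants S]) x).im : ℝ) : ℂ)) :=
    (Complex.continuous_ofReal.tendsto _).comp hR
  have hI' : Tendsto (fun N : ℕ => (((∑ k ∈ Ioc 0 N, (f (T^[k] x)).re *
      (g (S^[en E k] x)).im) / (N : ℝ) +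
        (∑ k ∈ Ioc 0 N, (f (T^[k] x)).im * (g (S^[en E k] x)).re) / (N : ℝ) : ℝ) : ℂ))
      atTop (𝓝 ((((μ[f | MeasurableSpace.invariants T]) x).re *
        ((μ[g | MeasurableSpace.invariants S]) x).im + ((μ[f | MeasurableSpace.invariants T]) x).im *
        ((μ[g | MeasurableSpace.invariants S]) x).re : ℝ) : ℂ)) :=
    (Complex.continuous_ofReal.tendsto _).comp hI
  have hT := hR'.add (hI'.mul_const Complex.I)
  simp_rw [hz]
  convert hT using 2
  apply Complex.ext <;> simp

/-- bounded measurable versions -/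
lemma version {X : Type u} [MeasurableSpace X] (μ : Measure X) (h : X → ℂ) (hh : MemLp h ⊤ μ) :
    ∃ (h' : X → ℂ) (C : ℝ), Measurable h' ∧ (∀ x, ‖h' x‖ ≤ C) ∧ h =ᵐ[μ] h' := by
  obtain ⟨C, hC⟩ : ∃ C : ℝ, ∀ᵐ x ∂μ, ‖h x‖ ≤ C := by
    refine ⟨(eLpNorm h ⊤ μ).toReal, ?_⟩
    have h1 := hh.2
    rw [eLpNorm_exponent_top] at h1 ⊢
    filter_upwards [ae_le_eLpNormEssSup (f := h) (μ := μ)] with x hx
    have := ENNReal.toReal_mono h1.ne hx
    simpa using this
  have hm := hh.1
  set h0 : X → ℂ := hm.mk h with hh0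
  have hm0 : Measurable h0 := hm.stronglyMeasurable_mk.measurable
  have he0 : h =ᵐ[μ] h0 := hm.ae_eq_mk
  refine ⟨fun x => if ‖h0 x‖ ≤ C then h0 x else 0, |C|, ?_, ?_, ?_⟩
  · exact Measurable.ite (measurableSet_le hm0.norm measurable_const) hm0 measurable_const
  · intro x
    simp only
    split_ifs with hx
    · exact hx.trans (le_abs_self C)
    · simp
  · filter_upwards [hC, he0] with x h1 h2
    rw [h2] at h1
    simp only [h1, if_true]
    exact h2

/-- pointwise convergence for essentially bounded functions -/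
theorem linf (p : ℕ) (hp : 2 ≤ p) (a : ℝ) (ha : 0 < a) (ha1 : a < 1 / 2) (E : Set ℕ)
    (hE : Good p a E) (X : Type u) [MeasurableSpace X]
    (μ : Measure X) (T S : X → X) (f g : X → ℂ)
    (hS : Sy μ T S) (hf : MemLp f ⊤ μ) (hg : MemLp g ⊤ μ) :
    ∀ᵐ x ∂μ, Tendsto (fun N : ℕ => (∑ k ∈ Ioc 0 N, f (T^[k] x) * g (S^[en E k] x)) / (N : ℂ))
      atTop (𝓝 ((μ[f | MeasurableSpace.invariants T]) x *
        (μ[g | MeasurableSpace.invariants S]) x)) := by
  have := hS.prob
  obtain ⟨f', C1, hf'm, hf'C, hff⟩ := version μ f hf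
  obtain ⟨g', C2, hg'm, hg'C, hgg⟩ := version μ g hg
  have main := cpx p hp a ha ha1 E hE X μ T S f' g' hS hf'm hg'm (max C1 C2)
    (fun x => (hf'C x).trans (le_max_left _ _)) (fun x => (hg'C x).trans (le_max_right _ _))
  have hfT : ∀ᵐ x ∂μ, ∀ n : ℕ, f (T^[n] x) = f' (T^[n] x) := by
    rw [ae_all_iff]
    intro n
    exact (hS.mT.iterate n).quasiMeasurePreserving.ae_eq_comp hff
  have hgS : ∀ᵐ x ∂μ, ∀ n : ℕ, g (S^[n] x) = g' (S^[n] x) := by
    rw [ae_all_iff]
    intro n
    exact (hS.mS.iterate n).quasiMeasurePreserving.ae_eq_comp hgg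
  have ef : (μ[f | MeasurableSpace.invariants T]) =ᵐ[μ] (μ[f' | MeasurableSpace.invariants T]) :=
    condExp_congr_ae hff
  have eg : (μ[g | MeasurableSpace.invariants S]) =ᵐ[μ] (μ[g' | MeasurableSpace.invariants S]) :=
    condExp_congr_ae hgg
  filter_upwards [main, hfT, hgS, ef, eg] with x h1 h2 h3 h4 h5
  rw [h4, h5]
  refine h1.congr fun N => ?_
  congr 1
  exact Finset.sum_congr rfl fun k _ => by rw [h2, h3]

/-! ### sets invariant up to null sets -/

/-- the σ-algebra of all measurable sets `A` with `T ⁻¹ A = A` up to a null set -/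
def InvAlg {X : Type u} [mX : MeasurableSpace X] (μ : Measure X) (T : X → X) :
    MeasurableSpace X where
  MeasurableSet' A := MeasurableSet[mX] A ∧ T ⁻¹' A =ᵐ[μ] A
  measurableSet_empty := ⟨MeasurableSet.empty, by simp⟩
  measurableSet_compl := fun A hA => ⟨hA.1.compl, by
    rw [Set.preimage_compl]; exact hA.2.compl⟩
  measurableSet_iUnion := fun A hA => ⟨MeasurableSet.iUnion fun i => (hA i).1, by
    rw [Set.preimage_iUnion]; exact EventuallyEq.countable_iUnion fun i => (hA i).2⟩

lemma InvAlg_le {X : Type u} [mX : MeasurableSpace X] (μ : Measure X) (T : X → X) :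
    InvAlg μ T ≤ mX := fun _ hA => hA.1

lemma inv_le {X : Type u} [mX : MeasurableSpace X] (μ : Measure X) (T : X → X) :
    MeasurableSpace.invariants T ≤ InvAlg μ T := fun A hA => by
  rw [MeasurableSpace.measurableSet_invariants] at hA
  exact ⟨hA.1, by rw [hA.2]⟩

lemma condExp_InvAlg {X : Type u} [mX : MeasurableSpace X] (μ : Measure X)
    [IsProbabilityMeasure μ] (T : X → X) (hT : MeasurePreserving T μ μ) (f : X → ℂ)
    (hf : Integrable f μ) :
    (μ[f | MeasurableSpace.invariants T]) =ᵐ[μ] μ[f | InvAlg μ T] := by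
  have hm : MeasurableSpace.invariants T ≤ mX := MeasurableSpace.invariants_le T
  apply ae_eq_condExp_of_forall_setIntegral_eq (InvAlg_le μ T) hf
  · intro s _ _
    exact integrable_condExp.integrableOn
  · intro s hs _
    obtain ⟨t, ht1, ht2, ht3⟩ := hT.quasiMeasurePreserving.exists_preimage_eq_of_preimage_ae
      hs.1.nullMeasurableSet hs.2
    rw [← setIntegral_congr_set ht2, ← setIntegral_congr_set ht2]
    exact setIntegral_condExp hm hf (MeasurableSpace.measurableSet_invariants.2 ⟨ht1, ht3⟩)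
  · exact (stronglyMeasurable_condExp.mono (inv_le μ T)).aestronglyMeasurable

/-! ### maps commuting almost everywhere -/

lemma ae_comm {X : Type u} [mX : MeasurableSpace X] (μ : Measure X) [IsProbabilityMeasure μ]
    (T S : X → X) (hT : MeasurePreserving T μ μ) (hS : MeasurePreserving S μ μ)
    (hc : ∀ᵐ x ∂μ, T (S x) = S (T x)) :
    ∃ T' S' : X → X, Sy μ T' S' ∧ (T' =ᵐ[μ] T) ∧ (S' =ᵐ[μ] S) ∧
      ∀ᵐ x ∂μ, (∀ n, T'^[n] x = T^[n] x) ∧ (∀ n, S'^[n] x = S^[n] x) := by
  classical
  -- a measurable conull set on which the maps commute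
  obtain ⟨Y, hYsub, hYm, hY0⟩ : ∃ Y : Set X, (∀ x ∈ Y, T (S x) = S (T x)) ∧ MeasurableSet Y ∧
      μ Yᶜ = 0 := by
    obtain ⟨Z, hZ1, hZ2, hZ3⟩ := exists_measurable_superset_of_null (ae_iff.1 hc)
    refine ⟨Zᶜ, fun x hx => ?_, hZ2.compl, by rw [compl_compl]; exact hZ3⟩
    by_contra hcon
    exact hx (hZ1 hcon)
  -- words in `T` and `S`
  let w : List Bool → X → X := fun l => l.foldr (fun b h => fun x => h (if b then T x else S x)) id
  have hw : ∀ l, MeasurePreserving (w l) μ μ := by
    intro l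
    induction l with
    | nil => exact MeasurePreserving.id μ
    | cons b l ih =>
      cases b with
      | true => exact ih.comp hT
      | false => exact ih.comp hS
  let Y0 : Set X := ⋂ l : List Bool, w l ⁻¹' Y
  have hY0m : MeasurableSet Y0 := MeasurableSet.iInter fun l => (hw l).measurable hYm
  have hY0n : μ Y0ᶜ = 0 := by
    simp only [Y0, Set.compl_iInter]
    rw [measure_iUnion_null_iff]
    intro l
    rw [← Set.preimage_compl, (hw l).measure_preimage hYm.compl.nullMeasurableSet]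
    exact hY0
  have hTY : ∀ x ∈ Y0, T x ∈ Y0 := by
    intro x hx
    simp only [Y0, Set.mem_iInter, Set.mem_preimage] at hx ⊢
    intro l
    exact hx (true :: l)
  have hSY : ∀ x ∈ Y0, S x ∈ Y0 := by
    intro x hx
    simp only [Y0, Set.mem_iInter, Set.mem_preimage] at hx ⊢
    intro l
    exact hx (false :: l)
  have hcY : ∀ x ∈ Y0, T (S x) = S (T x) := by
    intro x hx
    simp only [Y0, Set.mem_iInter, Set.mem_preimage] at hx
    exact hYsub x (hx [])
  let T' : X → X := fun x => if x ∈ Y0 then T x else x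
  let S' : X → X := fun x => if x ∈ Y0 then S x else x
  have haeY : ∀ᵐ x ∂μ, x ∈ Y0 := by
    rw [ae_iff]; exact hY0n
  have hT' : T' =ᵐ[μ] T := by
    filter_upwards [haeY] with x hx
    simp only [T', if_pos hx]
  have hS' : S' =ᵐ[μ] S := by
    filter_upwards [haeY] with x hx
    simp only [S', if_pos hx]
  have hT'm : Measurable T' := Measurable.ite hY0m hT.measurable measurable_id
  have hS'm : Measurable S' := Measurable.ite hY0m hS.measurable measurable_id
  refine ⟨T', S', ⟨inferInstance, ?_, ?_, ?_⟩, hT', hS', ?_⟩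
  · exact ⟨hT'm, by rw [Measure.map_congr hT']; exact hT.map_eq⟩
  · exact ⟨hS'm, by rw [Measure.map_congr hS']; exact hS.map_eq⟩
  · intro x
    by_cases hx : x ∈ Y0
    · have h1 : T' x = T x := if_pos hx
      have h2 : S' x = S x := if_pos hx
      have h3 : T' (S x) = T (S x) := if_pos (hSY x hx)
      have h4 : S' (T x) = S (T x) := if_pos (hTY x hx)
      rw [h1, h2, h3, h4, hcY x hx]
    · have h1 : T' x = x := if_neg hx
      have h2 : S' x = x := if_neg hx
      rw [h1, h2, h1]
  · filter_upwards [haeY] with x hx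
    constructor
    · intro n
      have : T'^[n] x = T^[n] x ∧ T^[n] x ∈ Y0 := by
        induction n with
        | zero => exact ⟨rfl, hx⟩
        | succ n ih =>
          rw [Function.iterate_succ_apply', Function.iterate_succ_apply', ih.1]
          exact ⟨if_pos ih.2, hTY _ ih.2⟩
      exact this.1
    · intro n
      have : S'^[n] x = S^[n] x ∧ S^[n] x ∈ Y0 := by
        induction n with
        | zero => exact ⟨rfl, hx⟩
        | succ n ih =>
          rw [Function.iterate_succ_apply', Function.iterate_succ_apply', ih.1]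
          exact ⟨if_pos ih.2, hSY _ ih.2⟩
      exact this.1

lemma InvAlg_congr {X : Type u} [mX : MeasurableSpace X] (μ : Measure X) (T T' : X → X)
    (h : T' =ᵐ[μ] T) : InvAlg μ T' = InvAlg μ T := by
  have key : ∀ A : Set X, T' ⁻¹' A =ᵐ[μ] T ⁻¹' A := by
    intro A
    filter_upwards [h] with x hx
    apply propext
    change T' x ∈ A ↔ T x ∈ A
    rw [hx]
  ext A
  constructor
  · rintro ⟨h1, h2⟩
    exact ⟨h1, (key A).symm.trans h2⟩
  · rintro ⟨h1, h2⟩
    exact ⟨h1, (key A).trans h2⟩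

/-- the final form for one good set -/
theorem final_one (p : ℕ) (hp : 2 ≤ p) (a : ℝ) (ha : 0 < a) (ha1 : a < 1 / 2) (E : Set ℕ)
    (hE : Good p a E) (X : Type u) [MeasurableSpace X]
    (μ : Measure X) [IsProbabilityMeasure μ] (T S : X → X) (hT : MeasurePreserving T μ μ)
    (hS : MeasurePreserving S μ μ) (hc : ∀ᵐ x ∂μ, T (S x) = S (T x)) (f g : X → ℂ)
    (hf : MemLp f ⊤ μ) (hg : MemLp g ⊤ μ) :
    ∀ᵐ x ∂μ, Tendsto (fun N : ℕ => (∑ k ∈ Ioc 0 N, f (T^[k] x) * g (S^[en E k] x)) / (N : ℂ))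
      atTop (𝓝 ((μ[f | InvAlg μ T]) x * (μ[g | InvAlg μ S]) x)) := by
  obtain ⟨T', S', hsy, hT', hS', hit⟩ := ae_comm μ T S hT hS hc
  have h1 := linf p hp a ha ha1 E hE X μ T' S' f g hsy hf hg
  have h2 := condExp_InvAlg μ T' hsy.mT f (hf.integrable le_top)
  have h3 := condExp_InvAlg μ S' hsy.mS g (hg.integrable le_top)
  rw [InvAlg_congr μ T T' hT'] at h2
  rw [InvAlg_congr μ S S' hS'] at h3
  filter_upwards [h1, h2, h3, hit] with x e1 e2 e3 e4
  rw [e2, e3] at e1
  refine e1.congr fun N => ?_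
  congr 1
  exact Finset.sum_congr rfl fun k _ => by rw [e4.1, e4.2]

lemma good_inf (p : ℕ) (hp : 2 ≤ p) (a : ℝ) (ha : 0 < a) (ha1 : a < 1 / 2) (E : Set ℕ)
    (hE : Good p a E) : E.Infinite := by
  have hb : 0 < min a (1 / 2 - a) / 20 := by
    have : 0 < min a (1 / 2 - a) := lt_min ha (by linarith)
    linarith
  have h1 := cnt_asym p hp a _ ha ha1 hb (by have := min_le_right a (1 / 2 - a); linarith) E hE
  have ha0 : (0 : ℝ) < 1 / (1 - a) := by
    apply one_div_pos.2; linarith
  intro hfin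
  obtain ⟨M, hM⟩ := hfin.bddAbove
  have h2 : ∀ L, cnt E 0 (L + 1) ≤ M + 1 := by
    intro L
    by_cases hL : L ≤ M
    · exact (cnt_le E 0 (L + 1)).trans (by omega)
    · rw [cnt_split E 0 (M + 1) (L + 1) (by omega) (by omega)]
      have h3 : cnt E (M + 1) (L + 1) = 0 := by
        unfold cnt
        refine Finset.sum_eq_zero fun i hi => ?_
        rw [Finset.mem_Ico] at hi
        unfold ind
        rw [if_neg]
        intro h
        have := hM h
        omega
      rw [h3, add_zero]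
      exact (cnt_le E 0 (M + 1)).trans (by omega)
  have h4 : Tendsto (fun L : ℕ => (cnt E 0 (L + 1) : ℝ) / (L : ℝ) ^ (1 - a)) atTop (𝓝 0) := by
    have h5 : Tendsto (fun L : ℕ => ((M : ℝ) + 1) * (L : ℝ) ^ (-(1 - a))) atTop (𝓝 0) := by
      have := ((tendsto_rpow_neg_atTop (y := 1 - a) (by linarith)).comp
        tendsto_natCast_atTop_atTop).const_mul ((M : ℝ) + 1)
      simpa using this
    refine squeeze_zero (fun L => by positivity) (fun L => ?_) h5
    rw [Real.rpow_neg (Nat.cast_nonneg _), ← div_eq_mul_inv]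
    gcongr
    exact_mod_cast h2 L
  exact absurd (tendsto_nhds_unique h1 h4) ha0.ne'

theorem good_all (p : ℕ) (hp : 2 ≤ p) (a : ℝ) (ha : 0 < a) (ha1 : a < 1 / 2) :
    ∀ᵐ y ∂(volume.restrict (Set.Icc (0 : ℝ) 1)), Good p a (RT p a y) := by
  have hb : 0 < min a (1 / 2 - a) / 20 := by
    have : 0 < min a (1 / 2 - a) := lt_min ha (by linarith)
    linarith
  have h := good_ae p hp a (min a (1 / 2 - a) / 20) ha ha1 hb
  unfold lam at h
  rw [Measure.restrict_congr_set Ico_ae_eq_Icc] at h
  exact h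

end Pool.Agent.H238.SR
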