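import Pool.Agent.H238.SR.Ev3

/-! From the truncated sets to the return time set. -/

set_option autoImplicit false

noncomputable section

namespace Pool.Agent.H238.SR

open MeasureTheory Finset Filter Topology
open Pool.Agent.H505RS (pw ee)

/-- the return time set -/
def RT (p : ℕ) (a : ℝ) (y : ℝ) : Set ℕ :=
  {n | 1 ≤ n ∧ Int.fract ((p : ℝ) ^ n * y) ∈ Set.Ioo (0 : ℝ) ((n : ℝ) ^ (-a))}

/-- the deterministic property used below -/
def GoodE (p : ℕ) (a b : ℝ) (E : Set ℕ) : Prop :=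
  0 ∉ E ∧ ∀ᶠ L : ℕ in atTop, EvD p a b L E ∧ EvP a b L E ∧ EvV p a b L E

lemma lam_mod (p i R s : ℕ) (hp : 2 ≤ p) :
    lam {y | nu p (i + R) y % p ^ R = s} ≤ ENNReal.ofReal (1 / ((p ^ R : ℕ) : ℝ)) := by
  classical
  have hP : (0 : ℝ) < ((p ^ R : ℕ) : ℝ) := by exact_mod_cast pow_pos (by omega) _
  have hm : MeasurableSet {y | nu p (i + R) y % p ^ R = s} :=
    (nu_meas p (i + R)) (measurableSet_preimage measurable_id
      (DiscreteMeasurableSpace.forall_measurableSet {n : ℕ | n % p ^ R = s}))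
  rw [← lintegral_indicator_one hm]
  have h1 : ∀ y, ({y | nu p (i + R) y % p ^ R = s}.indicator 1 y : ENNReal) =
      (fun (_ : ℕ) m => if m = s then (1 : ENNReal) else 0) (nu p i y) (nu p (i + R) y % p ^ R) := by
    intro y
    by_cases h : nu p (i + R) y % p ^ R = s
    · simp [Set.indicator, h]
    · simp [Set.indicator, h]
  simp_rw [h1]
  rw [lint_next p i R (by omega) (fun (_ : ℕ) m => if m = s then (1 : ENNReal) else 0)]
  have h2 : (∑ m ∈ range (p ^ R), if m = s then (1 : ENNReal) else 0) ≤ 1 := by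
    rw [Finset.sum_ite_eq']
    split_ifs <;> simp
  calc ∫⁻ _, (∑ m ∈ range (p ^ R), if m = s then (1 : ENNReal) else 0) / (p : ENNReal) ^ R ∂lam
      ≤ ∫⁻ _, 1 / (p : ENNReal) ^ R ∂lam := by
        apply lintegral_mono; intro y
        simp only
        gcongr
    _ = 1 / (p : ENNReal) ^ R := by simp
    _ = ENNReal.ofReal (1 / ((p ^ R : ℕ) : ℝ)) := by
        rw [one_div, one_div, ENNReal.ofReal_inv_of_pos hP, ENNReal.ofReal_natCast]
        push_cast; rfl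

lemma nu_mod (p i R : ℕ) (hp : 2 ≤ p) (y : ℝ) (hy : 0 ≤ y) :
    nu p (i + R) y % p ^ R = ⌊((p ^ R : ℕ) : ℝ) * Int.fract ((p : ℝ) ^ i * y)⌋₊ := by
  have hz : 0 ≤ (p : ℝ) ^ i * y := by positivity
  have hP : (0 : ℝ) < ((p ^ R : ℕ) : ℝ) := by exact_mod_cast pow_pos (by omega) _
  have h1 : (p : ℝ) ^ (i + R) * y = ((p ^ R : ℕ) : ℝ) * Int.fract ((p : ℝ) ^ i * y) +
      ((p ^ R * ⌊(p : ℝ) ^ i * y⌋₊ : ℕ) : ℝ) := by
    have h2 : Int.fract ((p : ℝ) ^ i * y) = (p : ℝ) ^ i * y - ⌊(p : ℝ) ^ i * y⌋₊ := by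
      rw [Int.fract, natCast_floor_eq_intCast_floor hz]
    rw [h2]
    push_cast
    rw [pow_add]; ring
  unfold nu
  rw [h1, Nat.floor_add_natCast (mul_nonneg hP.le (Int.fract_nonneg _)), Nat.add_mul_mod_self_left]
  apply Nat.mod_eq_of_lt
  rw [Nat.floor_lt (mul_nonneg hP.le (Int.fract_nonneg _))]
  have := Int.fract_lt_one ((p : ℝ) ^ i * y)
  nlinarith

theorem mismatch (p : ℕ) (hp : 2 ≤ p) (a : ℝ) (ha : 0 < a) :
    ∀ᵐ y ∂lam, ∀ᶠ L : ℕ in atTop, ∀ i, i ≤ L → (i ∈ EE p (RR L) (tq p a L) y ↔ i ∈ RT p a y) := by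
  have h1 : ∀ᵐ y ∂lam, ∀ᶠ L : ℕ in atTop, ∀ i ∈ range (L + 1),
      y ∉ {y | nu p (i + RR L) y % p ^ RR L = tq p a L i - 1} := by
    apply ae_ev (fun L => range (L + 1)) (fun L i => {y | nu p (i + RR L) y % p ^ RR L =
      tq p a L i - 1})
    filter_upwards [eventually_ge_atTop 2] with L hL
    have hL' : (2 : ℝ) ≤ L := by exact_mod_cast hL
    calc ∑ i ∈ range (L + 1), lam {y | nu p (i + RR L) y % p ^ RR L = tq p a L i - 1}
        ≤ ∑ i ∈ range (L + 1), ENNReal.ofReal (1 / (L : ℝ) ^ 4) := by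
          refine Finset.sum_le_sum fun i _ => (lam_mod p i (RR L) _ hp).trans ?_
          apply ENNReal.ofReal_le_ofReal
          have h2 : (L : ℝ) ^ 4 ≤ ((p ^ RR L : ℕ) : ℝ) := by exact_mod_cast pow_RR p L hp
          gcongr
      _ = ENNReal.ofReal (((L : ℝ) + 1) * (1 / (L : ℝ) ^ 4)) := by
          rw [Finset.sum_const, Finset.card_range, nsmul_eq_mul, ENNReal.ofReal_mul (by positivity)]
          congr 1
          rw [show ((L : ℝ) + 1) = ((L + 1 : ℕ) : ℝ) by push_cast; ring, ENNReal.ofReal_natCast]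
      _ ≤ ENNReal.ofReal (1 / (L : ℝ) ^ 2) := by
          apply ENNReal.ofReal_le_ofReal
          rw [mul_one_div, div_le_div_iff₀ (by positivity) (by positivity)]
          nlinarith [pow_pos (by linarith : (0 : ℝ) < L) 2, pow_pos (by linarith : (0 : ℝ) < L) 3]
  have h2 : ∀ᵐ y ∂lam, ∀ n : ℕ, Int.fract ((p : ℝ) ^ n * y) ≠ 0 := by
    rw [ae_all_iff]
    intro n
    have hc : (Set.range (fun k : ℤ => (k : ℝ) / (p : ℝ) ^ n)).Countable := Set.countable_range _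
    have : NullSingletonClass lam := by unfold lam; infer_instance
    filter_upwards [hc.ae_notMem lam] with y hy h3
    apply hy
    refine ⟨⌊(p : ℝ) ^ n * y⌋, ?_⟩
    have hpn : (0 : ℝ) < (p : ℝ) ^ n := by positivity
    simp only
    rw [div_eq_iff hpn.ne']
    unfold Int.fract at h3
    linarith
  filter_upwards [h1, h2, ae_nonneg] with y hy1 hy2 hy3
  filter_upwards [hy1] with L hL i hi
  have hP : (0 : ℝ) < ((p ^ RR L : ℕ) : ℝ) := by exact_mod_cast pow_pos (by omega) _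
  rcases Nat.eq_zero_or_pos i with h0 | h0
  · subst h0
    constructor
    · intro h; exact absurd h (zero_notMem_EE p a ha L y)
    · intro h; exact absurd h.1 (by omega)
  have h3 := hL i (Finset.mem_range.2 (by omega))
  unfold EE RT
  simp only [Set.mem_ofPred_eq, Set.mem_Ioo]
  have hfr0 := Int.fract_nonneg ((p : ℝ) ^ i * y)
  have hpos : 0 < Int.fract ((p : ℝ) ^ i * y) := lt_of_le_of_ne hfr0 (hy2 i).symm
  rw [nu_mod p i (RR L) hp y hy3] at h3 ⊢
  unfold tq at h3 ⊢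
  constructor
  · intro h4
    refine ⟨h0, hpos, ?_⟩
    by_contra h5
    push Not at h5
    apply h3
    have h6 : ⌈((p ^ RR L : ℕ) : ℝ) * pw a i⌉₊ - 1 ≤
        ⌊((p ^ RR L : ℕ) : ℝ) * Int.fract ((p : ℝ) ^ i * y)⌋₊ := by
      apply Nat.le_floor
      have h7 := Nat.ceil_lt_add_one (mul_nonneg hP.le (pw_nonneg a i))
      have h8 : 1 ≤ ⌈((p ^ RR L : ℕ) : ℝ) * pw a i⌉₊ := by omega
      rw [Nat.cast_sub h8, Nat.cast_one]
      have h9 : ((p ^ RR L : ℕ) : ℝ) * pw a i ≤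
          ((p ^ RR L : ℕ) : ℝ) * Int.fract ((p : ℝ) ^ i * y) := by
        apply mul_le_mul_of_nonneg_left _ hP.le
        exact h5
      linarith
    omega
  · rintro ⟨_, _, h4⟩
    rw [Nat.floor_lt (mul_nonneg hP.le hfr0)]
    refine lt_of_lt_of_le ?_ (Nat.le_ceil _)
    exact mul_lt_mul_of_pos_left h4 hP

lemma EvD.congr {p : ℕ} {a b : ℝ} {L : ℕ} {E F : Set ℕ} (h : ∀ i, i ≤ L → (i ∈ E ↔ i ∈ F))
    (hE : EvD p a b L E) : EvD p a b L F := by
  intro A B h1 h2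
  rw [← cnt_congr (E := E) (F := F) (fun i _ hi => h i (by omega))]
  exact hE A B h1 h2

lemma EvP.congr {a b : ℝ} {L : ℕ} {E F : Set ℕ} (h : ∀ i, i ≤ L → (i ∈ E ↔ i ∈ F))
    (hE : EvP a b L E) : EvP a b L F := by
  intro u h1 h2
  refine le_trans (le_of_eq ?_) (hE u h1 h2)
  refine Finset.sum_congr rfl fun i hi => ?_
  rw [Finset.mem_Ico] at hi
  rw [ind_congr (h i (by omega)), ind_congr (h (i - u) (by omega))]

lemma EvV.congr {p : ℕ} {a b : ℝ} {L : ℕ} {E F : Set ℕ} (h : ∀ i, i ≤ L → (i ∈ E ↔ i ∈ F))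
    (hE : EvV p a b L E) : EvV p a b L F := by
  intro c m u k1 k2 hc hm hu1 hu2 hk1 hk2
  refine le_trans (le_of_eq ?_) (hE c m u k1 k2 hc hm hu1 hu2 hk1 hk2)
  congr 1
  refine Finset.sum_congr rfl fun i hi => ?_
  rw [Finset.mem_Ico] at hi
  have h1 : ∀ j, j ≤ L → kap L F j = kap L E j := by
    intro j hj
    exact (cnt_congr (fun i _ hi => h i (by omega))).symm
  have h2 : ∀ j, j ≤ L → et p a L c F j = et p a L c E j := by
    intro j hj
    unfold et
    rw [pat_congr (E := E) (F := F) (fun i _ hi => h i (by omega))]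
  unfold wt
  rw [h1 i (by omega), h1 (i + u) (by omega), h2 i (by omega), h2 (i + u) (by omega)]

theorem good_ae (p : ℕ) (hp : 2 ≤ p) (a b : ℝ) (ha : 0 < a) (ha1 : a < 1 / 2) (hb : 0 < b) :
    ∀ᵐ y ∂lam, GoodE p a b (RT p a y) := by
  filter_upwards [mismatch p hp a ha, evD p hp a b ha ha1 hb, evP p hp a b ha ha1 hb,
    evV p hp a b ha ha1 hb] with y h1 h2 h3 h4
  refine ⟨fun h => absurd h.1 (by omega), ?_⟩
  filter_upwards [h1, h2, h3, h4] with L h1 h2 h3 h4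
  exact ⟨h2.congr h1, h3.congr h1, h4.congr h1⟩

end Pool.Agent.H238.SR
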