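import Pool.Agent.H238.SR.Mis

/-! The second moment of the centred sums. -/

set_option autoImplicit false

noncomputable section

namespace Pool.Agent.H238.SR

open MeasureTheory Finset Filter Topology
open Pool.Agent.H505RS (pw ee Sy Bd)

universe u

lemma tau_shift (p : ℕ) (hp : 2 ≤ p) (a : ℝ) (ha : 0 < a) (L s i1 i2 : ℕ) (h1 : s ≤ i1)
    (h2 : i1 ≤ i2) : ∑ i ∈ Ico i1 i2, tau p a L i ≤ 1 + ∑ j ∈ Ico (i1 - s) (i2 - s), tau p a L j := by
  have h3 : Ico i1 i2 = Ico ((i1 - s) + s) ((i2 - s) + s) := by congr 1 <;> omega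
  rw [h3, ← Finset.sum_Ico_add']
  have h4 : ∀ j ∈ Ico (i1 - s) (i2 - s), tau p a L (j + s) ≤
      (if j = 0 then (1 : ℝ) else 0) + tau p a L j := by
    intro j _
    by_cases hj : j = 0
    · rw [if_pos hj]
      have := tau_le_one p hp a ha L (j + s)
      have := tau_nonneg p a L j
      linarith
    · rw [if_neg hj, zero_add]
      exact tau_anti p a ha L j (j + s) (by omega) (by omega)
  refine (Finset.sum_le_sum h4).trans ?_
  rw [Finset.sum_add_distrib]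
  gcongr
  rw [Finset.sum_ite_eq']
  split_ifs <;> norm_num

lemma tau_low (p : ℕ) (hp : 2 ≤ p) (a : ℝ) (ha : 0 < a) (L A u : ℕ) (h : A + u ≤ L + 1) :
    ((u : ℝ) - 1) * (L : ℝ) ^ (-a) ≤ ∑ j ∈ Ico A (A + u), tau p a L j := by
  have hL0 : (0 : ℝ) ≤ (L : ℝ) ^ (-a) := by positivity
  have h1 : ∀ j ∈ Ico A (A + u), (L : ℝ) ^ (-a) - (if j = 0 then (L : ℝ) ^ (-a) else 0) ≤
      tau p a L j := by
    intro j hj
    rw [Finset.mem_Ico] at hj
    by_cases hj0 : j = 0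
    · rw [if_pos hj0, sub_self]; exact tau_nonneg _ _ _ _
    · rw [if_neg hj0, sub_zero]
      refine le_trans ?_ (pw_le_tau p hp a L j)
      exact pw_anti a ha j L (by omega) (by omega)
  refine le_trans ?_ (Finset.sum_le_sum h1)
  rw [Finset.sum_sub_distrib, Finset.sum_const, Nat.card_Ico, Nat.add_sub_cancel_left, nsmul_eq_mul,
    Finset.sum_ite_eq']
  split_ifs <;> linarith

/-- the centred sum -/
def mainS (p : ℕ) (a : ℝ) (L c : ℕ) (E : Set ℕ) {X : Type u} (T S : X → X) (f g : X → ℝ)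
    (x : X) : ℝ :=
  ∑ i ∈ Ico (2 * RR L) (L + 1), et p a L c E i * (f (T^[kap L E i + c + 1] x) * g (S^[i] x))

theorem main_moment (p : ℕ) (hp : 2 ≤ p) (a b : ℝ) (ha : 0 < a) (ha1 : a < 1 / 2) (hb : 0 < b)
    (hb1 : 20 * b ≤ 1 / 2 - a) (E : Set ℕ) (hE : GoodE p a b E) :
    ∀ᶠ L : ℕ in atTop, ∀ c, c ≤ RR L →
      ∀ (X : Type u) [MeasurableSpace X] (μ : Measure X) (T S : X → X) (f g : X → ℝ),
      Sy μ T S → Bd f → Bd g →
      ∫ x, (mainS p a L c E T S f g x) ^ 2 ∂μ ≤ 2100 * (L : ℝ) ^ (2 - 2 * a - 2 * b) := by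
  obtain ⟨h0E, hE⟩ := hE
  filter_upwards [hE, eventually_ge_atTop 2, ev_R 2 b hb, ev_const 1 (1 - a) (by linarith),
    ev_const 1 (4 * b) (by linarith), ev_le 2 (4 * b) (1 - a) (by linarith),
    ev_le 2 (a + 6 * b) 1 (by linarith), ev_le 8 (a + 4 * b) (a + 6 * b) (by linarith),
    ev_le 1 (2 * b) (1 - a) (by linarith), ev_le 2 (4 * b) 1 (by linarith)]
    with L hL hL2 hR hc1 hc2 hc3 hc4 hc5 hc6 hc7 c hc X _ μ T S f g hsy hf hg
  obtain ⟨hD, -, hV⟩ := hL
  have hL1 : (1 : ℝ) ≤ L := by exact_mod_cast (by omega : 1 ≤ L)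
  have hL0 : (0 : ℝ) < L := lt_of_lt_of_le one_pos hL1
  rw [Real.rpow_one] at hc4 hc7
  have hRp := RR_pos L
  have hRp' : (1 : ℝ) ≤ RR L := by exact_mod_cast hRp
  set X0 := ∑ i ∈ Ico 0 (L + 1), tau p a L i with hX0
  have hX0nn : 0 ≤ X0 := Finset.sum_nonneg fun i _ => tau_nonneg p a L i
  have hX : X0 ≤ 3 * (L : ℝ) ^ (1 - a) := by
    have h1 := sum_tau p hp a ha (by linarith) L (by omega)
    have h2 : (L : ℝ) ^ (1 - a) / (1 - a) ≤ 2 * (L : ℝ) ^ (1 - a) := by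
      rw [div_le_iff₀ (by linarith)]
      have : 0 ≤ (L : ℝ) ^ (1 - a) := by positivity
      nlinarith
    linarith
  have hcnt : (cnt E 0 (L + 1) : ℝ) ≤ 8 * (L : ℝ) ^ (1 - a) := by
    have h1 := hD.up (A := 0) (B := L + 1) (by omega) le_rfl
    rw [← hX0] at h1
    linarith
  set M : ℕ := ⌈(L : ℝ) ^ (4 * b)⌉₊ with hM
  set U : ℕ := ⌈(L : ℝ) ^ (a + 6 * b)⌉₊ with hU
  have hM1 : (L : ℝ) ^ (4 * b) ≤ M := Nat.le_ceil _
  have hM2 : (M : ℝ) ≤ 2 * (L : ℝ) ^ (4 * b) := by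
    have := (Nat.ceil_lt_add_one (by positivity : (0 : ℝ) ≤ (L : ℝ) ^ (4 * b))).le
    linarith
  have hM3 : 1 ≤ M := by
    have : (1 : ℝ) ≤ M := hc2.trans hM1
    exact_mod_cast this
  have hU1 : (L : ℝ) ^ (a + 6 * b) ≤ U := Nat.le_ceil _
  have hc8 : 1 ≤ (L : ℝ) ^ (a + 6 * b) := Real.one_le_rpow hL1 (by linarith)
  have hU2 : (U : ℝ) ≤ 2 * (L : ℝ) ^ (a + 6 * b) := by
    have := (Nat.ceil_lt_add_one (by positivity : (0 : ℝ) ≤ (L : ℝ) ^ (a + 6 * b))).le
    linarith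
  have hUL : U ≤ L := by exact_mod_cast hU2.trans hc4
  have hML : M ≤ L := by exact_mod_cast hM2.trans hc7
  have hRU : 2 * RR L ≤ U := by
    have h1 : (2 * RR L : ℝ) ≤ U := by
      refine hR.trans (le_trans ?_ hU1)
      exact Real.rpow_le_rpow_of_exponent_le hL1 (by linarith)
    exact_mod_cast h1
  have h2b : 1 ≤ (L : ℝ) ^ (2 * b) := Real.one_le_rpow hL1 (by linarith)
  have h24 : (L : ℝ) ^ (2 * b) ≤ (L : ℝ) ^ (4 * b) :=
    Real.rpow_le_rpow_of_exponent_le hL1 (by linarith)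
  have hkapdiff : ∀ i j, i ≤ j → kap L E j = kap L E i + cnt E (i - 2 * RR L) (j - 2 * RR L) := by
    intro i j hij
    unfold kap
    exact cnt_split E 0 _ _ (by omega) (by omega)
  have key := second_moment L (RR L) M U (cnt E 0 (L + 1) + 1) (14 * (L : ℝ) ^ (2 * b))
    (11 * (L : ℝ) ^ (1 - a)) ((L : ℝ) ^ ((1 - 2 * a) / 2 + 3 * b)) (et p a L c E) (kap L E) c
    (by omega) hM3 (by positivity) (by omega) hRU hRp (et_abs_le_one p hp a L c E)
    (by
      calc ∑ i ∈ Ico (2 * RR L) (L + 1), |et p a L c E i|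
          ≤ ∑ i ∈ Ico (2 * RR L) (L + 1), ((ind E i : ℝ) + tau p a L i) :=
            Finset.sum_le_sum fun i _ => et_abs_le p hp a ha L c hc E i
        _ ≤ ∑ i ∈ Ico 0 (L + 1), ((ind E i : ℝ) + tau p a L i) := by
            apply Finset.sum_le_sum_of_subset_of_nonneg
            · intro i hi; rw [Finset.mem_Ico] at *; omega
            · intro i _ _
              have := tau_nonneg p a L i
              positivity
        _ = (cnt E 0 (L + 1) : ℝ) + X0 := by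
            rw [Finset.sum_add_distrib]; unfold cnt; push_cast; rfl
        _ ≤ 11 * (L : ℝ) ^ (1 - a) := by linarith)
    (by
      intro k
      set F := (Ico (2 * RR L) (L + 1)).filter (fun i => kap L E i = k) with hF
      rcases F.eq_empty_or_nonempty with hemp | hne
      · rw [hemp, Finset.sum_empty]; positivity
      set i1 := F.min' hne with hi1
      set i2 := F.max' hne with hi2
      have hm1 : i1 ∈ F := F.min'_mem hne
      have hm2 : i2 ∈ F := F.max'_mem hne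
      have hle : i1 ≤ i2 := F.min'_le i2 hm2
      have hm1' := hm1
      have hm2' := hm2
      rw [hF, Finset.mem_filter, Finset.mem_Ico] at hm1' hm2'
      have hzero : cnt E (i1 - 2 * RR L) (i2 - 2 * RR L) = 0 := by
        have := hkapdiff i1 i2 hle
        omega
      have h1 := hD.dn (A := i1 - 2 * RR L) (B := i2 - 2 * RR L) (by omega) (by omega)
      rw [hzero, Nat.cast_zero, mul_zero, zero_add] at h1
      have h2 := tau_shift p hp a ha L (2 * RR L) i1 i2 hm1'.1.1 hle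
      have h3 : ∑ i ∈ Ico i1 (i2 + 1), tau p a L i ≤ (L : ℝ) ^ (2 * b) + 3 := by
        rw [Finset.sum_Ico_succ_top hle]
        have := tau_le_one p hp a ha L i2
        linarith
      have h4 := hD.up (A := i1) (B := i2 + 1) (by omega) (by omega)
      calc ∑ i ∈ F, |et p a L c E i| ≤ ∑ i ∈ F, ((ind E i : ℝ) + tau p a L i) :=
            Finset.sum_le_sum fun i _ => et_abs_le p hp a ha L c hc E i
        _ ≤ ∑ i ∈ Ico i1 (i2 + 1), ((ind E i : ℝ) + tau p a L i) := by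
            apply Finset.sum_le_sum_of_subset_of_nonneg
            · intro i hi
              rw [Finset.mem_Ico]
              have h5 := F.min'_le i hi
              have h6 := F.le_max' i hi
              omega
            · intro i _ _
              have := tau_nonneg p a L i
              positivity
        _ = (cnt E i1 (i2 + 1) : ℝ) + ∑ i ∈ Ico i1 (i2 + 1), tau p a L i := by
            rw [Finset.sum_add_distrib]; unfold cnt; push_cast; rfl
        _ ≤ 14 * (L : ℝ) ^ (2 * b) := by linarith)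
    (by
      intro i j hij
      rw [hkapdiff i j hij]; omega)
    (by
      intro i
      unfold kap
      have := cnt_le E 0 (i - 2 * RR L)
      omega)
    (by
      intro i hi
      rw [Finset.mem_Ico] at hi
      have : kap L E i ≤ cnt E 0 (L + 1) := cnt_mono E le_rfl (by omega)
      omega)
    (by
      intro i u hi hiu hk
      have h1 := hkapdiff i (i + u) (by omega)
      have h2 : cnt E (i - 2 * RR L) (i + u - 2 * RR L) < M := by omega
      have h3 := hD.dn (A := i - 2 * RR L) (B := i + u - 2 * RR L) (by omega) (by omega)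
      have h4 : i + u - 2 * RR L = (i - 2 * RR L) + u := by omega
      have h5 := tau_low p hp a ha L (i - 2 * RR L) u (by omega)
      rw [h4] at h3 h2
      have h6 : (cnt E (i - 2 * RR L) (i - 2 * RR L + u) : ℝ) ≤ M := by exact_mod_cast h2.le
      have h7 : ((u : ℝ) - 1) * (L : ℝ) ^ (-a) ≤ 6 * (L : ℝ) ^ (4 * b) := by linarith
      have h8 : (u : ℝ) - 1 ≤ 6 * (L : ℝ) ^ (a + 4 * b) := by
        have h9 : (L : ℝ) ^ (-a) * (L : ℝ) ^ a = 1 := by
          rw [← Real.rpow_add hL0]; simp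
        have h10 : 0 ≤ (L : ℝ) ^ a := by positivity
        calc (u : ℝ) - 1 = (((u : ℝ) - 1) * (L : ℝ) ^ (-a)) * (L : ℝ) ^ a := by
              rw [mul_assoc, h9, mul_one]
          _ ≤ (6 * (L : ℝ) ^ (4 * b)) * (L : ℝ) ^ a := by gcongr
          _ = 6 * (L : ℝ) ^ (a + 4 * b) := by
              rw [mul_assoc, ← Real.rpow_add hL0]; congr 2; ring
      have h11 : 1 ≤ (L : ℝ) ^ (a + 4 * b) := Real.one_le_rpow hL1 (by linarith)
      have h12 : (u : ℝ) < U := by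
        refine lt_of_lt_of_le ?_ (hc5.trans hU1)
        linarith
      exact_mod_cast h12)
    (by
      intro m u k1 k2 hm1 hm2 hu1 hu2 hk1 hk2
      exact hV c m u k1 k2 hc (by omega) hu1 (by omega) hk1 hk2)
    μ T S hsy f g hf hg
  refine key.trans ?_
  have hMpos : (0 : ℝ) < M := by exact_mod_cast hM3
  have hNM : ((cnt E 0 (L + 1) + 1 : ℕ) : ℝ) + M ≤ 10 * (L : ℝ) ^ (1 - a) := by
    push_cast; linarith
  have e1 : ((((cnt E 0 (L + 1) + 1 : ℕ) : ℝ) + M) / (M : ℝ) ^ 2) *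
      (M * ((14 * (L : ℝ) ^ (2 * b)) * (11 * (L : ℝ) ^ (1 - a))) + 2 * (M * (2 * RR L *
        (11 * (L : ℝ) ^ (1 - a)) + M * (U * (3 * (L : ℝ) ^ ((1 - 2 * a) / 2 + 3 * b)))))) =
      (((cnt E 0 (L + 1) + 1 : ℕ) : ℝ) + M) *
      ((14 * (L : ℝ) ^ (2 * b)) * (11 * (L : ℝ) ^ (1 - a)) / M + 2 * (2 * RR L *
        (11 * (L : ℝ) ^ (1 - a))) / M + 6 * (U * (L : ℝ) ^ ((1 - 2 * a) / 2 + 3 * b))) := by
    field_simp
    ring
  rw [e1]
  have hinv : ∀ z : ℝ, 0 ≤ z → z / M ≤ z * (L : ℝ) ^ (-(4 * b)) := by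
    intro z hz
    rw [Real.rpow_neg hL0.le, ← div_eq_mul_inv]
    gcongr
  have t1 : (14 * (L : ℝ) ^ (2 * b)) * (11 * (L : ℝ) ^ (1 - a)) / M ≤
      154 * (L : ℝ) ^ (1 - a - 2 * b) := by
    refine (hinv _ (by positivity)).trans (le_of_eq ?_)
    rw [show (14 * (L : ℝ) ^ (2 * b)) * (11 * (L : ℝ) ^ (1 - a)) * (L : ℝ) ^ (-(4 * b)) =
      154 * ((L : ℝ) ^ (2 * b) * (L : ℝ) ^ (1 - a) * (L : ℝ) ^ (-(4 * b))) by ring,
      ← Real.rpow_add hL0, ← Real.rpow_add hL0]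
    congr 2; ring
  have t2 : 2 * (2 * RR L * (11 * (L : ℝ) ^ (1 - a))) / M ≤ 22 * (L : ℝ) ^ (1 - a - 2 * b) := by
    have h1 : 2 * (2 * RR L * (11 * (L : ℝ) ^ (1 - a))) ≤
        22 * ((L : ℝ) ^ b * (L : ℝ) ^ (1 - a)) := by
      have : 0 ≤ (L : ℝ) ^ (1 - a) := by positivity
      nlinarith
    calc 2 * (2 * RR L * (11 * (L : ℝ) ^ (1 - a))) / M
        ≤ (22 * ((L : ℝ) ^ b * (L : ℝ) ^ (1 - a))) / M := by gcongr
      _ ≤ (22 * ((L : ℝ) ^ b * (L : ℝ) ^ (1 - a))) * (L : ℝ) ^ (-(4 * b)) :=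
          hinv _ (by positivity)
      _ = 22 * (L : ℝ) ^ (1 - a - 3 * b) := by
          rw [mul_assoc, ← Real.rpow_add hL0, ← Real.rpow_add hL0]
          congr 2; ring
      _ ≤ 22 * (L : ℝ) ^ (1 - a - 2 * b) :=
          mul_le_mul_of_nonneg_left (Real.rpow_le_rpow_of_exponent_le hL1 (by linarith))
            (by norm_num)
  have t3 : 6 * (U * (L : ℝ) ^ ((1 - 2 * a) / 2 + 3 * b)) ≤ 12 * (L : ℝ) ^ (1 - a - 2 * b) := by
    calc 6 * (U * (L : ℝ) ^ ((1 - 2 * a) / 2 + 3 * b))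
        ≤ 6 * ((2 * (L : ℝ) ^ (a + 6 * b)) * (L : ℝ) ^ ((1 - 2 * a) / 2 + 3 * b)) := by gcongr
      _ = 12 * ((L : ℝ) ^ (a + 6 * b) * (L : ℝ) ^ ((1 - 2 * a) / 2 + 3 * b)) := by ring
      _ = 12 * (L : ℝ) ^ (1 / 2 + 9 * b) := by
          rw [← Real.rpow_add hL0]; congr 2; ring
      _ ≤ 12 * (L : ℝ) ^ (1 - a - 2 * b) :=
          mul_le_mul_of_nonneg_left (Real.rpow_le_rpow_of_exponent_le hL1 (by linarith))
            (by norm_num)
  have hpos : 0 ≤ (L : ℝ) ^ (1 - a - 2 * b) := by positivity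
  calc _ ≤ (10 * (L : ℝ) ^ (1 - a)) * (154 * (L : ℝ) ^ (1 - a - 2 * b) +
        22 * (L : ℝ) ^ (1 - a - 2 * b) + 12 * (L : ℝ) ^ (1 - a - 2 * b)) := by
        apply mul_le_mul hNM (by linarith) (by positivity) (by positivity)
    _ = 1880 * ((L : ℝ) ^ (1 - a) * (L : ℝ) ^ (1 - a - 2 * b)) := by ring
    _ = 1880 * (L : ℝ) ^ (2 - 2 * a - 2 * b) := by
        rw [← Real.rpow_add hL0]; congr 2; ring
    _ ≤ 2100 * (L : ℝ) ^ (2 - 2 * a - 2 * b) := by
        gcongr; norm_num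

end Pool.Agent.H238.SR
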