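import Mathlib

/-! Base `p` digits of a uniform random point, and the exponential martingale inequality. -/

set_option autoImplicit false

noncomputable section

namespace Pool.Agent.H238.SR

open MeasureTheory Finset

/-- the number formed by the first `j` base `p` digits -/
def nu (p j : ℕ) (y : ℝ) : ℕ := ⌊(p : ℝ) ^ j * y⌋₊

/-- Lebesgue measure on `[0,1)` -/
def lam : Measure ℝ := volume.restrict (Set.Ico (0 : ℝ) 1)

instance : IsProbabilityMeasure lam := ⟨by simp [lam]⟩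

lemma nu_div (p j k : ℕ) (hp : 0 < p) (y : ℝ) : nu p j y = nu p (j + k) y / p ^ k := by
  unfold nu
  rw [← Nat.floor_div_natCast]
  congr 1
  have : (p : ℝ) ^ k ≠ 0 := by positivity
  push_cast
  rw [pow_add]; field_simp

lemma nu_meas (p j : ℕ) : Measurable (nu p j) := by
  unfold nu
  exact Nat.measurable_floor.comp (measurable_const.mul measurable_id)

lemma nu_eq_iff (p j s : ℕ) (hp : 0 < p) (y : ℝ) (hy : 0 ≤ y) :
    nu p j y = s ↔ (s : ℝ) / (p : ℝ) ^ j ≤ y ∧ y < ((s : ℝ) + 1) / (p : ℝ) ^ j := by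
  unfold nu
  have h : (0 : ℝ) < (p : ℝ) ^ j := by positivity
  rw [Nat.floor_eq_iff (by positivity), div_le_iff₀ h, lt_div_iff₀ h, mul_comm]

lemma lint_nu (p j : ℕ) (hp : 0 < p) (φ : ℕ → ENNReal) :
    ∫⁻ y, φ (nu p j y) ∂lam = (∑ s ∈ range (p ^ j), φ s) / (p : ENNReal) ^ j := by
  have hpj : (0 : ℝ) < (p : ℝ) ^ j := by positivity
  have hU : Set.Ico (0 : ℝ) 1 =
      ⋃ s ∈ range (p ^ j), Set.Ico ((s : ℝ) / (p : ℝ) ^ j) (((s : ℝ) + 1) / (p : ℝ) ^ j) := by
    ext y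
    simp only [Set.mem_Ico, Set.mem_iUnion, Finset.mem_range, exists_prop]
    constructor
    · rintro ⟨h0, h1⟩
      refine ⟨nu p j y, ?_, ?_⟩
      · unfold nu
        rw [Nat.floor_lt (by positivity)]
        push_cast
        nlinarith
      · exact (nu_eq_iff p j _ hp y h0).1 rfl
    · rintro ⟨s, hs, h0, h1⟩
      refine ⟨le_trans (by positivity) h0, lt_of_lt_of_le h1 ?_⟩
      rw [div_le_one hpj]
      exact_mod_cast hs
  unfold lam
  rw [hU, lintegral_biUnion_finset]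
  · have : ∀ s ∈ range (p ^ j), ∫⁻ y in Set.Ico ((s : ℝ) / (p : ℝ) ^ j) (((s : ℝ) + 1) / (p : ℝ) ^ j),
        φ (nu p j y) = φ s / (p : ENNReal) ^ j := by
      intro s _
      rw [setLIntegral_congr_fun (g := fun _ => φ s) measurableSet_Ico]
      · rw [setLIntegral_const, Real.volume_Ico, div_eq_mul_inv (φ s)]
        congr 1
        rw [show ((s : ℝ) + 1) / (p : ℝ) ^ j - (s : ℝ) / (p : ℝ) ^ j = ((p : ℝ) ^ j)⁻¹ by
          field_simp; ring]
        rw [ENNReal.ofReal_inv_of_pos hpj, ENNReal.ofReal_pow (by positivity),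
          ENNReal.ofReal_natCast]
      · intro y hy
        have h0 : (0 : ℝ) ≤ y := le_trans (by positivity) hy.1
        simp only
        rw [(nu_eq_iff p j s hp y h0).2 hy]
    rw [Finset.sum_congr rfl this, div_eq_mul_inv, Finset.sum_mul]
    rfl
  · intro s _ t _ hst
    rw [Function.onFun, Set.disjoint_left]
    intro y h1 h2
    have h0 : (0 : ℝ) ≤ y := le_trans (by positivity) h1.1
    exact hst (((nu_eq_iff p j s hp y h0).2 h1).symm.trans ((nu_eq_iff p j t hp y h0).2 h2))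
  · intro s _
    exact measurableSet_Ico

lemma sum_divMod {β : Type*} [AddCommMonoid β] (a b : ℕ) (hb : 0 < b) (Φ : ℕ → ℕ → β) :
    ∑ n ∈ range (a * b), Φ (n / b) (n % b) = ∑ s ∈ range a, ∑ m ∈ range b, Φ s m := by
  rw [← Finset.sum_product']
  refine Finset.sum_bij' (fun n _ => (n / b, n % b)) (fun q _ => q.1 * b + q.2) ?_ ?_ ?_ ?_ ?_
  · intro n hn
    simp only [Finset.mem_range, Finset.mem_product] at hn ⊢
    exact ⟨Nat.div_lt_of_lt_mul (by rwa [mul_comm] at hn), Nat.mod_lt _ hb⟩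
  · rintro ⟨s, m⟩ hq
    simp only [Finset.mem_range, Finset.mem_product] at hq ⊢
    nlinarith [hq.1, hq.2, Nat.mul_le_mul_right b (Nat.succ_le_of_lt hq.1)]
  · intro n _
    exact Nat.div_add_mod' n b
  · rintro ⟨s, m⟩ hq
    simp only [Finset.mem_range, Finset.mem_product] at hq
    simp only [Prod.mk.injEq]
    constructor
    · rw [mul_comm, Nat.mul_add_div hb, Nat.div_eq_of_lt hq.2, add_zero]
    · rw [mul_comm, Nat.mul_add_mod, Nat.mod_eq_of_lt hq.2]
  · intro n _; rfl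

/-- conditional averaging over the next `K` digits -/
lemma lint_next (p j K : ℕ) (hp : 0 < p) (φ : ℕ → ℕ → ENNReal) :
    ∫⁻ y, φ (nu p j y) (nu p (j + K) y % p ^ K) ∂lam =
      ∫⁻ y, (∑ m ∈ range (p ^ K), φ (nu p j y) m) / (p : ENNReal) ^ K ∂lam := by
  have hK : 0 < p ^ K := pow_pos hp K
  have h1 : ∀ y, φ (nu p j y) (nu p (j + K) y % p ^ K) =
      (fun n => φ (n / p ^ K) (n % p ^ K)) (nu p (j + K) y) := by
    intro y; simp only; rw [nu_div p j K hp y]
  simp_rw [h1]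
  rw [lint_nu p (j + K) hp (fun n => φ (n / p ^ K) (n % p ^ K)),
    lint_nu p j hp (fun n => (∑ m ∈ range (p ^ K), φ n m) / (p : ENNReal) ^ K), pow_add,
    sum_divMod (p ^ j) (p ^ K) hK φ]
  have hp0 : (p : ENNReal) ≠ 0 := by exact_mod_cast hp.ne'
  have hpt : (p : ENNReal) ≠ ⊤ := ENNReal.natCast_ne_top p
  simp only [div_eq_mul_inv]
  rw [← Finset.sum_mul, mul_assoc]
  congr 1
  rw [pow_add, ENNReal.mul_inv (Or.inl (by simp [hp0])) (Or.inl (by simp [hpt])), mul_comm]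

/-- depends only on the first `j` digits -/
def Dep {α : Type*} (p j : ℕ) (F : ℝ → α) : Prop :=
  ∀ y y' : ℝ, 0 ≤ y → 0 ≤ y' → nu p j y = nu p j y' → F y = F y'

lemma Dep.mono {α : Type*} {p j j' : ℕ} {F : ℝ → α} (hp : 0 < p) (h : Dep p j F) (hj : j ≤ j') :
    Dep p j' F := by
  intro y y' h0 h0' he
  apply h y y' h0 h0'
  obtain ⟨k, rfl⟩ := Nat.exists_eq_add_of_le hj
  rw [nu_div p j k hp y, nu_div p j k hp y', he]

lemma Dep.factor {α : Type*} {p j : ℕ} {F : ℝ → α} (hp : 0 < p) (h : Dep p j F) :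
    ∃ φ : ℕ → α, ∀ y, 0 ≤ y → F y = φ (nu p j y) := by
  refine ⟨fun s => F ((s : ℝ) / (p : ℝ) ^ j), fun y hy => h _ _ hy (by positivity) ?_⟩
  have hpj : (0 : ℝ) < (p : ℝ) ^ j := by positivity
  symm
  rw [nu_eq_iff p j _ hp _ (by positivity)]
  refine ⟨le_rfl, ?_⟩
  gcongr
  linarith

lemma ae_nonneg : ∀ᵐ y ∂lam, (0 : ℝ) ≤ y := by
  unfold lam
  rw [ae_restrict_iff' measurableSet_Ico]
  exact Filter.Eventually.of_forall fun y hy => hy.1

lemma Dep.aemeas {p j : ℕ} {F : ℝ → ENNReal} (hp : 0 < p) (h : Dep p j F) :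
    AEMeasurable F lam := by
  obtain ⟨φ, hφ⟩ := h.factor hp
  refine ⟨fun y => φ (nu p j y), (measurable_of_countable φ).comp (nu_meas p j), ?_⟩
  filter_upwards [ae_nonneg] with y hy using hφ y hy

end Pool.Agent.H238.SR
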