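import Pool.Agent.H238.SR.Sig
import Pool.Graph.R_seed8.H505RS.SUM

/-! Numerics. -/

set_option autoImplicit false

noncomputable section

namespace Pool.Agent.H238.SR

open MeasureTheory Finset Filter Topology
open Pool.Agent.H505RS (pw)

/-- number of digits used at scale `L` -/
def RR (L : ℕ) : ℕ := 4 * (Nat.log 2 L + 1)

/-- thresholds -/
def tq (p : ℕ) (a : ℝ) (L i : ℕ) : ℕ := ⌈((p ^ RR L : ℕ) : ℝ) * pw a i⌉₊

/-- densities -/
def tau (p : ℕ) (a : ℝ) (L i : ℕ) : ℝ := (tq p a L i : ℝ) / ((p ^ RR L : ℕ) : ℝ)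

lemma RR_pos (L : ℕ) : 1 ≤ RR L := by unfold RR; omega

lemma pow_RR (p L : ℕ) (hp : 2 ≤ p) : L ^ 4 ≤ p ^ RR L := by
  unfold RR
  calc L ^ 4 ≤ (2 ^ (Nat.log 2 L + 1)) ^ 4 := by
        gcongr
        exact (Nat.lt_pow_succ_log_self (by norm_num) L).le
    _ = 2 ^ (4 * (Nat.log 2 L + 1)) := by rw [← pow_mul, mul_comm]
    _ ≤ p ^ (4 * (Nat.log 2 L + 1)) := by gcongr

lemma pw_zero (a : ℝ) (ha : 0 < a) : pw a 0 = 0 := by
  unfold pw; rw [Nat.cast_zero, Real.zero_rpow]; linarith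

lemma pw_nonneg (a : ℝ) (i : ℕ) : 0 ≤ pw a i := by unfold pw; positivity

lemma pw_le_one (a : ℝ) (ha : 0 < a) (i : ℕ) : pw a i ≤ 1 := by
  rcases Nat.eq_zero_or_pos i with h | h
  · subst h; rw [pw_zero a ha]; norm_num
  · unfold pw
    apply Real.rpow_le_one_of_one_le_of_nonpos
    · exact_mod_cast h
    · linarith

lemma pw_anti (a : ℝ) (ha : 0 < a) (i j : ℕ) (hi : 1 ≤ i) (hij : i ≤ j) : pw a j ≤ pw a i := by
  unfold pw
  apply Real.rpow_le_rpow_of_nonpos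
  · exact_mod_cast hi
  · exact_mod_cast hij
  · linarith

lemma tq_le (p : ℕ) (a : ℝ) (ha : 0 < a) (L i : ℕ) : tq p a L i ≤ p ^ RR L := by
  unfold tq
  rw [Nat.ceil_le]
  calc ((p ^ RR L : ℕ) : ℝ) * pw a i ≤ ((p ^ RR L : ℕ) : ℝ) * 1 := by
        gcongr; exact pw_le_one a ha i
    _ = _ := mul_one _

lemma tq_zero (p : ℕ) (a : ℝ) (ha : 0 < a) (L : ℕ) : tq p a L 0 = 0 := by
  unfold tq; rw [pw_zero a ha]; simp

lemma tq_mono (p : ℕ) (a : ℝ) (ha : 0 < a) (L j : ℕ) (hj : 1 ≤ j) :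
    tq p a L (j + 1) ≤ tq p a L j := by
  unfold tq
  apply Nat.ceil_mono
  gcongr
  exact pw_anti a ha j (j + 1) hj (by omega)

lemma tq_anti (p : ℕ) (a : ℝ) (ha : 0 < a) (L i j : ℕ) (hi : 1 ≤ i) (hij : i ≤ j) :
    tq p a L j ≤ tq p a L i := by
  unfold tq
  apply Nat.ceil_mono
  gcongr
  exact pw_anti a ha i j hi hij

lemma tau_nonneg (p : ℕ) (a : ℝ) (L i : ℕ) : 0 ≤ tau p a L i := by unfold tau; positivity

lemma tau_zero (p : ℕ) (a : ℝ) (ha : 0 < a) (L : ℕ) : tau p a L 0 = 0 := by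
  unfold tau; rw [tq_zero p a ha]; simp

lemma tau_le_one (p : ℕ) (hp : 2 ≤ p) (a : ℝ) (ha : 0 < a) (L i : ℕ) : tau p a L i ≤ 1 := by
  unfold tau
  have : (0 : ℝ) < ((p ^ RR L : ℕ) : ℝ) := by exact_mod_cast pow_pos (by omega) _
  rw [div_le_one this]
  exact_mod_cast tq_le p a ha L i

lemma tau_anti (p : ℕ) (a : ℝ) (ha : 0 < a) (L i j : ℕ) (hi : 1 ≤ i) (hij : i ≤ j) :
    tau p a L j ≤ tau p a L i := by
  unfold tau
  gcongr
  exact tq_anti p a ha L i j hi hij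

lemma pw_le_tau (p : ℕ) (hp : 2 ≤ p) (a : ℝ) (L i : ℕ) : pw a i ≤ tau p a L i := by
  unfold tau
  have : (0 : ℝ) < ((p ^ RR L : ℕ) : ℝ) := by exact_mod_cast pow_pos (by omega) _
  rw [le_div_iff₀ this, mul_comm]
  exact Nat.le_ceil _

lemma tau_le (p : ℕ) (hp : 2 ≤ p) (a : ℝ) (L i : ℕ) (hL : 1 ≤ L) :
    tau p a L i ≤ pw a i + 1 / (L : ℝ) ^ 4 := by
  have h0 : (0 : ℝ) < ((p ^ RR L : ℕ) : ℝ) := by exact_mod_cast pow_pos (by omega) _
  have hL' : (0 : ℝ) < L := by exact_mod_cast hL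
  have h1 : (L : ℝ) ^ 4 ≤ ((p ^ RR L : ℕ) : ℝ) := by exact_mod_cast pow_RR p L hp
  calc tau p a L i ≤ (((p ^ RR L : ℕ) : ℝ) * pw a i + 1) / ((p ^ RR L : ℕ) : ℝ) := by
        unfold tau
        gcongr
        exact (Nat.ceil_lt_add_one (mul_nonneg h0.le (pw_nonneg a i))).le
    _ = pw a i + 1 / ((p ^ RR L : ℕ) : ℝ) := by field_simp
    _ ≤ _ := by gcongr

lemma sum_tau (p : ℕ) (hp : 2 ≤ p) (a : ℝ) (ha : 0 < a) (ha1 : a < 1) (L : ℕ) (hL : 1 ≤ L) :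
    ∑ i ∈ Ico 0 (L + 1), tau p a L i ≤ (L : ℝ) ^ (1 - a) / (1 - a) + 1 := by
  have hL' : (1 : ℝ) ≤ L := by exact_mod_cast hL
  have h1 : ∑ i ∈ Ico 0 (L + 1), tau p a L i = ∑ i ∈ Icc 1 L, tau p a L i := by
    rw [Finset.sum_eq_sum_Ico_succ_bot (by omega), tau_zero p a ha, zero_add]
    rfl
  rw [h1]
  calc _ ≤ ∑ i ∈ Icc 1 L, (pw a i + 1 / (L : ℝ) ^ 4) :=
        Finset.sum_le_sum fun i _ => tau_le p hp a L i hL
    _ = ∑ i ∈ Icc 1 L, pw a i + L * (1 / (L : ℝ) ^ 4) := by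
        rw [Finset.sum_add_distrib, Finset.sum_const, Nat.card_Icc, nsmul_eq_mul]
        simp
    _ ≤ (L : ℝ) ^ (1 - a) / (1 - a) + 1 := by
        gcongr
        · exact Pool.Agent.H505RS.SUM.upper a ha ha1 L
        · rw [mul_one_div, div_le_one (by positivity)]
          calc (L : ℝ) = (L : ℝ) ^ 1 := (pow_one _).symm
            _ ≤ (L : ℝ) ^ 4 := pow_le_pow_right₀ hL' (by norm_num)

lemma sum_tau_sq (p : ℕ) (hp : 2 ≤ p) (a : ℝ) (ha : 0 < a) (ha1 : a < 1 / 2) (L : ℕ)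
    (hL : 1 ≤ L) :
    ∑ i ∈ Ico 0 (L + 1), tau p a L i ^ 2 ≤ (L : ℝ) ^ (1 - 2 * a) / (1 - 2 * a) + 2 := by
  have hL' : (1 : ℝ) ≤ L := by exact_mod_cast hL
  have h1 : ∑ i ∈ Ico 0 (L + 1), tau p a L i ^ 2 = ∑ i ∈ Icc 1 L, tau p a L i ^ 2 := by
    rw [Finset.sum_eq_sum_Ico_succ_bot (by omega), tau_zero p a ha, sq, zero_mul, zero_add]
    rfl
  rw [h1]
  have h2 : ∀ i, tau p a L i ^ 2 ≤ pw (2 * a) i + 2 * (1 / (L : ℝ) ^ 4) := by
    intro i
    have h3 := tau_le p hp a L i hL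
    have h4 := tau_le_one p hp a ha L i
    have h5 := pw_le_one a ha i
    have h6 := pw_nonneg a i
    have h7 := tau_nonneg p a L i
    have h8 : pw (2 * a) i = pw a i ^ 2 := by
      unfold pw
      rw [← Real.rpow_natCast, ← Real.rpow_mul (Nat.cast_nonneg _)]
      congr 1; push_cast; ring
    rw [h8]
    have h9 : (0 : ℝ) ≤ 1 / (L : ℝ) ^ 4 := by positivity
    nlinarith
  calc _ ≤ ∑ i ∈ Icc 1 L, (pw (2 * a) i + 2 * (1 / (L : ℝ) ^ 4)) :=
        Finset.sum_le_sum fun i _ => h2 i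
    _ = ∑ i ∈ Icc 1 L, pw (2 * a) i + 2 * (L * (1 / (L : ℝ) ^ 4)) := by
        rw [Finset.sum_add_distrib, Finset.sum_const, Nat.card_Icc, nsmul_eq_mul]
        simp only [Nat.add_sub_cancel]
        ring
    _ ≤ (L : ℝ) ^ (1 - 2 * a) / (1 - 2 * a) + 2 * 1 := by
        gcongr
        · exact Pool.Agent.H505RS.SUM.upper (2 * a) (by linarith) (by linarith) L
        · rw [mul_one_div, div_le_one (by positivity)]
          calc (L : ℝ) = (L : ℝ) ^ 1 := (pow_one _).symm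
            _ ≤ (L : ℝ) ^ 4 := pow_le_pow_right₀ hL' (by norm_num)
    _ = _ := by ring

/-! ### eventual comparisons -/

lemma ev_le (C x y : ℝ) (h : x < y) : ∀ᶠ L : ℕ in atTop, C * (L : ℝ) ^ x ≤ (L : ℝ) ^ y := by
  have h1 : Tendsto (fun L : ℕ => (L : ℝ) ^ (y - x)) atTop atTop :=
    (tendsto_rpow_atTop (by linarith)).comp tendsto_natCast_atTop_atTop
  filter_upwards [h1.eventually_ge_atTop C, eventually_ge_atTop 1] with L h2 h3
  have hL : (0 : ℝ) < L := by exact_mod_cast h3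
  calc C * (L : ℝ) ^ x ≤ (L : ℝ) ^ (y - x) * (L : ℝ) ^ x := by gcongr
    _ = (L : ℝ) ^ y := by rw [← Real.rpow_add hL]; congr 1; ring

lemma ev_const (C y : ℝ) (h : 0 < y) : ∀ᶠ L : ℕ in atTop, C ≤ (L : ℝ) ^ y := by
  have := ev_le C 0 y h
  simpa using this

lemma ev_R (C y : ℝ) (h : 0 < y) : ∀ᶠ L : ℕ in atTop, C * (RR L : ℝ) ≤ (L : ℝ) ^ y := by
  have h1 : (fun x : ℝ => Real.log x) =o[atTop] fun x => x ^ (y / 2) :=
    isLittleO_log_rpow_atTop (by linarith)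
  have h2 := (h1.bound (c := 1) one_pos)
  have h3 := tendsto_natCast_atTop_atTop.eventually h2
  have h4 := ev_le (|C| * (8 * 4)) (y / 2) y (by linarith)
  filter_upwards [h3, h4, eventually_ge_atTop 2] with L h5 h6 h7
  have hL : (2 : ℝ) ≤ L := by exact_mod_cast h7
  have hlog : 0 ≤ Real.log L := Real.log_nonneg (by linarith)
  rw [Real.norm_of_nonneg hlog, Real.norm_of_nonneg (by positivity), one_mul] at h5
  have hl2 : (1 / 2 : ℝ) ≤ Real.log 2 := by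
    have := Real.log_two_gt_d9; linarith
  have h8 : (Nat.log 2 L : ℝ) ≤ 2 * Real.log L := by
    have h9 : (2 : ℝ) ^ (Nat.log 2 L) ≤ L := by
      exact_mod_cast Nat.pow_log_le_self 2 (by omega)
    have h10 : (Nat.log 2 L : ℝ) * Real.log 2 ≤ Real.log L := by
      rw [← Real.log_pow]
      exact Real.log_le_log (by positivity) h9
    have : (0 : ℝ) ≤ (Nat.log 2 L : ℝ) := Nat.cast_nonneg _
    nlinarith
  have h11 : (1 : ℝ) ≤ 2 * Real.log L := by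
    have : Real.log 2 ≤ Real.log L := Real.log_le_log (by norm_num) hL
    linarith
  have h12 : (RR L : ℝ) ≤ (8 * 4) * Real.log L := by
    unfold RR
    push_cast
    nlinarith
  calc C * (RR L : ℝ) ≤ |C| * (RR L : ℝ) := by gcongr; exact le_abs_self C
    _ ≤ |C| * ((8 * 4) * (L : ℝ) ^ (y / 2)) := by
        gcongr
        exact h12.trans (by gcongr)
    _ = |C| * (8 * 4) * (L : ℝ) ^ (y / 2) := by ring
    _ ≤ _ := h6

lemma ev_exp (k : ℕ) (g : ℝ) (hg : 0 < g) :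
    ∀ᶠ L : ℕ in atTop, (L : ℝ) ^ k * Real.exp (1 - (L : ℝ) ^ g) ≤ 1 / (L : ℝ) ^ 2 := by
  have h1 := tendsto_rpow_mul_exp_neg_mul_atTop_nhds_zero (((k : ℝ) + 2) / g) 1 one_pos
  have h2 : Tendsto (fun L : ℕ => (L : ℝ) ^ g) atTop atTop :=
    (tendsto_rpow_atTop hg).comp tendsto_natCast_atTop_atTop
  have h3 := h1.comp h2
  have h4 := h3.eventually (gt_mem_nhds (Real.exp_pos (-1)))
  filter_upwards [h4, eventually_ge_atTop 1] with L h5 h6
  have hL : (0 : ℝ) < L := by exact_mod_cast h6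
  simp only [Function.comp] at h5
  rw [← Real.rpow_mul hL.le, show g * (((k : ℝ) + 2) / g) = ((k + 2 : ℕ) : ℝ) by
    push_cast; field_simp, Real.rpow_natCast] at h5
  rw [le_div_iff₀ (by positivity)]
  have h7 : Real.exp (1 - (L : ℝ) ^ g) = Real.exp 1 * Real.exp (-1 * (L : ℝ) ^ g) := by
    rw [← Real.exp_add]; congr 1; ring
  rw [h7]
  have h8 : Real.exp 1 * Real.exp (-1) = 1 := by rw [← Real.exp_add]; simp
  calc (L : ℝ) ^ k * (Real.exp 1 * Real.exp (-1 * (L : ℝ) ^ g)) * (L : ℝ) ^ 2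
      = Real.exp 1 * ((L : ℝ) ^ (k + 2) * Real.exp (-1 * (L : ℝ) ^ g)) := by ring
    _ ≤ Real.exp 1 * Real.exp (-1) := by gcongr
    _ = 1 := h8

/-- Borel–Cantelli for finitely indexed families -/
lemma ae_ev {ι : Type*} (I : ℕ → Finset ι) (S : ℕ → ι → Set ℝ)
    (h : ∀ᶠ L in atTop, ∑ q ∈ I L, lam (S L q) ≤ ENNReal.ofReal (1 / (L : ℝ) ^ 2)) :
    ∀ᵐ y ∂lam, ∀ᶠ L in atTop, ∀ q ∈ I L, y ∉ S L q := by
  obtain ⟨L0, hL0⟩ := eventually_atTop.1 h
  set T : ℕ → Set ℝ := fun L => if L0 ≤ L then ⋃ q ∈ I L, S L q else ∅ with hT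
  have hsum : Summable (fun L : ℕ => 1 / (L : ℝ) ^ 2) := Real.summable_one_div_nat_pow.2 (by norm_num)
  have h1 : (∑' L, lam (T L)) ≠ ⊤ := by
    have h2 : ∀ L, lam (T L) ≤ ENNReal.ofReal (1 / (L : ℝ) ^ 2) := by
      intro L
      simp only [hT]
      split_ifs with hc
      · exact (measure_biUnion_finset_le _ _).trans (hL0 L hc)
      · simp
    refine ne_top_of_le_ne_top ?_ (ENNReal.tsum_le_tsum h2)
    rw [← ENNReal.ofReal_tsum_of_nonneg (fun L => by positivity) hsum]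
    exact ENNReal.ofReal_ne_top
  filter_upwards [ae_eventually_notMem h1] with y hy
  filter_upwards [hy, eventually_ge_atTop L0] with L h3 h4 q hq hq2
  apply h3
  simp only [hT, if_pos h4, Set.mem_iUnion]
  exact ⟨q, hq, hq2⟩

end Pool.Agent.H238.SR
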