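import Pool.Agent.H238.SR.Blk

/-! The pattern probabilities. -/

set_option autoImplicit false

noncomputable section

namespace Pool.Agent.H238.SR

open MeasureTheory Finset

lemma cntblk (p R k : ℕ) (hp : 0 < p) (hk : k ≤ R) (φ : ℕ → ℝ) :
    ∑ m ∈ range (p ^ (2 * R)), φ ((m / p ^ k) % p ^ R) =
      (p : ℝ) ^ R * ∑ s ∈ range (p ^ R), φ s := by
  have h1 : p ^ (2 * R) = p ^ (2 * R - k) * p ^ k := by
    rw [← pow_add]; congr 1; omega
  have h2 : p ^ (2 * R - k) = p ^ (R - k) * p ^ R := by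
    rw [← pow_add]; congr 1; omega
  rw [h1, sum_divMod (p ^ (2 * R - k)) (p ^ k) (pow_pos hp k) (fun n _ => φ (n % p ^ R))]
  simp only [Finset.sum_const, Finset.card_range, nsmul_eq_mul]
  rw [← Finset.mul_sum, h2, sum_divMod (p ^ (R - k)) (p ^ R) (pow_pos hp R) (fun _ m => φ m)]
  simp only [Finset.sum_const, Finset.card_range, nsmul_eq_mul]
  rw [← mul_assoc]
  congr 1
  push_cast
  rw [← pow_add]; congr 1; omega

lemma sgm_ctr (p R : ℕ) (hp : 0 < p) (t : ℕ → ℕ) (c i : ℕ) :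
    0 ≤ sgm p R t c i ∧ sgm p R t c i ≤ 1 :=
  (ctr (p ^ (2 * R)) (pow_pos hp _) (fun m => pat (EM p R t i m) R c i)
    (fun m => pat_01 _ _ _ _) (sgm p R t c i) rfl).2.2.2

lemma sum_sgm (p R : ℕ) (hp : 0 < p) (t : ℕ → ℕ) (i : ℕ) (ht : t i ≤ p ^ R) :
    ∑ c ∈ range (R + 1), sgm p R t c i = (t i : ℝ) / ((p ^ R : ℕ) : ℝ) := by
  unfold sgm
  rw [← Finset.sum_div, Finset.sum_comm]
  simp_rw [sum_pat]
  have h1 : ∀ m, ((ind (EM p R t i m) i : ℕ) : ℝ) = (fun s => if s < t i then (1 : ℝ) else 0)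
      ((m / p ^ 0) % p ^ R) := by
    intro m
    unfold ind EM
    simp only [Set.mem_ofPred_eq, Nat.sub_self]
    split_ifs <;> simp
  simp_rw [h1]
  rw [cntblk p R 0 hp (Nat.zero_le _) (fun s => if s < t i then (1 : ℝ) else 0)]
  rw [← Finset.sum_filter, Finset.sum_const, nsmul_eq_mul, mul_one]
  rw [show (range (p ^ R)).filter (fun m => m < t i) = range (t i) by
      ext m; simp only [Finset.mem_filter, Finset.mem_range]; omega]
  rw [Finset.card_range]
  have : (p : ℝ) ≠ 0 := by exact_mod_cast hp.ne'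
  push_cast
  rw [two_mul, pow_add]
  field_simp

lemma sgm_le (p R : ℕ) (hp : 0 < p) (t : ℕ → ℕ) (c i : ℕ) (ht : t i ≤ p ^ R) (hc : c ≤ R) :
    sgm p R t c i ≤ (t i : ℝ) / ((p ^ R : ℕ) : ℝ) := by
  rw [← sum_sgm p R hp t i ht]
  exact Finset.single_le_sum (f := fun c => sgm p R t c i) (fun c _ => (sgm_ctr p R hp t c i).1)
    (Finset.mem_range.2 (Nat.lt_succ_of_le hc))

/-- comparison of the patterns at `i + 1` and `i` -/
lemma pat_diff (p R : ℕ) (t : ℕ → ℕ) (c i m : ℕ) (hi : R + 1 ≤ i)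
    (hmono : ∀ j, 1 ≤ j → t (j + 1) ≤ t j) :
    |pat (EM p R t (i + 1) m) R c (i + 1) - pat (EM p R t i m) R c i| ≤
      ∑ k ∈ range (R + 1), ((if (m / p ^ k) % p ^ R < t (i - k) then (1 : ℝ) else 0) -
        (if (m / p ^ k) % p ^ R < t (i + 1 - k) then (1 : ℝ) else 0)) := by
  have hterm : ∀ k ∈ range (R + 1), 0 ≤ ((if (m / p ^ k) % p ^ R < t (i - k) then (1 : ℝ) else 0) -
        (if (m / p ^ k) % p ^ R < t (i + 1 - k) then (1 : ℝ) else 0)) := by
    intro k hk
    rw [Finset.mem_range] at hk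
    have h1 := hmono (i - k) (by omega)
    rw [show i - k + 1 = i + 1 - k by omega] at h1
    split_ifs <;> first | omega | norm_num
  by_cases hall : ∀ k ∈ range (R + 1), ((m / p ^ k) % p ^ R < t (i + 1 - k) ↔
      (m / p ^ k) % p ^ R < t (i - k))
  · have he : pat (EM p R t (i + 1) m) R c (i + 1) = pat (EM p R t i m) R c i := by
      unfold pat
      have h1 : (i + 1 ∈ EM p R t (i + 1) m ↔ i ∈ EM p R t i m) := by
        have := hall 0 (Finset.mem_range.2 (by omega))
        unfold EM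
        simp only [Set.mem_ofPred_eq, Nat.sub_self]
        simpa using this
      have h2 : cnt (EM p R t (i + 1) m) (i + 1 - R) (i + 1) = cnt (EM p R t i m) (i - R) i := by
        unfold cnt
        rw [show i + 1 - R = (i - R) + 1 by omega, ← Finset.sum_Ico_add']
        refine Finset.sum_congr rfl fun j hj => ?_
        rw [Finset.mem_Ico] at hj
        apply (fun h => by unfold ind; by_cases hh : j ∈ EM p R t i m
                           · rw [if_pos hh, if_pos (h.2 hh)]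
                           · rw [if_neg hh, if_neg (fun h' => hh (h.1 h'))] :
          (j + 1 ∈ EM p R t (i + 1) m ↔ j ∈ EM p R t i m) → _)
        have := hall (i - j) (Finset.mem_range.2 (by omega))
        unfold EM
        simp only [Set.mem_ofPred_eq]
        rw [show i + 1 - (j + 1) = i - j by omega]
        rw [show i + 1 - (i - j) = j + 1 by omega, show i - (i - j) = j by omega] at this
        exact this
      rw [h2]
      by_cases hq : i ∈ EM p R t i m ∧ cnt (EM p R t i m) (i - R) i = c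
      · rw [if_pos hq, if_pos ⟨h1.2 hq.1, hq.2⟩]
      · rw [if_neg hq, if_neg (fun hq' => hq ⟨h1.1 hq'.1, hq'.2⟩)]
    rw [he, sub_self, abs_zero]
    exact Finset.sum_nonneg hterm
  · push Not at hall
    obtain ⟨k, hk, hne⟩ := hall
    have h1 := hmono (i - k) (by rw [Finset.mem_range] at hk; omega)
    rw [show i - k + 1 = i + 1 - k by rw [Finset.mem_range] at hk; omega] at h1
    have h2 : ((if (m / p ^ k) % p ^ R < t (i - k) then (1 : ℝ) else 0) -
        (if (m / p ^ k) % p ^ R < t (i + 1 - k) then (1 : ℝ) else 0)) = 1 := by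
      rw [if_pos, if_neg]
      · norm_num
      · rcases hne with h | h <;> omega
      · rcases hne with h | h <;> omega
    refine le_trans ?_ (Finset.single_le_sum hterm hk)
    rw [h2]
    rcases pat_01 (EM p R t (i + 1) m) R c (i + 1) with h | h <;>
      rcases pat_01 (EM p R t i m) R c i with h' | h' <;> rw [h, h'] <;> norm_num

lemma sgm_diff (p R : ℕ) (hp : 0 < p) (t : ℕ → ℕ) (c i : ℕ) (hi : R + 1 ≤ i)
    (hmono : ∀ j, 1 ≤ j → t (j + 1) ≤ t j) (ht : ∀ i, t i ≤ p ^ R) :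
    |sgm p R t c (i + 1) - sgm p R t c i| ≤
      ((t (i - R) : ℝ) - t (i + 1)) / ((p ^ R : ℕ) : ℝ) := by
  have hP : (0 : ℝ) < ((p ^ (2 * R) : ℕ) : ℝ) := by exact_mod_cast pow_pos hp _
  have hp0 : (p : ℝ) ≠ 0 := by exact_mod_cast hp.ne'
  unfold sgm
  rw [← sub_div, abs_div, abs_of_pos hP, ← Finset.sum_sub_distrib]
  have hone : ∀ j, ∑ s ∈ range (p ^ R), (if s < t j then (1 : ℝ) else 0) = t j := by
    intro j
    rw [← Finset.sum_filter, Finset.sum_const, nsmul_eq_mul, mul_one]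
    rw [show (range (p ^ R)).filter (fun m => m < t j) = range (t j) by
      ext m; simp only [Finset.mem_filter, Finset.mem_range]; have := ht j; omega]
    rw [Finset.card_range]
  have h1 : |∑ m ∈ range (p ^ (2 * R)), (pat (EM p R t (i + 1) m) R c (i + 1) -
      pat (EM p R t i m) R c i)| ≤ (p : ℝ) ^ R * ((t (i - R) : ℝ) - t (i + 1)) := by
    calc _ ≤ ∑ m ∈ range (p ^ (2 * R)), |pat (EM p R t (i + 1) m) R c (i + 1) -
          pat (EM p R t i m) R c i| := Finset.abs_sum_le_sum_abs _ _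
      _ ≤ ∑ m ∈ range (p ^ (2 * R)), ∑ k ∈ range (R + 1),
          ((if (m / p ^ k) % p ^ R < t (i - k) then (1 : ℝ) else 0) -
            (if (m / p ^ k) % p ^ R < t (i + 1 - k) then (1 : ℝ) else 0)) :=
          Finset.sum_le_sum fun m _ => pat_diff p R t c i m hi hmono
      _ = ∑ k ∈ range (R + 1), ((p : ℝ) ^ R * t (i - k) - (p : ℝ) ^ R * t (i + 1 - k)) := by
          rw [Finset.sum_comm]
          refine Finset.sum_congr rfl fun k hk => ?_
          rw [Finset.mem_range] at hk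
          rw [Finset.sum_sub_distrib,
            cntblk p R k hp (by omega) (fun s => if s < t (i - k) then (1 : ℝ) else 0),
            cntblk p R k hp (by omega) (fun s => if s < t (i + 1 - k) then (1 : ℝ) else 0),
            hone, hone]
      _ = (p : ℝ) ^ R * ((t (i - R) : ℝ) - t (i + 1)) := by
          have h2 := Finset.sum_range_sub (fun k => (p : ℝ) ^ R * (t (i + 1 - k) : ℝ)) (R + 1)
          have h3 : ∀ k ∈ range (R + 1), ((p : ℝ) ^ R * t (i - k) - (p : ℝ) ^ R * t (i + 1 - k)) =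
              (p : ℝ) ^ R * (t (i + 1 - (k + 1)) : ℝ) - (p : ℝ) ^ R * (t (i + 1 - k) : ℝ) := by
            intro k _
            rw [show i + 1 - (k + 1) = i - k by omega]
          rw [Finset.sum_congr rfl h3, h2]
          rw [show i + 1 - (R + 1) = i - R by omega, Nat.sub_zero]
          ring
  calc _ ≤ ((p : ℝ) ^ R * ((t (i - R) : ℝ) - t (i + 1))) / ((p ^ (2 * R) : ℕ) : ℝ) := by gcongr
    _ = _ := by
      push_cast
      rw [two_mul, pow_add]
      field_simp

/-- total variation of the pattern probabilities -/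
lemma tv (p R : ℕ) (hp : 0 < p) (hR : 1 ≤ R) (t : ℕ → ℕ) (c L : ℕ)
    (hmono : ∀ j, 1 ≤ j → t (j + 1) ≤ t j) (ht : ∀ i, t i ≤ p ^ R) :
    ∑ i ∈ Ico (2 * R) L, |sgm p R t c (i + 1) - sgm p R t c i| ≤ R + 1 := by
  have hP : (0 : ℝ) < ((p ^ R : ℕ) : ℝ) := by exact_mod_cast pow_pos hp _
  by_cases hL : L ≤ 2 * R
  · rw [Finset.Ico_eq_empty_of_le hL, Finset.sum_empty]; positivity
  push Not at hL
  -- the first term is trivial to bound when `R = 1`
  set u : ℕ → ℝ := fun i => (t i : ℝ) / ((p ^ R : ℕ) : ℝ) with hu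
  have hu0 : ∀ i, 0 ≤ u i := fun i => by positivity
  have hu1 : ∀ i, u i ≤ 1 := fun i => by
    simp only [hu]; rw [div_le_one hP]; exact_mod_cast ht i
  have h1 : ∀ i ∈ Ico (2 * R) L, |sgm p R t c (i + 1) - sgm p R t c i| ≤
      u (i - R) - u (i + 1) := by
    intro i hi
    rw [Finset.mem_Ico] at hi
    have := sgm_diff p R hp t c i (by omega) hmono ht
    rw [sub_div] at this
    exact this
  have h2 : ∑ i ∈ Ico (2 * R) L, u (i - R) = ∑ i ∈ Ico R (L - R), u i := by
    have h6 : Ico (2 * R) L = Ico (R + R) ((L - R) + R) := by congr 1 <;> omega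
    rw [h6, ← Finset.sum_Ico_add' (fun i => u (i - R))]
    refine Finset.sum_congr rfl fun i _ => ?_
    rw [Nat.add_sub_cancel]
  have h3 : ∑ i ∈ Ico (2 * R) L, u (i + 1) = ∑ i ∈ Ico (2 * R + 1) (L + 1), u i := by
    rw [← Finset.sum_Ico_add']
  have h4 : ∑ i ∈ Ico R (L - R), u i ≤ ∑ i ∈ Ico R (2 * R + 1), u i +
      ∑ i ∈ Ico (2 * R + 1) (L + 1), u i := by
    rw [Finset.sum_Ico_consecutive _ (by omega) (by omega)]
    apply Finset.sum_le_sum_of_subset_of_nonneg
    · intro i hi; rw [Finset.mem_Ico] at *; omega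
    · intro i _ _; exact hu0 i
  have h5 : ∑ i ∈ Ico R (2 * R + 1), u i ≤ R + 1 := by
    calc _ ≤ ∑ i ∈ Ico R (2 * R + 1), (1 : ℝ) := Finset.sum_le_sum fun i _ => hu1 i
      _ = R + 1 := by
        rw [Finset.sum_const, Nat.card_Ico, nsmul_eq_mul, mul_one]
        rw [show 2 * R + 1 - R = R + 1 by omega]; push_cast; ring
  calc _ ≤ ∑ i ∈ Ico (2 * R) L, (u (i - R) - u (i + 1)) := Finset.sum_le_sum h1
    _ = ∑ i ∈ Ico R (L - R), u i - ∑ i ∈ Ico (2 * R + 1) (L + 1), u i := by
        rw [Finset.sum_sub_distrib, h2, h3]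
    _ ≤ R + 1 := by linarith

end Pool.Agent.H238.SR
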