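import Pool.Graph.R_seed8.H505RS.TR
import Pool.Graph.R_seed8.H505RS.PJ

/-! Transference: one function of `T`, one function of `S`. -/

set_option autoImplicit false

noncomputable section

namespace Pool.Agent.H238.SR

open MeasureTheory Finset Pool.Agent.H505RS

universe u

lemma dsum (L : ℕ) (J : Finset ℕ) (w : ℕ → ℝ) (κ : ℕ → ℕ)
    (hJ : ∀ i ∈ J, i ≤ L) (hκ : ∀ i ∈ J, κ i ≤ L) (Φ : ℕ → ℕ → ℂ) :
    ∑ a ∈ range (L + 1), ∑ b ∈ range (L + 1),
      ((∑ i ∈ J, if κ i = a ∧ i = b then w i else 0 : ℝ) : ℂ) * Φ a b =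
      ∑ i ∈ J, (w i : ℂ) * Φ (κ i) i := by
  classical
  have h1 : ∀ a ∈ range (L + 1), ∀ b ∈ range (L + 1),
      ((∑ i ∈ J, if κ i = a ∧ i = b then w i else 0 : ℝ) : ℂ) * Φ a b =
      ∑ i ∈ J, if κ i = a ∧ i = b then (w i : ℂ) * Φ (κ i) i else 0 := by
    intro a _ b _
    push_cast
    rw [Finset.sum_mul]
    refine Finset.sum_congr rfl fun i _ => ?_
    by_cases h : κ i = a ∧ i = b
    · rw [if_pos h, if_pos h]; obtain ⟨rfl, rfl⟩ := h; rfl
    · rw [if_neg h, if_neg h]; simp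
  rw [Finset.sum_congr rfl fun a ha => Finset.sum_congr rfl fun b hb => h1 a ha b hb]
  rw [Finset.sum_congr rfl fun a _ => Finset.sum_comm, Finset.sum_comm]
  refine Finset.sum_congr rfl fun i hi => ?_
  rw [Finset.sum_eq_single (κ i)]
  · rw [Finset.sum_eq_single i]
    · rw [if_pos ⟨rfl, rfl⟩]
    · intro b _ hb; rw [if_neg fun h => hb h.2.symm]
    · intro h; exact absurd (Finset.mem_range.2 (Nat.lt_succ_of_le (hJ i hi))) h
  · intro a _ ha
    refine Finset.sum_eq_zero fun b _ => ?_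
    rw [if_neg fun h => ha h.1.symm]
  · intro h; exact absurd (Finset.mem_range.2 (Nat.lt_succ_of_le (hκ i hi))) h

theorem trans_le (L : ℕ) (hL : 1 ≤ L) (J : Finset ℕ) (w : ℕ → ℝ) (κ : ℕ → ℕ) (K : ℝ) (hK : 0 ≤ K)
    (hJ : ∀ i ∈ J, i ≤ L) (hκ : ∀ i ∈ J, κ i ≤ L)
    (hg : ∀ k1 k2 : ℕ, k1 < 3 * L → k2 < 3 * L →
      ‖∑ i ∈ J, (w i : ℂ) * (ee ((k1 : ℝ) * (κ i : ℕ) / (3 * L)) * ee ((k2 : ℝ) * i / (3 * L)))‖ ≤ K)
    {X : Type u} [MeasurableSpace X] (μ : Measure X) (T S : X → X) (hsy : Sy μ T S)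
    (F G : X → ℝ) (hF : Bd F) (hG : Bd G) :
    |∫ x, ∑ i ∈ J, w i * (F (T^[κ i] x) * G (S^[i] x)) ∂μ| ≤ 3 * K := by
  classical
  have := hsy.prob
  set Ψ : X → ℝ := fun x => ∑ i ∈ J, w i * (F (T^[κ i] x) * G (S^[i] x)) with hΨ
  have hTm := hsy.mT.measurable
  have hSm := hsy.mS.measurable
  have hΨm : Measurable Ψ := Finset.measurable_sum _ fun i _ =>
    measurable_const.mul ((hF.1.comp (hTm.iterate _)).mul (hG.1.comp (hSm.iterate _)))
  have hb1 : ∀ x y, |F x * G y| ≤ 1 := fun x y => by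
    rw [abs_mul]
    calc |F x| * |G y| ≤ 1 * 1 := by gcongr; exacts [hF.2 x, hG.2 y]
      _ = 1 := by ring
  have hΨb : ∀ x, |Ψ x| ≤ ∑ i ∈ J, |w i| := fun x => by
    refine (Finset.abs_sum_le_sum_abs _ _).trans (Finset.sum_le_sum fun i _ => ?_)
    rw [abs_mul]
    calc |w i| * _ ≤ |w i| * 1 := by gcongr; exact hb1 _ _
      _ = |w i| := mul_one _
  have hcomm : ∀ (i j : ℕ) (x : X), S^[i] (T^[j] x) = T^[j] (S^[i] x) := by
    intro i j x
    have hc : Function.Commute S T := fun x => (hsy.comm x).symm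
    exact hc.iterate_iterate i j x
  have hpt : ∀ x, |∑ j1 ∈ range L, ∑ j2 ∈ range L, Ψ (T^[j1] (S^[j2] x))| ≤ 3 * (L : ℝ) ^ 2 * K := by
    intro x
    have h := t_TR L 1 1 (fun _ _ a b => ((∑ i ∈ J, if κ i = a ∧ i = b then w i else 0 : ℝ) : ℂ))
      (fun _ a b => ((F (T^[a] (S^[b] x)) : ℝ) : ℂ)) (fun _ a b => ((G (T^[a] (S^[b] x)) : ℝ) : ℂ))
      K hL hK
      (fun _ i j => by rw [Complex.norm_real]; exact hF.2 _)
      (fun _ i j => by rw [Complex.norm_real]; exact hG.2 _)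
      (by
        intro k1 k2 h1 h2 ξ η
        simp only [Finset.univ_unique, Finset.sum_singleton]
        rw [dsum L J w κ hJ hκ (fun a b => ee ((k1 : ℝ) * a / (3 * L)) * ee ((k2 : ℝ) * b / (3 * L)))]
        rw [norm_mul, norm_mul, mul_comm]
        have h3 := hg k1 k2 h1 h2
        rw [Real.sqrt_sq (norm_nonneg _), Real.sqrt_sq (norm_nonneg _)]
        gcongr)
    simp only [Finset.univ_unique, Finset.sum_singleton, Nat.cast_one, mul_one, Real.sqrt_one] at h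
    have h2 : ∑ j1 ∈ range L, ∑ j2 ∈ range L, ∑ a ∈ range (L + 1), ∑ b ∈ range (L + 1),
        ((∑ i ∈ J, if κ i = a ∧ i = b then w i else 0 : ℝ) : ℂ) *
          (((F (T^[j1 + a] (S^[j2] x)) : ℝ) : ℂ) * ((G (T^[j1] (S^[j2 + b] x)) : ℝ) : ℂ)) =
        ((∑ j1 ∈ range L, ∑ j2 ∈ range L, Ψ (T^[j1] (S^[j2] x)) : ℝ) : ℂ) := by
      push_cast
      refine Finset.sum_congr rfl fun j1 _ => Finset.sum_congr rfl fun j2 _ => ?_
      have h3 := dsum L J w κ hJ hκ (fun a b =>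
        ((F (T^[j1 + a] (S^[j2] x)) : ℝ) : ℂ) * ((G (T^[j1] (S^[j2 + b] x)) : ℝ) : ℂ))
      push_cast at h3
      rw [h3, hΨ]
      push_cast
      refine Finset.sum_congr rfl fun i _ => ?_
      congr 2
      · rw [add_comm, Function.iterate_add_apply]
      · rw [hcomm, add_comm, Function.iterate_add_apply]
    rw [h2, Complex.norm_real, Real.norm_eq_abs] at h
    exact h
  rw [show (∫ x, ∑ i ∈ J, w i * (F (T^[κ i] x) * G (S^[i] x)) ∂μ) = ∫ x, Ψ x ∂μ from rfl,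
    t_PJ X μ T S Ψ L hL hsy hΨm ⟨_, hΨb⟩, abs_mul, abs_of_nonneg (by positivity)]
  have hL' : (0 : ℝ) < L := by exact_mod_cast hL
  have h4 : |∫ x, ∑ j1 ∈ range L, ∑ j2 ∈ range L, Ψ (T^[j1] (S^[j2] x)) ∂μ| ≤ 3 * (L : ℝ) ^ 2 * K := by
    have := norm_integral_le_of_norm_le_const (μ := μ) (C := 3 * (L : ℝ) ^ 2 * K)
      (f := fun x => ∑ j1 ∈ range L, ∑ j2 ∈ range L, Ψ (T^[j1] (S^[j2] x)))
      (Filter.Eventually.of_forall fun x => by rw [Real.norm_eq_abs]; exact hpt x)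
    simpa using this
  calc 1 / (L : ℝ) ^ 2 * _ ≤ 1 / (L : ℝ) ^ 2 * (3 * (L : ℝ) ^ 2 * K) := by gcongr
    _ = 3 * K := by field_simp

end Pool.Agent.H238.SR
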